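import Pool.Agent.H874.CS.Hilb

/-!
# The action of the block diagonal matrices
-/

open MvPolynomial

namespace Pool.Agent.H874.CS

variable {σ ι K : Type*} [Field K] [Fintype σ] [DecidableEq σ]

/-- the action of a matrix on the polynomial ring, `X j ↦ ∑ i, g i j X i` -/
noncomputable def act (g : Matrix σ σ K) : MvPolynomial σ K →ₐ[K] MvPolynomial σ K :=
  aeval fun j => ∑ i, g i j • X i

/-- the group `∏ GL(V_k)` of the invertible block diagonal matrices -/
def InG (c : σ → ι) (g : Matrix σ σ K) : Prop :=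
  (∀ i j, c i ≠ c j → g i j = 0) ∧ g.det ≠ 0

theorem act_X (g : Matrix σ σ K) (j : σ) : act g (X j) = ∑ i, g i j • X i := by
  rw [act, aeval_X]

theorem act_mul (g h : Matrix σ σ K) : act (g * h) = (act g).comp (act h) := by
  apply MvPolynomial.algHom_ext
  intro j
  rw [AlgHom.comp_apply, act_X, act_X, map_sum]
  simp only [map_smul, act_X, Matrix.mul_apply, Finset.smul_sum, smul_smul, Finset.sum_smul]
  rw [Finset.sum_comm]
  refine Finset.sum_congr rfl fun k _ => Finset.sum_congr rfl fun i _ => ?_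
  rw [mul_comm]

theorem act_one : act (1 : Matrix σ σ K) = AlgHom.id K _ := by
  apply MvPolynomial.algHom_ext
  intro j
  rw [act_X, AlgHom.id_apply, Finset.sum_eq_single j]
  · rw [Matrix.one_apply_eq, one_smul]
  · intro i _ hij
    rw [Matrix.one_apply_ne hij, zero_smul]
  · intro h; exact absurd (Finset.mem_univ _) h

theorem act_inv_act {g : Matrix σ σ K} (hg : g.det ≠ 0) (f : MvPolynomial σ K) :
    act g⁻¹ (act g f) = f := by
  rw [← AlgHom.comp_apply, ← act_mul, Matrix.nonsing_inv_mul _ (isUnit_iff_ne_zero.2 hg), act_one,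
    AlgHom.id_apply]

theorem act_act_inv {g : Matrix σ σ K} (hg : g.det ≠ 0) (f : MvPolynomial σ K) :
    act g (act g⁻¹ f) = f := by
  rw [← AlgHom.comp_apply, ← act_mul, Matrix.mul_nonsing_inv _ (isUnit_iff_ne_zero.2 hg), act_one,
    AlgHom.id_apply]

/-- the linear equivalence given by an invertible matrix -/
noncomputable def actE {g : Matrix σ σ K} (hg : g.det ≠ 0) :
    MvPolynomial σ K ≃ₗ[K] MvPolynomial σ K :=
  LinearEquiv.ofLinearMap (act g).toLinearMap (act g⁻¹).toLinearMap
    (LinearMap.ext fun f => act_act_inv hg f) (LinearMap.ext fun f => act_inv_act hg f)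

theorem actE_apply {g : Matrix σ σ K} (hg : g.det ≠ 0) (f : MvPolynomial σ K) :
    actE hg f = act g f := rfl

theorem act_surjective {g : Matrix σ σ K} (hg : g.det ≠ 0) : Function.Surjective (act g) :=
  fun f => ⟨act g⁻¹ f, act_act_inv hg f⟩

theorem act_injective {g : Matrix σ σ K} (hg : g.det ≠ 0) : Function.Injective (act g) :=
  Function.LeftInverse.injective (g := act g⁻¹) fun f => act_inv_act hg f

theorem mem_map_act {g : Matrix σ σ K} (hg : g.det ≠ 0) {I : Ideal (MvPolynomial σ K)}
    {f : MvPolynomial σ K} : f ∈ I.map (act g) ↔ ∃ h ∈ I, act g h = f := by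
  rw [Ideal.mem_map_iff_of_surjective _ (act_surjective hg)]

theorem act_mem_map {g : Matrix σ σ K} (hg : g.det ≠ 0) {I : Ideal (MvPolynomial σ K)}
    {f : MvPolynomial σ K} : act g f ∈ I.map (act g) ↔ f ∈ I := by
  rw [mem_map_act hg]
  constructor
  · rintro ⟨h, hh, he⟩
    rwa [← act_injective hg he]
  · intro h; exact ⟨f, h, rfl⟩

theorem map_map_act (g h : Matrix σ σ K) (I : Ideal (MvPolynomial σ K)) :
    (I.map (act h)).map (act g) = I.map (act (g * h)) := by
  rw [act_mul, Ideal.map_mapₐ]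

theorem act_X_hom {c : σ → ι} {g : Matrix σ σ K} (hg : ∀ i j, c i ≠ c j → g i j = 0) (j : σ) :
    act g (X j) ∈ restrictSupport K (Ed c (Finsupp.single (c j) 1)) := by
  rw [act_X]
  refine Submodule.sum_mem _ fun i _ => ?_
  by_cases h : c i = c j
  · refine Submodule.smul_mem _ _ ?_
    rw [X, monomial_mem_restrictSupport]
    left
    rw [mem_Ed, Finsupp.mapDomain_single, h]
  · rw [hg i j h, zero_smul]
    exact Submodule.zero_mem _

theorem hcomp_act {c : σ → ι} {g : Matrix σ σ K} (hg : ∀ i j, c i ≠ c j → g i j = 0)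
    (d : ι →₀ ℕ) (f : MvPolynomial σ K) : hcomp c d (act g f) = act g (hcomp c d f) :=
  hcomp_map c c (act g) (act_X_hom hg) d f

theorem act_restrict {c : σ → ι} {g : Matrix σ σ K} (hg : ∀ i j, c i ≠ c j → g i j = 0)
    {d : ι →₀ ℕ} {f : MvPolynomial σ K} (hf : f ∈ restrictSupport K (Ed c d)) :
    act g f ∈ restrictSupport K (Ed c d) := map_hom c c (act g) (act_X_hom hg) hf

theorem graded_map {c : σ → ι} {g : Matrix σ σ K} (hg : InG c g) {I : Ideal (MvPolynomial σ K)}
    (hI : IsGraded c I) : IsGraded c (I.map (act g)) := by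
  intro f hf d
  obtain ⟨h, hh, rfl⟩ := (mem_map_act hg.2).1 hf
  rw [hcomp_act hg.1, act_mem_map hg.2]
  exact hI h hh d

instance finite_restrict (c : σ → ι) (d : ι →₀ ℕ) :
    Module.Finite K (restrictSupport K (Ed c d)) := by
  have : Finite (Ed c d) := (finite_Ed c d).to_subtype
  exact Module.Finite.of_basis (basisRestrictSupport K (Ed c d))

theorem map_restrict {c : σ → ι} {g : Matrix σ σ K} (hg : InG c g) (d : ι →₀ ℕ) :
    (restrictSupport K (Ed c d)).map (actE hg.2).toLinearMap = restrictSupport K (Ed c d) := by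
  apply Submodule.eq_of_le_of_finrank_eq
  · rintro _ ⟨f, hf, rfl⟩
    exact act_restrict hg.1 hf
  · exact LinearEquiv.finrank_map_eq (actE hg.2) _

theorem hf_map {c : σ → ι} {g : Matrix σ σ K} (hg : InG c g) {I : Ideal (MvPolynomial σ K)}
    (d : ι →₀ ℕ) : hf c (I.map (act g)) d = hf c I d := by
  have h1 : (I.restrictScalars K).map (actE hg.2).toLinearMap =
      (I.map (act g)).restrictScalars K := by
    ext f
    rw [Submodule.restrictScalars_mem, mem_map_act hg.2]
    rfl
  have e := Submodule.Quotient.equiv _ _ (actE hg.2) h1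
  have h2 : ((restrictSupport K (Ed c d)).map ((I.restrictScalars K).mkQ)).map
      (Submodule.Quotient.equiv _ _ (actE hg.2) h1).toLinearMap =
      (restrictSupport K (Ed c d)).map ((I.map (act g)).restrictScalars K).mkQ := by
    conv_rhs => rw [← map_restrict hg d]
    rw [← Submodule.map_comp, ← Submodule.map_comp]
    rfl
  rw [hf, hf, qdim, qdim, ← h2]
  exact LinearEquiv.finrank_map_eq _ _

theorem inG_mul {c : σ → ι} {g h : Matrix σ σ K} (hg : InG c g) (hh : InG c h) :
    InG c (g * h) := by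
  refine ⟨fun i j hij => ?_, ?_⟩
  · rw [Matrix.mul_apply]
    refine Finset.sum_eq_zero fun k _ => ?_
    by_cases h1 : c i = c k
    · rw [hh.1 k j (h1 ▸ hij), mul_zero]
    · rw [hg.1 i k h1, zero_mul]
  · rw [Matrix.det_mul]
    exact mul_ne_zero hg.2 hh.2

theorem inG_one (c : σ → ι) : InG c (1 : Matrix σ σ K) := by
  refine ⟨fun i j hij => ?_, by simp⟩
  rw [Matrix.one_apply_ne]
  rintro rfl
  exact hij rfl

theorem inG_diagonal (c : σ → ι) {t : σ → K} (ht : ∀ i, t i ≠ 0) :
    InG c (Matrix.diagonal t) := by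
  refine ⟨fun i j hij => ?_, ?_⟩
  · rw [Matrix.diagonal_apply_ne]
    rintro rfl
    exact hij rfl
  · rw [Matrix.det_diagonal]
    exact Finset.prod_ne_zero_iff.2 fun i _ => ht i

theorem inG_transvection (c : σ → ι) {x z : σ} (hxz : x ≠ z) (h : c x = c z) (t : K) :
    InG c (Matrix.transvection x z t) := by
  refine ⟨fun i j hij => ?_, ?_⟩
  · rw [Matrix.transvection, Matrix.add_apply, Matrix.one_apply_ne (by rintro rfl; exact hij rfl),
      zero_add, Matrix.single_apply_of_ne]
    rintro ⟨rfl, rfl⟩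
    exact hij h
  · rw [Matrix.det_transvection_of_ne _ _ hxz]
    exact one_ne_zero

end Pool.Agent.H874.CS
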