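import Mathlib

/-!
# Leading exponents and dimensions (Macaulay's lemma)
-/

open MvPolynomial

namespace Pool.Agent.H874.CS

variable {σ ι K : Type*} [Field K]

/-- the exponents of leading monomials of nonzero elements of `S` -/
def Lead (m : MonomialOrder σ) (S : Set (MvPolynomial σ K)) : Set (σ →₀ ℕ) :=
  {a | ∃ f ∈ S, f ≠ 0 ∧ m.degree f = a}

theorem Lead_mono (m : MonomialOrder σ) {S T : Set (MvPolynomial σ K)} (h : S ⊆ T) :
    Lead m S ⊆ Lead m T := fun _ ⟨f, hf, h0, h1⟩ => ⟨f, h hf, h0, h1⟩

/-- polynomials supported on `T` whose leading exponents are not in `Lead W` are not in `W` -/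
theorem disj (m : MonomialOrder σ) (W : Submodule K (MvPolynomial σ K)) (T : Set (σ →₀ ℕ))
    (f : MvPolynomial σ K) (hf : f ∈ W) (hT : f ∈ restrictSupport K (T \ Lead m (W : Set (MvPolynomial σ K)))) :
    f = 0 := by
  by_contra h0
  rw [mem_restrictSupport_iff] at hT
  exact (hT (m.degree_mem_support h0)).2 ⟨f, hf, h0, rfl⟩

/-- `T` is compatible with `W`: leading exponents in `T` come from elements supported in `T` -/
def Compat (m : MonomialOrder σ) (W : Submodule K (MvPolynomial σ K)) (T : Set (σ →₀ ℕ)) : Prop :=
  ∀ a ∈ T, a ∈ Lead m (W : Set (MvPolynomial σ K)) →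
    ∃ f ∈ W, f ≠ 0 ∧ m.degree f = a ∧ f ∈ restrictSupport K T

theorem reduce (m : MonomialOrder σ) (W : Submodule K (MvPolynomial σ K)) (T : Set (σ →₀ ℕ))
    (hc : Compat m W T) (s : m.syn) : ∀ f : MvPolynomial σ K, f ∈ restrictSupport K T →
      (∀ a ∈ f.support, m.toSyn a ≤ s) →
      ∃ r ∈ restrictSupport K (T \ Lead m (W : Set (MvPolynomial σ K))), f - r ∈ W ∧
        f - r ∈ restrictSupport K T ∧ ∀ a ∈ r.support, m.toSyn a ≤ s := by
  classical
  induction s using WellFoundedLT.induction with
  | ind s ih =>
    intro f hf hs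
    by_cases h0 : f = 0
    · exact ⟨0, Submodule.zero_mem _, by simp [h0], by simp [h0], by simp⟩
    have hd := m.degree_mem_support h0
    have hdT : m.degree f ∈ T := ((mem_restrictSupport_iff K).1 hf) hd
    have key : ∀ g : MvPolynomial σ K, g ∈ restrictSupport K T →
        (∀ a ∈ g.support, m.toSyn a ≤ m.toSyn (m.degree f)) → g.coeff (m.degree f) = 0 →
        ∃ r ∈ restrictSupport K (T \ Lead m (W : Set (MvPolynomial σ K))), g - r ∈ W ∧ g - r ∈ restrictSupport K T ∧
        ∀ a ∈ r.support, m.toSyn a ≤ s := by
      intro g hg hle hc0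
      by_cases g0 : g = 0
      · exact ⟨0, Submodule.zero_mem _, by simp [g0], by simp [g0], by simp⟩
      have hlt : m.toSyn (m.degree g) < s := by
        refine lt_of_lt_of_le (lt_of_le_of_ne (hle _ (m.degree_mem_support g0)) ?_) (hs _ hd)
        intro he
        have := m.toSyn.injective he
        rw [← this] at hc0
        exact (mem_support_iff.1 (m.degree_mem_support g0)) hc0
      obtain ⟨r, hr, h1, h2, h3⟩ := ih _ hlt g hg (fun a ha => m.le_degree ha)
      exact ⟨r, hr, h1, h2, fun a ha => (h3 a ha).trans hlt.le⟩
    by_cases hL : m.degree f ∈ Lead m (W : Set (MvPolynomial σ K))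
    · obtain ⟨h, hhW, hh0, hhd, hhT⟩ := hc _ hdT hL
      have hlc : h.coeff (m.degree f) ≠ 0 := by
        rw [← hhd]; exact mem_support_iff.1 (m.degree_mem_support hh0)
      set t := f.coeff (m.degree f) / h.coeff (m.degree f) with ht
      obtain ⟨r, hr, h1, h2, h3⟩ := key (f - t • h)
        (Submodule.sub_mem _ hf (Submodule.smul_mem _ _ hhT)) (by
          intro a ha
          rcases Finset.mem_union.1 (support_sub _ _ _ ha) with h' | h'
          · exact m.le_degree h'
          · rw [← hhd]
            exact m.le_degree (support_smul h')) (by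
          rw [coeff_sub, coeff_smul, ht, smul_eq_mul, div_mul_cancel₀ _ hlc, sub_self])
      refine ⟨r, hr, ?_, ?_, h3⟩
      · have := W.add_mem h1 (W.smul_mem t hhW)
        convert this using 1; ring
      · have := (restrictSupport K T).add_mem h2 ((restrictSupport K T).smul_mem t hhT)
        convert this using 1; ring
    · obtain ⟨r, hr, h1, h2, h3⟩ := key (f - monomial (m.degree f) (f.coeff (m.degree f)))
        (Submodule.sub_mem _ hf ((monomial_mem_restrictSupport K).2 (Or.inl hdT))) (by
          intro a ha
          rcases Finset.mem_union.1 (support_sub _ _ _ ha) with h' | h'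
          · exact m.le_degree h'
          · have := support_monomial_subset h'
            rw [Finset.mem_singleton] at this
            rw [this]) (by
          rw [coeff_sub, coeff_monomial, if_pos rfl, sub_self])
      refine ⟨r + monomial (m.degree f) (f.coeff (m.degree f)), ?_, ?_, ?_, ?_⟩
      · exact Submodule.add_mem _ hr ((monomial_mem_restrictSupport K).2 (Or.inl ⟨hdT, hL⟩))
      · convert h1 using 1; ring
      · convert h2 using 1; ring
      · intro a ha
        rcases Finset.mem_union.1 (support_add ha) with h' | h'
        · exact h3 a h'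
        · have := support_monomial_subset h'
          rw [Finset.mem_singleton] at this
          rw [this]; exact hs _ hd

/-- the dimension of the image of the span of the monomials of `T` in the quotient by `W` -/
noncomputable def qdim (W : Submodule K (MvPolynomial σ K)) (T : Set (σ →₀ ℕ)) : ℕ :=
  Module.finrank K ((restrictSupport K T).map W.mkQ)

theorem macaulay (m : MonomialOrder σ) (W : Submodule K (MvPolynomial σ K)) (T : Set (σ →₀ ℕ))
    (hc : Compat m W T) : qdim W T = (T \ Lead m (W : Set (MvPolynomial σ K))).ncard := by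
  set R := restrictSupport K (T \ Lead m (W : Set (MvPolynomial σ K))) with hR
  have h1 : (restrictSupport K T).map W.mkQ = R.map W.mkQ := by
    apply le_antisymm
    · rintro _ ⟨f, hf, rfl⟩
      obtain ⟨r, hr, h1, -, -⟩ := reduce m W T hc (m.toSyn (m.degree f)) f hf
        (fun a ha => m.le_degree ha)
      refine ⟨r, hr, ?_⟩
      rw [Submodule.mkQ_apply, Submodule.mkQ_apply, eq_comm, Submodule.Quotient.eq]
      exact h1
    · exact Submodule.map_mono (restrictSupport_mono K Set.sdiff_subset)
  have h2 : Module.finrank K (R.map W.mkQ) = Module.finrank K R := by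
    have hinj : Function.Injective (W.mkQ.domRestrict R) := by
      rw [← LinearMap.ker_eq_bot, LinearMap.ker_eq_bot']
      intro x hx
      have hx' : (x : MvPolynomial σ K) ∈ W := by
        simpa [LinearMap.domRestrict_apply] using hx
      exact Subtype.ext (disj m W T _ hx' x.2)
    have := LinearMap.finrank_range_of_inj hinj
    rw [LinearMap.range_domRestrict] at this
    exact this
  rw [qdim, h1, h2, Module.finrank_eq_nat_card_basis (basisRestrictSupport K _)]
  rfl

end Pool.Agent.H874.CS
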