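import Pool.Agent.H874.CS.GenSet

/-!
# The generic set of leading exponents is fixed by elementary moves
-/

open MvPolynomial

namespace Pool.Agent.H874.CS

variable {σ ι K : Type*} [Field K]

/-- `ν` is the smallest exponent of `p`, with coefficient one -/
def Mon1 (m : MonomialOrder σ) (ν : σ →₀ ℕ) (p : MvPolynomial σ K) : Prop :=
  p - monomial ν 1 ∈ restrictSupport K {a | m.toSyn ν < m.toSyn a}

theorem mul_mem_gt (m : MonomialOrder σ) {a b : σ →₀ ℕ} {f g : MvPolynomial σ K}
    (hf : f ∈ restrictSupport K {x | m.toSyn a < m.toSyn x})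
    (hg : g ∈ restrictSupport K {x | m.toSyn b ≤ m.toSyn x}) :
    f * g ∈ restrictSupport K {x | m.toSyn (a + b) < m.toSyn x} := by
  classical
  rw [mem_restrictSupport_iff] at *
  intro x hx
  obtain ⟨y, hy, z, hz, rfl⟩ := Finset.mem_add.1 (support_mul f g hx)
  have h1 : m.toSyn a < m.toSyn y := hf hy
  have h2 : m.toSyn b ≤ m.toSyn z := hg hz
  change m.toSyn (a + b) < m.toSyn (y + z)
  rw [map_add, map_add]
  exact add_lt_add_of_lt_of_le h1 h2

theorem gt_le_ge (m : MonomialOrder σ) {a : σ →₀ ℕ} {f : MvPolynomial σ K}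
    (hf : f ∈ restrictSupport K {x | m.toSyn a < m.toSyn x}) :
    f ∈ restrictSupport K {x | m.toSyn a ≤ m.toSyn x} :=
  restrictSupport_mono K (fun _ (hx : m.toSyn a < _) => le_of_lt hx) hf

theorem monomial_mem_ge (m : MonomialOrder σ) {a : σ →₀ ℕ} :
    monomial a (1 : K) ∈ restrictSupport K {x | m.toSyn a ≤ m.toSyn x} :=
  (monomial_mem_restrictSupport K).2 (Or.inl (le_refl (m.toSyn a)))

theorem Mon1.mul {m : MonomialOrder σ} {a b : σ →₀ ℕ} {p q : MvPolynomial σ K}
    (hp : Mon1 m a p) (hq : Mon1 m b q) : Mon1 m (a + b) (p * q) := by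
  have h1 : p * q - monomial (a + b) 1 = (p - monomial a 1) * (q - monomial b 1) +
      (p - monomial a 1) * monomial b 1 + (q - monomial b 1) * monomial a 1 := by
    have : (monomial (a + b) (1 : K)) = monomial a 1 * monomial b 1 := by
      rw [monomial_mul, one_mul]
    rw [this]; ring
  rw [Mon1, h1]
  refine Submodule.add_mem _ (Submodule.add_mem _ ?_ ?_) ?_
  · exact mul_mem_gt m hp (gt_le_ge m hq)
  · exact mul_mem_gt m hp (monomial_mem_ge m)
  · rw [add_comm a b]
    exact mul_mem_gt m hq (monomial_mem_ge m)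

theorem Mon1.one {m : MonomialOrder σ} : Mon1 m 0 (1 : MvPolynomial σ K) := by
  rw [Mon1, show (monomial 0 (1 : K)) = 1 from rfl, sub_self]
  exact Submodule.zero_mem _

theorem Mon1.pow {m : MonomialOrder σ} {a : σ →₀ ℕ} {p : MvPolynomial σ K}
    (hp : Mon1 m a p) (n : ℕ) : Mon1 m (n • a) (p ^ n) := by
  induction n with
  | zero => rw [zero_smul, pow_zero]; exact Mon1.one
  | succ n ih => rw [succ_nsmul, pow_succ]; exact ih.mul hp

theorem mon1_map (m : MonomialOrder σ) (θ : MvPolynomial σ K →ₐ[K] MvPolynomial σ K)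
    (h : ∀ j, Mon1 m (Finsupp.single j 1) (θ (X j))) (a : σ →₀ ℕ) :
    Mon1 m a (θ (monomial a 1)) := by
  induction a using Finsupp.induction_linear with
  | zero => rw [show (monomial 0 (1 : K)) = 1 from rfl, map_one]; exact Mon1.one
  | add a b ha hb =>
    rw [← one_mul (1 : K), ← monomial_mul, map_mul]
    exact ha.mul hb
  | single j n =>
    have h1 : monomial (Finsupp.single j n) (1 : K) = X j ^ n := by
      rw [X_pow_eq_monomial]
    rw [h1, map_pow]
    have := (h j).pow n
    rwa [Finsupp.smul_single, smul_eq_mul, mul_one] at this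

variable [Fintype σ] [DecidableEq σ]

theorem act_transvection (x z : σ) (t : K) (j : σ) :
    act (Matrix.transvection x z t) (X j) = X j + if j = z then t • X x else 0 := by
  rw [act_X]
  simp only [Matrix.transvection, Matrix.add_apply, Matrix.one_apply, Matrix.single_apply,
    add_smul, ite_smul, zero_smul, one_smul]
  rw [Finset.sum_add_distrib]
  congr 1
  · rw [Finset.sum_ite_eq' Finset.univ j]
    simp
  · by_cases h : j = z
    · subst h
      simp
    · rw [if_neg h]
      apply Finset.sum_eq_zero
      intro i _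
      rw [if_neg]
      rintro ⟨-, h'⟩
      exact h h'.symm

theorem mon1_transvection (m : MonomialOrder σ) {x z : σ}
    (hlt : m.toSyn (Finsupp.single z 1) < m.toSyn (Finsupp.single x 1)) (t : K) (a : σ →₀ ℕ) :
    Mon1 m a (act (Matrix.transvection x z t) (monomial a 1)) := by
  apply mon1_map
  intro j
  rw [act_transvection, Mon1]
  have : (X j : MvPolynomial σ K) = monomial (Finsupp.single j 1) 1 := rfl
  rw [← this, add_sub_cancel_left]
  split_ifs with h
  · subst h
    refine Submodule.smul_mem _ _ ?_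
    rw [X]
    exact (monomial_mem_restrictSupport K).2 (Or.inl hlt)
  · exact Submodule.zero_mem _

/-- `x` is greater than `z` -/
def Bef (m : MonomialOrder σ) (x z : σ) : Prop :=
  m.toSyn (Finsupp.single z 1) < m.toSyn (Finsupp.single x 1)

theorem act_transvection_fix (x z : σ) (t : K) {u : σ →₀ ℕ} (hu : u z = 0) :
    act (Matrix.transvection x z t) (monomial u 1) = monomial u 1 := by
  rw [monomial_eq, map_mul, Finsupp.prod, map_prod]
  have h1 : act (Matrix.transvection x z t) (C (1 : K)) = C 1 :=
    (act (Matrix.transvection x z t)).commutes 1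
  rw [h1]
  congr 1
  refine Finset.prod_congr rfl fun j hj => ?_
  rw [map_pow, act_transvection, if_neg, add_zero]
  rintro rfl
  exact (Finsupp.mem_support_iff.1 hj) hu

theorem coeff_move {x z : σ} (hxz : x ≠ z) (t : K) {u : σ →₀ ℕ} (hu : u z = 0) (a : ℕ) :
    coeff (u + Finsupp.single x a)
      (act (Matrix.transvection x z t) (monomial (u + Finsupp.single z a) 1)) = t ^ a := by
  have h1 : monomial (u + Finsupp.single z a) (1 : K) = monomial u 1 * X z ^ a := by
    rw [X_pow_eq_monomial, monomial_mul, one_mul]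
  rw [h1, map_mul, act_transvection_fix x z t hu, map_pow, act_transvection, if_pos rfl,
    coeff_monomial_mul, one_mul, add_pow, coeff_sum, Finset.sum_eq_single 0]
  · simp only [pow_zero, one_mul, Nat.sub_zero, Nat.choose_zero_right, Nat.cast_one, mul_one]
    rw [smul_pow, coeff_smul, X_pow_eq_monomial, coeff_monomial, if_pos rfl, smul_eq_mul, mul_one]
  · intro k hk hk0
    rw [smul_pow, X_pow_eq_monomial, X_pow_eq_monomial, mul_smul_comm, monomial_mul,
      smul_mul_assoc, coeff_smul, mul_one, ← C_eq_coe_nat, mul_comm, coeff_C_mul, coeff_monomial,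
      if_neg, mul_zero, smul_zero]
    intro he
    have := DFunLike.congr_fun he z
    rw [Finsupp.add_apply, Finsupp.single_eq_same, Finsupp.single_eq_of_ne hxz.symm,
      Finsupp.single_eq_of_ne hxz.symm] at this
    omega
  · intro h
    exact absurd (Finset.mem_range.2 (Nat.succ_pos a)) h

end Pool.Agent.H874.CS
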