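import Pool.Agent.H874.CS.Gen

/-!
# Counting leading exponents
-/

open MvPolynomial

namespace Pool.Agent.H874.CS

variable {σ ι K : Type*} [Field K]

theorem finite_restrict_of_finite {T : Set (σ →₀ ℕ)} (hT : T.Finite) :
    Module.Finite K (restrictSupport K T) := by
  have : Finite T := hT.to_subtype
  exact Module.Finite.of_basis (basisRestrictSupport K T)

theorem finrank_restrict (T : Set (σ →₀ ℕ)) :
    Module.finrank K (restrictSupport K T) = T.ncard := by
  rw [Module.finrank_eq_nat_card_basis (basisRestrictSupport K T)]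
  rfl

theorem dim_inter (m : MonomialOrder σ) (W : Submodule K (MvPolynomial σ K)) {T : Set (σ →₀ ℕ)}
    (hT : T.Finite) (hc : Compat m W T) :
    Module.finrank K (W ⊓ restrictSupport K T : Submodule K (MvPolynomial σ K)) =
      (T ∩ Lead m (W : Set (MvPolynomial σ K))).ncard := by
  have hfin := finite_restrict_of_finite (K := K) hT
  have h1 := LinearMap.finrank_range_add_finrank_ker (W.mkQ.domRestrict (restrictSupport K T))
  rw [LinearMap.range_domRestrict] at h1
  have h2 : Module.finrank K ((restrictSupport K T).map W.mkQ) = _ := macaulay m W T hc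
  rw [h2, finrank_restrict] at h1
  have h3 : Module.finrank K (LinearMap.ker (W.mkQ.domRestrict (restrictSupport K T))) =
      Module.finrank K (W ⊓ restrictSupport K T : Submodule K (MvPolynomial σ K)) := by
    rw [← Submodule.finrank_map_subtype_eq]
    have : (LinearMap.ker (W.mkQ.domRestrict (restrictSupport K T))).map
        (restrictSupport K T).subtype = W ⊓ restrictSupport K T := by
      ext f
      constructor
      · rintro ⟨x, hx, rfl⟩
        refine ⟨?_, x.2⟩
        have hx' : W.mkQ (x : MvPolynomial σ K) = 0 := hx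
        rwa [Submodule.mkQ_apply, Submodule.Quotient.mk_eq_zero] at hx'
      · rintro ⟨h1, h2⟩
        refine ⟨⟨f, h2⟩, ?_, rfl⟩
        change W.mkQ f = 0
        rwa [Submodule.mkQ_apply, Submodule.Quotient.mk_eq_zero]
    rw [this]
  have h4 := Set.ncard_inter_add_ncard_sdiff_eq_ncard T (Lead m (W : Set (MvPolynomial σ K))) hT
  omega

/-- initial segments of the set of exponents of multidegree `d` -/
def IsLow (m : MonomialOrder σ) (c : σ → ι) (d : ι →₀ ℕ) (T : Set (σ →₀ ℕ)) : Prop :=
  T ⊆ Ed c d ∧ ∀ a ∈ T, ∀ b ∈ Ed c d, m.toSyn b ≤ m.toSyn a → b ∈ T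

theorem compat_low {m : MonomialOrder σ} {c : σ → ι} {d : ι →₀ ℕ} {T : Set (σ →₀ ℕ)}
    (hT : IsLow m c d T) {J : Ideal (MvPolynomial σ K)} (hJ : IsGraded c J) :
    Compat m (J.restrictScalars K) T := by
  rintro a ha ⟨f, hf, h0, rfl⟩
  have := degree_hcomp m c h0 (hT.1 ha)
  refine ⟨hcomp c d f, hJ f hf d, this.1, this.2, ?_⟩
  rw [mem_restrictSupport_iff]
  intro b hb
  exact hT.2 _ ha b ((mem_restrictSupport_iff K).1 (hcomp_mem c d f) hb)
    (m.le_degree (support_hcomp c d f hb))

theorem isLow_Ed (m : MonomialOrder σ) (c : σ → ι) (d : ι →₀ ℕ) : IsLow m c d (Ed c d) :=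
  ⟨subset_rfl, fun _ _ _ hb _ => hb⟩

theorem finite_low [Finite σ] {m : MonomialOrder σ} {c : σ → ι} {d : ι →₀ ℕ} {T : Set (σ →₀ ℕ)}
    (hT : IsLow m c d T) : T.Finite := (finite_Ed c d).subset hT.1

theorem count_ge [Finite σ] (m : MonomialOrder σ) {c : σ → ι} {d : ι →₀ ℕ} {T : Set (σ →₀ ℕ)}
    (hT : IsLow m c d T) {J : Ideal (MvPolynomial σ K)} (hJ : IsGraded c J)
    {r : Type*} [Fintype r] [DecidableEq r] (h : r → MvPolynomial σ K) (h1 : ∀ i, h i ∈ J)
    (h2 : ∀ i, h i ∈ restrictSupport K (Ed c d)) (φ : r → (MvPolynomial σ K →ₗ[K] K))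
    (h3 : ∀ j, ∀ f ∈ restrictSupport K T, φ j f = 0)
    (h4 : (Matrix.of fun i j => φ j (h i)).det ≠ 0) :
    Fintype.card r ≤ ((Ed c d ∩ Lead m (J : Set (MvPolynomial σ K))) \ T).ncard := by
  set W := J.restrictScalars K with hW
  have hfE := finite_restrict_of_finite (K := K) (finite_Ed c d)
  have hfT := finite_restrict_of_finite (K := K) (finite_low hT)
  have e1 := dim_inter m W (finite_Ed c d) (compat_low (isLow_Ed m c d) hJ)
  have e2 := dim_inter m W (finite_low hT) (compat_low hT hJ)
  have hcomb : ∀ a : r → K, (∀ j, φ j (∑ i, a i • h i) = 0) → a = 0 := by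
    intro a ha
    apply Matrix.eq_zero_of_vecMul_eq_zero h4
    ext j
    have := ha j
    rw [map_sum] at this
    simpa [Matrix.vecMul, dotProduct] using this
  have hli : LinearIndependent K h := by
    rw [Fintype.linearIndependent_iff]
    intro a ha
    have := hcomb a (fun j => by rw [ha, map_zero])
    intro i
    rw [this]; rfl
  have hfr := finrank_span_eq_card hli
  set s := Submodule.span K (Set.range h) with hs
  set W' := W ⊓ restrictSupport K T with hW'
  set W1 := W ⊓ restrictSupport K (Ed c d) with hW1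
  have hfW1 : Module.Finite K W1 := Module.Finite.of_injective
    (Submodule.inclusion (inf_le_right : W1 ≤ restrictSupport K (Ed c d)))
    (Submodule.inclusion_injective _)
  have hfW' : Module.Finite K W' := Module.Finite.of_injective
    (Submodule.inclusion (inf_le_right : W' ≤ restrictSupport K T))
    (Submodule.inclusion_injective _)
  have hs1 : s ≤ W1 := by
    rw [hs, Submodule.span_le]
    rintro _ ⟨i, rfl⟩
    exact ⟨h1 i, h2 i⟩
  have hs2 : W' ≤ W1 := inf_le_inf_left _ (restrictSupport_mono K hT.1)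
  have hdisj : s ⊓ W' = ⊥ := by
    rw [eq_bot_iff]
    rintro x ⟨hx1, hx2⟩
    obtain ⟨a, rfl⟩ := (Submodule.mem_span_range_iff_exists_fun K).1 hx1
    have := hcomb a (fun j => h3 j _ hx2.2)
    rw [this]
    simp
  have hfs : Module.Finite K s := Module.Finite.span_of_finite K (Set.finite_range h)
  have h5 := Submodule.finrank_sup_add_finrank_inf_eq s W'
  rw [hdisj, finrank_bot, add_zero] at h5
  have h6 : Module.finrank K (s ⊔ W' : Submodule K (MvPolynomial σ K)) ≤ Module.finrank K W1 :=
    Submodule.finrank_mono (sup_le hs1 hs2)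
  have h7 : ((Ed c d ∩ Lead m (J : Set (MvPolynomial σ K))) \ T).ncard +
      (T ∩ Lead m (J : Set (MvPolynomial σ K))).ncard =
      (Ed c d ∩ Lead m (J : Set (MvPolynomial σ K))).ncard := by
    have := Set.ncard_inter_add_ncard_sdiff_eq_ncard
      (Ed c d ∩ Lead m (J : Set (MvPolynomial σ K))) T ((finite_Ed c d).inter_of_left _)
    have h8 : (Ed c d ∩ Lead m (J : Set (MvPolynomial σ K))) ∩ T =
        T ∩ Lead m (J : Set (MvPolynomial σ K)) := by
      ext a
      constructor
      · rintro ⟨⟨-, h⟩, h'⟩; exact ⟨h', h⟩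
      · rintro ⟨h, h'⟩; exact ⟨⟨hT.1 h, h'⟩, h⟩
    rw [h8] at this
    omega
  have h9 : (W : Set (MvPolynomial σ K)) = (J : Set (MvPolynomial σ K)) := rfl
  rw [h9] at e1 e2
  omega

end Pool.Agent.H874.CS
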