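import Mathlib

/-!
# Cartwright-Sturmfels ideals: the definitions used in the statements

The polynomial ring is `MvPolynomial σ K`.  A standard multigrading of it is given by a map
`c : σ → ι`: the variable `X i` has the multidegree `e_(c i)`, so that the monomial with the
exponent `a` has the multidegree `a.mapDomain c : ι →₀ ℕ`.
-/

open MvPolynomial

namespace Pool.Agent.H874.CSDefs

variable {σ ι κ K : Type*} [Field K]

/-- `I` is homogeneous for the standard multigrading given by `c`: with an element it contains
the homogeneous components of this element. -/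
def IsMultigraded (c : σ → ι) (I : Ideal (MvPolynomial σ K)) : Prop :=
  ∀ f ∈ I, ∀ d : ι →₀ ℕ, weightedHomogeneousComponent (fun i => Finsupp.single (c i) 1) d f ∈ I

/-- the ideal generated by the leading monomials of the nonzero elements of `I` -/
noncomputable def initialIdeal (m : MonomialOrder σ) (I : Ideal (MvPolynomial σ K)) :
    Ideal (MvPolynomial σ K) :=
  Ideal.span {p | ∃ f ∈ I, f ≠ 0 ∧ p = monomial (m.degree f) 1}

/-- the action of a matrix on the polynomial ring, `X j ↦ ∑ i, g i j X i` -/
noncomputable def matAct [Fintype σ] (g : Matrix σ σ K) :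
    MvPolynomial σ K →ₐ[K] MvPolynomial σ K :=
  aeval fun j => ∑ i, g i j • X i

/-- the group `G = ∏ GL(V_k)`: the invertible matrices which preserve the span `V_k` of the
variables of multidegree `e_k`, for all `k` -/
def InGroup [Fintype σ] [DecidableEq σ] (c : σ → ι) (g : Matrix σ σ K) : Prop :=
  (∀ i j, c i ≠ c j → g i j = 0) ∧ g.det ≠ 0

/-- `N` is the multigraded generic initial ideal of `I` with respect to the term order `m`: there
is a polynomial `F` in the entries of the matrices, nonzero at some element of the group `G`, such
that the initial ideal of `g I` is `N` for all the elements `g` of `G` with `F g ≠ 0`. -/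
def IsMultigin [Fintype σ] [DecidableEq σ] (c : σ → ι) (m : MonomialOrder σ)
    (I N : Ideal (MvPolynomial σ K)) : Prop :=
  ∃ F : MvPolynomial (σ × σ) K, (∃ g : Matrix σ σ K, InGroup c g ∧
    eval (fun p => g p.1 p.2) F ≠ 0) ∧ ∀ g : Matrix σ σ K, InGroup c g →
      eval (fun p => g p.1 p.2) F ≠ 0 → initialIdeal m (I.map (matAct g)) = N

/-- `I` is multigraded and its multigraded generic initial ideal with respect to the term order
`m` is radical. -/
def IsCS [Fintype σ] [DecidableEq σ] (c : σ → ι) (m : MonomialOrder σ)
    (I : Ideal (MvPolynomial σ K)) : Prop :=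
  IsMultigraded c I ∧ ∃ N, IsMultigin c m I N ∧ N.IsRadical

/-- the componentwise maximum of the multidegrees of the monomials of `f` -/
noncomputable def maxDeg (c' : σ → κ) (f : MvPolynomial σ K) : κ →₀ ℕ :=
  f.support.sup fun a => a.mapDomain c'

/-- the multihomogenization of `f`.  The variables `x_i` of the polynomial ring are now
`X (Sum.inl i)` and the new variable `y_k` of multidegree `e_k` is `X (Sum.inr k)`. -/
noncomputable def homogenization (c' : σ → κ) (f : MvPolynomial σ K) : MvPolynomial (σ ⊕ κ) K :=
  ∑ a ∈ f.support, monomial
    (a.mapDomain Sum.inl + (maxDeg c' f - a.mapDomain c').mapDomain Sum.inr) (coeff a f)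

/-- the ideal `I^hom` generated by the multihomogenizations of the nonzero elements of `I` -/
noncomputable def idealHom (c' : σ → κ) (I : Ideal (MvPolynomial σ K)) :
    Ideal (MvPolynomial (σ ⊕ κ) K) :=
  Ideal.span {p | ∃ f ∈ I, f ≠ 0 ∧ p = homogenization c' f}

/-- the ideal `I^*` generated by the elements of `I` which are homogeneous for the multigrading
given by `c'` -/
noncomputable def idealStar (c' : σ → κ) (I : Ideal (MvPolynomial σ K)) :
    Ideal (MvPolynomial σ K) :=
  Ideal.span {f | f ∈ I ∧ ∃ d : κ →₀ ℕ, ∀ a ∈ f.support, a.mapDomain c' = d}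

end Pool.Agent.H874.CSDefs
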