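import Pool.Agent.H874.CS.Gin

/-!
# Elimination of variables
-/

open MvPolynomial

namespace Pool.Agent.H874.CS

variable {σ τ ι ι' K : Type*} [Field K] [Fintype σ] [DecidableEq σ] [Fintype τ] [DecidableEq τ]

theorem degree_rename {f : τ → σ} (hf : Function.Injective f) (m : MonomialOrder σ)
    {F : MvPolynomial τ K} (hF : F ≠ 0) :
    m.degree (rename f F) = ((comapOrder f hf m).degree F).mapDomain f := by
  classical
  apply m.toSyn.injective
  apply le_antisymm
  · rw [m.degree_le_iff]
    intro b hb
    rw [support_rename_of_injective hf, Finset.mem_image] at hb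
    obtain ⟨a, ha, rfl⟩ := hb
    exact (comapOrder_le hf m _ _).1 ((comapOrder f hf m).le_degree ha)
  · apply m.le_degree
    rw [support_rename_of_injective hf]
    exact Finset.mem_image_of_mem _ ((comapOrder f hf m).degree_mem_support hF)

/-- the bijection of the variables used to extend matrices -/
noncomputable def extE (f : τ → σ) (hf : Function.Injective f) :
    τ ⊕ {x : σ // x ∉ Set.range f} ≃ σ :=
  Equiv.ofBijective (Sum.elim f Subtype.val) (by
    constructor
    · rintro (i | i) (j | j) h
      · exact congrArg Sum.inl (hf h)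
      · exact absurd ⟨i, h⟩ j.2
      · exact absurd ⟨j, h.symm⟩ i.2
      · exact congrArg Sum.inr (Subtype.ext h)
    · intro x
      by_cases h : x ∈ Set.range f
      · obtain ⟨i, rfl⟩ := h
        exact ⟨Sum.inl i, rfl⟩
      · exact ⟨Sum.inr ⟨x, h⟩, rfl⟩)

theorem extE_inl (f : τ → σ) (hf : Function.Injective f) (i : τ) :
    extE f hf (Sum.inl i) = f i := rfl

open Classical in
/-- extension of a matrix by the identity -/
noncomputable def extM (f : τ → σ) (hf : Function.Injective f) (g : Matrix τ τ K) :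
    Matrix σ σ K :=
  Matrix.reindex (extE f hf) (extE f hf) (Matrix.fromBlocks g 0 0 1)

theorem extM_apply (f : τ → σ) (hf : Function.Injective f) (g : Matrix τ τ K) (i j) :
    extM f hf g (extE f hf i) (extE f hf j) =
      (Matrix.fromBlocks g 0 0 1 : Matrix (τ ⊕ {x : σ // x ∉ Set.range f}) _ K) i j := by
  classical
  rw [extM, Matrix.reindex_apply, Matrix.submatrix_apply, Equiv.symm_apply_apply,
    Equiv.symm_apply_apply]

theorem extM_det (f : τ → σ) (hf : Function.Injective f) (g : Matrix τ τ K) :
    (extM f hf g).det = g.det := by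
  classical
  rw [extM, Matrix.det_reindex_self]
  rw [Matrix.det_fromBlocks_zero₂₁, Matrix.det_one, mul_one]

theorem extM_inG {f : τ → σ} (hf : Function.Injective f) {c : σ → ι} {c' : τ → ι'} {φ : ι' → ι}
    (hc : ∀ i, c (f i) = φ (c' i)) {g : Matrix τ τ K}
    (hg : InG c' g) : InG c (extM f hf g) := by
  refine ⟨fun a b hab => ?_, by rw [extM_det]; exact hg.2⟩
  obtain ⟨a, rfl⟩ := (extE f hf).surjective a
  obtain ⟨b, rfl⟩ := (extE f hf).surjective b
  rw [extM_apply]
  rcases a with a | a <;> rcases b with b | b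
  · rw [extE_inl, extE_inl, hc, hc] at hab
    exact hg.1 a b fun h => hab (congrArg φ h)
  · rfl
  · rfl
  · rw [Matrix.fromBlocks_apply₂₂, Matrix.one_apply_ne]
    rintro rfl
    exact hab rfl

theorem act_extM {f : τ → σ} (hf : Function.Injective f) (g : Matrix τ τ K)
    (F : MvPolynomial τ K) : act (extM f hf g) (rename f F) = rename f (act g F) := by
  have h : (act (extM f hf g)).comp (rename f) = (rename f).comp (act g) := by
    apply MvPolynomial.algHom_ext
    intro j
    rw [AlgHom.comp_apply, AlgHom.comp_apply, rename_X, act_X, act_X, map_sum]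
    rw [← (extE f hf).sum_comp, Fintype.sum_sum_type]
    have h1 : ∀ i, extM f hf g (extE f hf (Sum.inl i)) (f j) = g i j := by
      intro i
      rw [← extE_inl f hf j, extM_apply]
      rfl
    have h2 : ∀ i, extM f hf g (extE f hf (Sum.inr i)) (f j) = 0 := by
      intro i
      rw [← extE_inl f hf j, extM_apply]
      rfl
    simp only [h1, h2, zero_smul, Finset.sum_const_zero, add_zero]
    refine Finset.sum_congr rfl fun i _ => ?_
    rw [extE_inl, map_smul, rename_X]
  exact DFunLike.congr_fun h F

theorem comap_extM {f : τ → σ} (hf : Function.Injective f) {g : Matrix τ τ K}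
    (hg : g.det ≠ 0) (I : Ideal (MvPolynomial σ K)) (F : MvPolynomial τ K) :
    rename f F ∈ I.map (act (extM f hf g)) ↔ F ∈ (I.comap (rename f)).map (act g) := by
  have hg' : (extM f hf g).det ≠ 0 := by rwa [extM_det]
  have h1 : F = act g (act g⁻¹ F) := (act_act_inv hg F).symm
  have h2 : rename f F = act (extM f hf g) (rename f (act g⁻¹ F)) := by
    rw [act_extM, ← h1]
  rw [h2, act_mem_map hg']
  conv_rhs => rw [h1, act_mem_map hg]
  rfl

theorem hcomp_rename {f : τ → σ} (hf : Function.Injective f) {c : σ → ι} {c' : τ → ι'}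
    {φ : ι' → ι} (hφ : Function.Injective φ) (hc : ∀ i, c (f i) = φ (c' i)) (d : ι' →₀ ℕ)
    (F : MvPolynomial τ K) :
    rename f (hcomp c' d F) = hcomp c (d.mapDomain φ) (rename f F) := by
  classical
  ext u
  rw [coeff_hcomp]
  by_cases hu : ∃ a : τ →₀ ℕ, a.mapDomain f = u
  · obtain ⟨a, rfl⟩ := hu
    rw [coeff_rename_mapDomain _ hf, coeff_rename_mapDomain _ hf, coeff_hcomp]
    have h1 : (a.mapDomain f).mapDomain c = (a.mapDomain c').mapDomain φ := by
      rw [← Finsupp.mapDomain_comp, ← Finsupp.mapDomain_comp]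
      congr 1
      funext i
      exact hc i
    rw [h1]
    by_cases h2 : a.mapDomain c' = d
    · rw [if_pos h2, if_pos (by rw [h2])]
    · rw [if_neg h2, if_neg fun h => h2 (Finsupp.mapDomain_injective hφ h)]
  · rw [coeff_rename_eq_zero, coeff_rename_eq_zero, ite_self]
    · intro a ha; exact absurd ⟨a, ha⟩ hu
    · intro a ha; exact absurd ⟨a, ha⟩ hu

theorem graded_comap {f : τ → σ} (hf : Function.Injective f) {c : σ → ι} {c' : τ → ι'}
    {φ : ι' → ι} (hφ : Function.Injective φ) (hc : ∀ i, c (f i) = φ (c' i))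
    {I : Ideal (MvPolynomial σ K)} (hI : IsGraded c I) : IsGraded c' (I.comap (rename f)) := by
  intro F hF d
  rw [Ideal.mem_comap, hcomp_rename hf hφ hc]
  exact hI _ hF _

variable [Fintype ι'] [DecidableEq ι']

/-- elimination preserves the Cartwright-Sturmfels property -/
theorem comap_rad [Infinite K] {f : τ → σ} (hf : Function.Injective f) {c : σ → ι} {c' : τ → ι'}
    {φ : ι' → ι} (hφ : Function.Injective φ) (hc : ∀ i, c (f i) = φ (c' i))
    {I : Ideal (MvPolynomial σ K)} (hI : IsGraded c I) (hR : Rad c I) :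
    Rad c' (I.comap (rename f)) := by
  classical
  obtain ⟨m₀, -⟩ := exists_order (Fintype.equivFin σ · : σ → ℕ)
    (fun a b h => (Fintype.equivFin σ).injective (Fin.ext h))
  set w : (σ →₀ ℕ) →+ ℕ := Finsupp.weight (fun i => if i ∈ Set.range f then 0 else 1) with hw
  set m := wOrder w m₀ with hm
  set m' := comapOrder f hf m with hm'
  have hw0 : ∀ u : σ →₀ ℕ, w u = 0 → ∃ a : τ →₀ ℕ, a.mapDomain f = u := by
    intro u hu
    refine ⟨u.comapDomain f hf.injOn, ?_⟩
    apply Finsupp.mapDomain_comapDomain f hf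
    intro i hi
    by_contra hcon
    have h1 : u i * (if i ∈ Set.range f then 0 else 1) ≤ w u := by
      rw [hw, Finsupp.weight_apply, Finsupp.sum]
      exact Finset.single_le_sum (f := fun i => u i • (if i ∈ Set.range f then 0 else 1))
        (fun _ _ => Nat.zero_le _) hi
    rw [if_neg hcon, hu] at h1
    have := Finsupp.mem_support_iff.1 hi
    omega
  have hw1 : ∀ a : τ →₀ ℕ, w (a.mapDomain f) = 0 := by
    intro a
    rw [hw, Finsupp.weight_apply, Finsupp.sum_mapDomain_index (by simp)
      (by intro b m n; split_ifs <;> simp)]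
    apply Finset.sum_eq_zero
    intro i _
    simp
  obtain ⟨N, hN, wN, hhf, hgen⟩ := gin_exists m' c' (graded_comap hf hφ hc hI)
  obtain ⟨g, hg, hL⟩ := hgen.exists
  have hgE := extM_inG hf hc hg
  have hrad := hR.lead (graded_map hgE hI) (fun d => hf_map hgE d) m
  have hNeq : ∀ a, a ∈ N ↔ a.mapDomain f ∈ Lead m ((I.map (act (extM f hf g)) :
      Ideal (MvPolynomial σ K)) : Set (MvPolynomial σ K)) := by
    intro a
    rw [← hL]
    constructor
    · rintro ⟨F, hF, h0, rfl⟩
      refine ⟨rename f F, (comap_extM hf hg.2 I F).2 hF, ?_, degree_rename hf m h0⟩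
      exact fun h => h0 (rename_injective f hf (h.trans (map_zero _).symm))
    · rintro ⟨H, hH, h0, hHa⟩
      have hsupp : ∀ u ∈ H.support, ∃ b : τ →₀ ℕ, b.mapDomain f = u := by
        intro u hu
        apply hw0
        have h1 := wOrder_le (m.le_degree hu)
        rw [hHa, hw1] at h1
        omega
      have hex : ∃ F : MvPolynomial τ K, rename f F = H := by
        choose! b hb using hsupp
        refine ⟨∑ u ∈ H.support, monomial (b u) (coeff u H), ?_⟩
        rw [map_sum]
        conv_rhs => rw [H.as_sum]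
        refine Finset.sum_congr rfl fun u hu => ?_
        rw [rename_monomial, hb u hu]
      obtain ⟨F, rfl⟩ := hex
      have hF0 : F ≠ 0 := by
        rintro rfl
        exact h0 (map_zero _)
      refine ⟨F, (comap_extM hf hg.2 I F).1 hH, hF0, ?_⟩
      rw [degree_rename hf m hF0] at hHa
      exact Finsupp.mapDomain_injective hf hHa
  have rN : RadSet N := by
    intro a n ha
    rw [hNeq] at ha ⊢
    apply hrad _ n
    rwa [← Finsupp.mapDomain_smul]
  obtain ⟨ρ, hρ, hρ'⟩ := exists_rank m'
  intro J hJ hd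
  refine rad_of_comb c' ρ hρ hN (fun x z hc hlt => wN x z hc ((hρ' x z).2 hlt)) rN hJ ?_
  intro d
  rw [hd, hhf]

end Pool.Agent.H874.CS
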