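import Pool.Agent.H874.CS.Hom
import Pool.Agent.H874.CS.Defs

/-!
# The two closure properties of Cartwright-Sturmfels ideals
-/

open MvPolynomial

namespace Pool.Agent.H874.CS

open CSDefs

variable {σ ι κ K : Type*} [Field K]

theorem isMultigraded_iff {c : σ → ι} {I : Ideal (MvPolynomial σ K)} :
    IsMultigraded c I ↔ IsGraded c I := Iff.rfl

theorem isMultigin_iff [Fintype σ] [DecidableEq σ] {c : σ → ι} {m : MonomialOrder σ}
    {I N : Ideal (MvPolynomial σ K)} : IsMultigin c m I N ↔ IsGin c m I N := Iff.rfl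

theorem idealHom_eq (c' : σ → κ) (I : Ideal (MvPolynomial σ K)) :
    idealHom c' I = homIdeal c' I := rfl

theorem idealStar_eq (c' : σ → κ) (I : Ideal (MvPolynomial σ K)) :
    idealStar c' I = starIdeal c' I := rfl

variable [Infinite K] [Fintype σ] [DecidableEq σ] [Fintype ι] [DecidableEq ι] [Fintype κ]
  [DecidableEq κ]

theorem exists_j {c : σ → ι} {c' : σ → κ} (hfine : ∀ i j, c' i = c' j → c i = c j) :
    ∃ j : κ → Option ι, ∀ i, j (c' i) = some (c i) := by
  classical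
  refine ⟨fun k => if h : ∃ i, c' i = k then some (c h.choose) else none, fun i => ?_⟩
  have h : ∃ i', c' i' = c' i := ⟨i, rfl⟩
  beta_reduce
  rw [dif_pos h, hfine _ _ h.choose_spec]

theorem final_hom {c : σ → ι} {c' : σ → κ} (hfine : ∀ i j, c' i = c' j → c i = c j)
    {I : Ideal (MvPolynomial σ K)} {m₀ : MonomialOrder σ} (hI : IsCS c m₀ I)
    (m : MonomialOrder (σ ⊕ κ)) : IsCS (Sum.elim c' id) m (idealHom c' I) := by
  obtain ⟨hg, N₀, hN₀, hr⟩ := hI
  have hR := rad_of_gin (isMultigraded_iff.1 hg) (isMultigin_iff.1 hN₀) hr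
  obtain ⟨j, hj⟩ := exists_j hfine
  obtain ⟨h1, h2⟩ := hom_rad hj (isMultigraded_iff.1 hg) hR
  obtain ⟨N, hN, hr'⟩ := gin_of_rad h1 h2 m
  exact ⟨h1, N, hN, hr'⟩

theorem final_star {c : σ → ι} {c' : σ → κ} (hfine : ∀ i j, c' i = c' j → c i = c j)
    {I : Ideal (MvPolynomial σ K)} {m₀ : MonomialOrder σ} (hI : IsCS c m₀ I)
    (m : MonomialOrder σ) : IsCS c' m (idealStar c' I) := by
  obtain ⟨hg, N₀, hN₀, hr⟩ := hI
  have hR := rad_of_gin (isMultigraded_iff.1 hg) (isMultigin_iff.1 hN₀) hr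
  obtain ⟨j, hj⟩ := exists_j hfine
  obtain ⟨h1, h2⟩ := hom_rad hj (isMultigraded_iff.1 hg) hR
  have hinl : Function.Injective (Sum.inl : σ → σ ⊕ κ) := Sum.inl_injective
  have hid : Function.Injective (id : κ → κ) := Function.injective_id
  have hc : ∀ i, (Sum.elim c' id : σ ⊕ κ → κ) (Sum.inl i) = id (c' i) := fun _ => rfl
  have h3 := graded_comap hinl hid hc h1
  have h4 := comap_rad hinl hid hc h1 h2
  rw [← star_eq hfine (isMultigraded_iff.1 hg) hj] at h3 h4
  obtain ⟨N, hN, hr'⟩ := gin_of_rad h3 h4 m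
  exact ⟨h3, N, hN, hr'⟩

end Pool.Agent.H874.CS
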