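import Pool.Agent.H874.CS.Act

/-!
# Properties which hold on a nonempty Zariski open subset of the group
-/

open MvPolynomial

namespace Pool.Agent.H874.CS

variable {σ ι K : Type*} [Field K] [Fintype σ] [DecidableEq σ]

/-- `P` holds on a nonempty principal Zariski open subset of the group `∏ GL(V_k)` -/
def Gen (c : σ → ι) (P : Matrix σ σ K → Prop) : Prop :=
  ∃ F : MvPolynomial (σ × σ) K, (∃ g, InG c g ∧ eval (fun p => g p.1 p.2) F ≠ 0) ∧
    ∀ g, InG c g → eval (fun p => g p.1 p.2) F ≠ 0 → P g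

theorem line_poly (F : MvPolynomial (σ × σ) K) (g h : Matrix σ σ K) :
    ∃ p : Polynomial K, ∀ t : K,
      p.eval t = eval (fun q => (g + t • (h - g)) q.1 q.2) F := by
  refine ⟨aeval (fun q : σ × σ => Polynomial.C (g q.1 q.2) +
    Polynomial.X * Polynomial.C (h q.1 q.2 - g q.1 q.2)) F, fun t => ?_⟩
  induction F using MvPolynomial.induction_on with
  | C a => simp
  | add p q hp hq => rw [map_add, Polynomial.eval_add, hp, hq, map_add]
  | mul_X p i hp =>
    rw [map_mul, Polynomial.eval_mul, hp, map_mul, aeval_X, eval_X]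
    simp

theorem exists_both [Infinite K] {c : σ → ι} {F₁ F₂ : MvPolynomial (σ × σ) K} {g₁ g₂ : Matrix σ σ K}
    (h₁ : InG c g₁) (h₂ : InG c g₂) (e₁ : eval (fun p => g₁ p.1 p.2) F₁ ≠ 0)
    (e₂ : eval (fun p => g₂ p.1 p.2) F₂ ≠ 0) :
    ∃ g, InG c g ∧ eval (fun p => g p.1 p.2) (F₁ * F₂) ≠ 0 := by
  obtain ⟨p₁, hp₁⟩ := line_poly F₁ g₁ g₂
  obtain ⟨p₂, hp₂⟩ := line_poly F₂ g₁ g₂
  obtain ⟨p₃, hp₃⟩ := line_poly (Matrix.mvPolynomialX σ σ K).det g₁ g₂
  have n₁ : p₁ ≠ 0 := by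
    rintro rfl
    apply e₁
    have := hp₁ 0
    rw [Polynomial.eval_zero, zero_smul, add_zero] at this
    exact this.symm
  have n₂ : p₂ ≠ 0 := by
    rintro rfl
    apply e₂
    have := hp₂ 1
    rw [Polynomial.eval_zero, one_smul, add_sub_cancel] at this
    exact this.symm
  have hdet : ∀ g : Matrix σ σ K, eval (fun p => g p.1 p.2) (Matrix.mvPolynomialX σ σ K).det =
      g.det := by
    intro g
    rw [RingHom.map_det, Matrix.mvPolynomialX_mapMatrix_eval]
  have n₃ : p₃ ≠ 0 := by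
    rintro rfl
    have := hp₃ 0
    rw [Polynomial.eval_zero, zero_smul, add_zero, hdet] at this
    exact h₁.2 this.symm
  have hne : p₁ * p₂ * p₃ ≠ 0 := mul_ne_zero (mul_ne_zero n₁ n₂) n₃
  obtain ⟨t, ht⟩ : ∃ t, (p₁ * p₂ * p₃).eval t ≠ 0 := by
    by_contra hcon
    push Not at hcon
    exact hne (Polynomial.funext fun t => by rw [hcon t, Polynomial.eval_zero])
  rw [Polynomial.eval_mul, Polynomial.eval_mul, hp₁, hp₂, hp₃, hdet] at ht
  refine ⟨g₁ + t • (g₂ - g₁), ⟨fun i j hij => ?_, right_ne_zero_of_mul ht⟩, ?_⟩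
  · simp [h₁.1 i j hij, h₂.1 i j hij]
  · rw [map_mul]
    exact left_ne_zero_of_mul ht

theorem Gen.mono {c : σ → ι} {P Q : Matrix σ σ K → Prop} (hP : Gen c P)
    (h : ∀ g, InG c g → P g → Q g) : Gen c Q := by
  obtain ⟨F, hF, h1⟩ := hP
  exact ⟨F, hF, fun g hg hne => h g hg (h1 g hg hne)⟩

theorem Gen.and [Infinite K] {c : σ → ι} {P Q : Matrix σ σ K → Prop} (hP : Gen c P)
    (hQ : Gen c Q) : Gen c (fun g => P g ∧ Q g) := by
  obtain ⟨F₁, ⟨g₁, h₁, e₁⟩, k₁⟩ := hP
  obtain ⟨F₂, ⟨g₂, h₂, e₂⟩, k₂⟩ := hQ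
  refine ⟨F₁ * F₂, exists_both h₁ h₂ e₁ e₂, fun g hg hne => ?_⟩
  rw [map_mul] at hne
  exact ⟨k₁ g hg (left_ne_zero_of_mul hne), k₂ g hg (right_ne_zero_of_mul hne)⟩

theorem Gen.of_forall {c : σ → ι} {P : Matrix σ σ K → Prop} (h : ∀ g, InG c g → P g) :
    Gen c P :=
  ⟨1, ⟨1, inG_one c, by simp⟩, fun g hg _ => h g hg⟩

theorem Gen.exists {c : σ → ι} {P : Matrix σ σ K → Prop} (h : Gen c P) :
    ∃ g, InG c g ∧ P g := by
  obtain ⟨F, ⟨g, hg, e⟩, k⟩ := h
  exact ⟨g, hg, k g hg e⟩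

theorem Gen.finset [Infinite K] {α : Type*} {c : σ → ι} {P : α → Matrix σ σ K → Prop}
    (s : Finset α) (h : ∀ i ∈ s, Gen c (P i)) : Gen c (fun g => ∀ i ∈ s, P i g) := by
  classical
  induction s using Finset.induction_on with
  | empty => exact Gen.of_forall fun g _ i hi => absurd hi (Finset.notMem_empty i)
  | insert a s ha ih =>
    have h1 := (h a (Finset.mem_insert_self a s)).and
      (ih fun i hi => h i (Finset.mem_insert_of_mem hi))
    refine h1.mono fun g _ hg i hi => ?_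
    rcases Finset.mem_insert.1 hi with rfl | h'
    · exact hg.1
    · exact hg.2 i h'

/-- a linear functional of `g f` is a polynomial in the entries of `g` -/
theorem polyrep (f : MvPolynomial σ K) : ∀ φ : MvPolynomial σ K →ₗ[K] K,
    ∃ F : MvPolynomial (σ × σ) K, ∀ g : Matrix σ σ K,
      eval (fun p => g p.1 p.2) F = φ (act g f) := by
  induction f using MvPolynomial.induction_on with
  | C a =>
    intro φ
    refine ⟨C (φ (C a)), fun g => ?_⟩
    have : act g (C a) = C a := (act g).commutes a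
    rw [eval_C, this]
  | add p q hp hq =>
    intro φ
    obtain ⟨F, hF⟩ := hp φ
    obtain ⟨G, hG⟩ := hq φ
    exact ⟨F + G, fun g => by rw [map_add, hF, hG, map_add, map_add]⟩
  | mul_X p j hp =>
    intro φ
    choose F hF using fun i : σ => hp (φ ∘ₗ (LinearMap.mulRight K (X i)))
    refine ⟨∑ i, X (i, j) * F i, fun g => ?_⟩
    rw [map_sum, map_mul, act_X, Finset.mul_sum, map_sum]
    refine Finset.sum_congr rfl fun i _ => ?_
    rw [map_mul, eval_X, hF, mul_smul_comm, map_smul]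
    rfl

theorem gen_det (c : σ → ι) {r : Type*} [Fintype r] [DecidableEq r] (f : r → MvPolynomial σ K)
    (φ : r → (MvPolynomial σ K →ₗ[K] K)) {g₀ : Matrix σ σ K} (hg₀ : InG c g₀)
    (h : (Matrix.of fun i j => φ j (act g₀ (f i))).det ≠ 0) :
    Gen c (fun g => (Matrix.of fun i j => φ j (act g (f i))).det ≠ 0) := by
  choose F hF using fun i j => polyrep (f i) (φ j)
  have key : ∀ g : Matrix σ σ K, eval (fun p => g p.1 p.2) (Matrix.of F).det =
      (Matrix.of fun i j => φ j (act g (f i))).det := by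
    intro g
    rw [RingHom.map_det]
    congr 1
    ext i j
    simp [hF]
  refine ⟨(Matrix.of F).det, ⟨g₀, hg₀, ?_⟩, fun g _ hne => ?_⟩
  · rwa [key]
  · rw [key] at hne
    exact hne

end Pool.Agent.H874.CS
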