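import Pool.Agent.H874.CS.Semi

/-!
# The generic sets of leading exponents
-/

open MvPolynomial

namespace Pool.Agent.H874.CS

variable {σ ι K : Type*} [Field K] [Fintype σ] [DecidableEq σ]

theorem low_lt (m : MonomialOrder σ) (c : σ → ι) (d : ι →₀ ℕ) (a : σ →₀ ℕ) :
    IsLow m c d {b | b ∈ Ed c d ∧ m.toSyn b < m.toSyn a} :=
  ⟨fun _ h => h.1, fun _ h1 b hb hle => ⟨hb, lt_of_le_of_lt hle h1.2⟩⟩

theorem low_le (m : MonomialOrder σ) (c : σ → ι) (d : ι →₀ ℕ) (a : σ →₀ ℕ) :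
    IsLow m c d {b | b ∈ Ed c d ∧ m.toSyn b ≤ m.toSyn a} :=
  ⟨fun _ h => h.1, fun _ h1 b hb hle => ⟨hb, hle.trans h1.2⟩⟩

theorem low_ext (m : MonomialOrder σ) (c : σ → ι) (d : ι →₀ ℕ) {A B : Set (σ →₀ ℕ)}
    (hA : A ⊆ Ed c d) (hB : B ⊆ Ed c d)
    (h : ∀ T, IsLow m c d T → (A \ T).ncard = (B \ T).ncard) : A = B := by
  by_contra hne
  have hfin : (symmDiff A B).Finite := by
    refine (finite_Ed c d).subset ?_
    rintro x (⟨h1, -⟩ | ⟨h1, -⟩)
    exacts [hA h1, hB h1]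
  have hnon : (symmDiff A B).Nonempty := by
    rw [Set.nonempty_iff_ne_empty]
    intro he
    exact hne (symmDiff_eq_bot.1 he)
  obtain ⟨a, ha, hmax⟩ := hfin.exists_maximalFor (fun x => m.toSyn x) _ hnon
  have key : ∀ A B : Set (σ →₀ ℕ), A ⊆ Ed c d → B ⊆ Ed c d → a ∈ A → a ∉ B →
      (∀ b, m.toSyn a < m.toSyn b → (b ∈ A ↔ b ∈ B)) →
      (A \ {b | b ∈ Ed c d ∧ m.toSyn b < m.toSyn a}).ncard =
      (B \ {b | b ∈ Ed c d ∧ m.toSyn b < m.toSyn a}).ncard + 1 := by
    intro A B hA hB haA haB hab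
    have h1 : A \ {b | b ∈ Ed c d ∧ m.toSyn b < m.toSyn a} =
        insert a (B \ {b | b ∈ Ed c d ∧ m.toSyn b < m.toSyn a}) := by
      ext b
      simp only [Set.mem_sdiff, Set.mem_setOf_eq, Set.mem_insert_iff, not_and, not_lt]
      constructor
      · rintro ⟨h1, h2⟩
        by_cases hba : b = a
        · exact Or.inl hba
        · right
          have h3 := lt_of_le_of_ne (h2 (hA h1)) (fun h => hba (m.toSyn.injective h).symm)
          exact ⟨(hab b h3).1 h1, h2⟩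
      · rintro (rfl | ⟨h1, h2⟩)
        · exact ⟨haA, fun _ => le_rfl⟩
        · have hba : b ≠ a := by rintro rfl; exact haB h1
          have h3 := lt_of_le_of_ne (h2 (hB h1)) (fun h => hba (m.toSyn.injective h).symm)
          exact ⟨(hab b h3).2 h1, h2⟩
    rw [h1, Set.ncard_insert_of_notMem (fun h => haB h.1)
      (((finite_Ed c d).subset hB).subset Set.sdiff_subset)]
  have hcomp : ∀ b, m.toSyn a < m.toSyn b → (b ∈ A ↔ b ∈ B) := by
    intro b hb
    by_contra hcon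
    have hmem : b ∈ symmDiff A B := by
      rw [Set.mem_symmDiff]
      tauto
    exact absurd (hmax hmem hb.le) (not_le.2 hb)
  have hT := h _ (low_lt m c d a)
  rcases (Set.mem_symmDiff).1 ha with ⟨h1, h2⟩ | ⟨h1, h2⟩
  · have := key A B hA hB h1 h2 hcomp
    omega
  · have := key B A hB hA h1 h2 fun b hb => (hcomp b hb).symm
    omega

theorem exists_max (m : MonomialOrder σ) (c : σ → ι) (d : ι →₀ ℕ) (T : Set (σ →₀ ℕ))
    (I : Ideal (MvPolynomial σ K)) :
    ∃ g, InG c g ∧ ∀ h, InG c h → cnt m c I d T h ≤ cnt m c I d T g := by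
  set S : Set ℕ := {n | ∃ g, InG c g ∧ cnt m c I d T g = n} with hS
  have hne : S.Nonempty := ⟨_, 1, inG_one c, rfl⟩
  have hbdd : BddAbove S := by
    refine ⟨(Ed c d).ncard, ?_⟩
    rintro _ ⟨g, -, rfl⟩
    exact Set.ncard_le_ncard (Set.sdiff_subset.trans Set.inter_subset_left) (finite_Ed c d)
  obtain ⟨g, hg, hg'⟩ := Nat.sSup_mem hne hbdd
  refine ⟨g, hg, fun h hh => ?_⟩
  rw [hg']
  exact le_csSup hbdd ⟨h, hh, rfl⟩

theorem generic_deg [Infinite K] (m : MonomialOrder σ) (c : σ → ι) {I : Ideal (MvPolynomial σ K)}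
    (hI : IsGraded c I) (d : ι →₀ ℕ) :
    ∃ M ⊆ Ed c d, Gen c (fun g => Ed c d ∩ Lead m ((I.map (act g) :
      Ideal (MvPolynomial σ K)) : Set (MvPolynomial σ K)) = M) ∧
      ∀ T, IsLow m c d T → ∀ g, InG c g → cnt m c I d T g ≤ (M \ T).ncard := by
  classical
  have hfin : {T | IsLow m c d T}.Finite := by
    refine ((finite_Ed c d).finite_subsets).subset ?_
    intro T hT
    exact hT.1
  choose gm hgm hmax using fun T => exists_max m c d T I
  have hgen : Gen c (fun g => ∀ T ∈ hfin.toFinset, cnt m c I d T (gm T) ≤ cnt m c I d T g) := by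
    apply Gen.finset
    intro T hT
    rw [Set.Finite.mem_toFinset] at hT
    exact gen_count m hT hI (hgm T)
  obtain ⟨g₀, hg₀, h₀⟩ := hgen.exists
  refine ⟨Ed c d ∩ Lead m ((I.map (act g₀) : Ideal (MvPolynomial σ K)) : Set (MvPolynomial σ K)),
    Set.inter_subset_left, hgen.mono fun g hg hg' => ?_, fun T hT g hg => ?_⟩
  · apply low_ext m c d Set.inter_subset_left Set.inter_subset_left
    intro T hT
    have hT' : T ∈ hfin.toFinset := by rwa [Set.Finite.mem_toFinset]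
    have h1 := hmax T g hg
    have h2 := hmax T g₀ hg₀
    have h3 := hg' T hT'
    have h4 := h₀ T hT'
    change cnt m c I d T g = cnt m c I d T g₀
    omega
  · have hT' : T ∈ hfin.toFinset := by rwa [Set.Finite.mem_toFinset]
    exact (hmax T g hg).trans (h₀ T hT')

theorem dickson {N : Set (σ →₀ ℕ)} : ∃ B : Finset (σ →₀ ℕ), (B : Set (σ →₀ ℕ)) ⊆ N ∧
    ∀ a ∈ N, ∃ b ∈ B, b ≤ a := by
  have hfin : {a | Minimal (· ∈ N) a}.Finite :=
    WellQuasiOrderedLE.finite_of_isAntichain (setOf_minimal_antichain _)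
  refine ⟨hfin.toFinset, ?_, ?_⟩
  · intro a ha
    rw [Set.Finite.coe_toFinset] at ha
    exact ha.1
  · intro a ha
    obtain ⟨b, hb, hb'⟩ := exists_minimal_le_of_wellFoundedLT (· ∈ N) a ha
    exact ⟨b, by rwa [Set.Finite.mem_toFinset], hb⟩

end Pool.Agent.H874.CS
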