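import Mathlib

/-!
# Constructions of monomial orders
-/

namespace Pool.Agent.H874.CS

universe u v

variable {σ : Type u} {τ : Type v}

/-- the monomial order given by an injective additive map to an ordered monoid -/
noncomputable def ofInj {X : Type*} [AddCommMonoid X] [LinearOrder X] [IsOrderedCancelAddMonoid X]
    [WellFoundedLT X] (f : (σ →₀ ℕ) →+ X) (hf : Function.Injective f) (hm : Monotone f) :
    MonomialOrder σ where
  syn := AddMonoidHom.mrange f
  toSyn :=
    { toEquiv := Equiv.ofBijective (fun a => (⟨f a, a, rfl⟩ : AddMonoidHom.mrange f))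
        ⟨fun a b h => hf (congrArg Subtype.val h), fun ⟨_, a, h⟩ => ⟨a, Subtype.ext h⟩⟩
      map_add' := by
        intro a b
        apply Subtype.ext
        change f (a + b) = f a + f b
        exact map_add f a b }
  toSyn_monotone := fun _ _ h => hm h

theorem ofInj_lt {X : Type*} [AddCommMonoid X] [LinearOrder X] [IsOrderedCancelAddMonoid X]
    [WellFoundedLT X] (f : (σ →₀ ℕ) →+ X) (hf : Function.Injective f) (hm : Monotone f)
    (a b : σ →₀ ℕ) : (ofInj f hf hm).toSyn a < (ofInj f hf hm).toSyn b ↔ f a < f b := Iff.rfl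

theorem ofInj_le {X : Type*} [AddCommMonoid X] [LinearOrder X] [IsOrderedCancelAddMonoid X]
    [WellFoundedLT X] (f : (σ →₀ ℕ) →+ X) (hf : Function.Injective f) (hm : Monotone f)
    (a b : σ →₀ ℕ) : (ofInj f hf hm).toSyn a ≤ (ofInj f hf hm).toSyn b ↔ f a ≤ f b := Iff.rfl

/-- refine a weight by a monomial order -/
noncomputable def wMap (w : (σ →₀ ℕ) →+ ℕ) (m : MonomialOrder σ) :
    (σ →₀ ℕ) →+ (ℕ ×ₗ m.syn) where
  toFun a := toLex (w a, m.toSyn a)
  map_zero' := by
    rw [map_zero, map_zero]; rfl
  map_add' a b := by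
    rw [map_add, map_add]; rfl

theorem wMap_mono (w : (σ →₀ ℕ) →+ ℕ) (m : MonomialOrder σ) : Monotone (wMap w m) := by
  intro a b h
  obtain ⟨e, rfl⟩ := exists_add_of_le h
  change toLex (w a, m.toSyn a) ≤ toLex (w (a + e), m.toSyn (a + e))
  rw [Prod.Lex.toLex_le_toLex']
  refine ⟨by simp, fun _ => m.toSyn_monotone h⟩

theorem wMap_inj (w : (σ →₀ ℕ) →+ ℕ) (m : MonomialOrder σ) : Function.Injective (wMap w m) := by
  intro a b h
  have h1 : (w a, m.toSyn a) = (w b, m.toSyn b) := toLex.injective h
  exact m.toSyn.injective (congrArg Prod.snd h1)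

/-- the monomial order which compares first the weight, and then uses `m` -/
noncomputable def wOrder (w : (σ →₀ ℕ) →+ ℕ) (m : MonomialOrder σ) : MonomialOrder σ :=
  ofInj (wMap w m) (wMap_inj w m) (wMap_mono w m)

theorem wOrder_le {w : (σ →₀ ℕ) →+ ℕ} {m : MonomialOrder σ} {a b : σ →₀ ℕ}
    (h : (wOrder w m).toSyn a ≤ (wOrder w m).toSyn b) : w a ≤ w b := by
  have h1 : toLex (w a, m.toSyn a) ≤ toLex (w b, m.toSyn b) := h
  rw [Prod.Lex.toLex_le_toLex'] at h1
  exact h1.1

/-- restriction of a monomial order along an injection of the variables -/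
noncomputable def comapOrder (f : τ → σ) (hf : Function.Injective f) (m : MonomialOrder σ) :
    MonomialOrder τ :=
  ofInj (m.toSyn.toAddMonoidHom.comp (Finsupp.mapDomain.addMonoidHom f))
    (fun _ _ h => Finsupp.mapDomain_injective hf (m.toSyn.injective h))
    (fun _ _ h => m.toSyn_monotone (Finsupp.mapDomain_mono h))

theorem comapOrder_lt {f : τ → σ} (hf : Function.Injective f) (m : MonomialOrder σ)
    (a b : τ →₀ ℕ) : (comapOrder f hf m).toSyn a < (comapOrder f hf m).toSyn b ↔
      m.toSyn (a.mapDomain f) < m.toSyn (b.mapDomain f) := Iff.rfl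

theorem comapOrder_le {f : τ → σ} (hf : Function.Injective f) (m : MonomialOrder σ)
    (a b : τ →₀ ℕ) : (comapOrder f hf m).toSyn a ≤ (comapOrder f hf m).toSyn b ↔
      m.toSyn (a.mapDomain f) ≤ m.toSyn (b.mapDomain f) := Iff.rfl

/-- every total order of the variables comes from a monomial order -/
theorem exists_order [Finite σ] (ρ : σ → ℕ) (hρ : Function.Injective ρ) :
    ∃ m : MonomialOrder.{u, u} σ, ∀ x z, m.toSyn (Finsupp.single z 1) < m.toSyn (Finsupp.single x 1) ↔
      ρ x < ρ z := by
  let _ : LinearOrder σ := LinearOrder.lift' ρ hρ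
  refine ⟨MonomialOrder.lex, fun x z => ?_⟩
  rw [MonomialOrder.lex_lt_iff, Finsupp.Lex.single_lt_iff]
  exact Iff.rfl

/-- the rank of a variable in a monomial order -/
theorem exists_rank [Finite σ] (m : MonomialOrder σ) :
    ∃ ρ : σ → ℕ, Function.Injective ρ ∧ ∀ x z,
      m.toSyn (Finsupp.single z 1) < m.toSyn (Finsupp.single x 1) ↔ ρ x < ρ z := by
  classical
  cases nonempty_fintype σ
  set f : σ → m.syn := fun x => m.toSyn (Finsupp.single x 1) with hf
  have hfi : Function.Injective f := by
    intro x y h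
    have h1 := m.toSyn.injective h
    exact Finsupp.single_left_injective one_ne_zero h1
  set ρ : σ → ℕ := fun x => (Finset.univ.filter fun y => f x < f y).card with hρ
  have key : ∀ x z, f z < f x → ρ x < ρ z := by
    intro x z h
    apply Finset.card_lt_card
    rw [Finset.ssubset_iff_of_subset]
    · exact ⟨x, by simpa using h, by simp⟩
    · intro y hy
      simp only [Finset.mem_filter, Finset.mem_univ, true_and] at hy ⊢
      exact h.trans hy
  have key2 : ∀ x z, f z < f x ↔ ρ x < ρ z := by
    intro x z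
    refine ⟨key x z, fun h => ?_⟩
    rcases lt_trichotomy (f z) (f x) with h1 | h1 | h1
    · exact h1
    · rw [hfi h1] at h; exact absurd h (lt_irrefl _)
    · exact absurd (key z x h1) (not_lt.2 h.le)
  refine ⟨ρ, ?_, key2⟩
  intro x y h
  apply hfi
  rcases lt_trichotomy (f x) (f y) with h1 | h1 | h1
  · exact absurd ((key2 y x).1 h1) (by rw [h]; exact lt_irrefl _)
  · exact h1
  · exact absurd ((key2 x y).1 h1) (by rw [h]; exact lt_irrefl _)

end Pool.Agent.H874.CS
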