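import Pool.Agent.H874.CS.Rig

/-!
# Rigidity, for all multidegrees
-/

namespace Pool.Agent.H874.CS

theorem ncard_fiber {α β : Type*} (S : Set α) (hS : S.Finite) (f : α → β) (D : Finset β)
    (hD : ∀ a ∈ S, f a ∈ D) : S.ncard = ∑ e ∈ D, {a | a ∈ S ∧ f a = e}.ncard := by
  classical
  rw [Set.ncard_eq_toFinset_card S hS,
    Finset.card_eq_sum_card_fiberwise (f := f) (t := D) (fun a ha => by
      simp only [Finset.mem_coe, Set.Finite.mem_toFinset] at ha
      exact hD a ha)]
  refine Finset.sum_congr rfl fun e _ => ?_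
  rw [Set.ncard_eq_toFinset_card _ (hS.subset fun a ha => ha.1)]
  congr 1
  ext a
  simp

variable {σ ι : Type*}

/-- the exponents of the variables of the first kind -/
noncomputable def resL {τ : Type*} (u : σ ⊕ τ →₀ ℕ) : σ →₀ ℕ :=
  u.comapDomain Sum.inl Sum.inl_injective.injOn

/-- the exponents of the variables of the second kind -/
noncomputable def resR {τ : Type*} (u : σ ⊕ τ →₀ ℕ) : τ →₀ ℕ :=
  u.comapDomain Sum.inr Sum.inr_injective.injOn

@[simp] theorem resL_apply {τ : Type*} (u : σ ⊕ τ →₀ ℕ) (i : σ) : resL u i = u (Sum.inl i) := rfl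

@[simp] theorem resR_apply {τ : Type*} (u : σ ⊕ τ →₀ ℕ) (i : τ) : resR u i = u (Sum.inr i) := rfl

theorem resL_add {τ : Type*} (u v : σ ⊕ τ →₀ ℕ) : resL (u + v) = resL u + resL v := by
  ext i; rfl

theorem resR_add {τ : Type*} (u v : σ ⊕ τ →₀ ℕ) : resR (u + v) = resR u + resR v := by
  ext i; rfl

theorem resL_single_inl {τ : Type*} (i : σ) (a : ℕ) :
    resL (Finsupp.single (Sum.inl i : σ ⊕ τ) a) = Finsupp.single i a := by
  classical
  ext j
  rw [resL_apply, Finsupp.single_apply, Finsupp.single_apply]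
  simp [Sum.inl.injEq]

theorem resL_single_inr {τ : Type*} (i : τ) (a : ℕ) :
    resL (Finsupp.single (Sum.inr i : σ ⊕ τ) a) = 0 := by
  classical
  ext j
  rw [resL_apply, Finsupp.single_apply]
  simp

theorem resR_single_inr {τ : Type*} (i : τ) (a : ℕ) :
    resR (Finsupp.single (Sum.inr i : σ ⊕ τ) a) = Finsupp.single i a := by
  classical
  ext j
  rw [resR_apply, Finsupp.single_apply, Finsupp.single_apply]
  simp [Sum.inr.injEq]

theorem resR_single_inl {τ : Type*} (i : σ) (a : ℕ) :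
    resR (Finsupp.single (Sum.inl i : σ ⊕ τ) a) = 0 := by
  classical
  ext j
  rw [resR_apply, Finsupp.single_apply]
  simp

theorem resL_mono {τ : Type*} {u v : σ ⊕ τ →₀ ℕ} (h : u ≤ v) : resL u ≤ resL v :=
  fun i => h (Sum.inl i)

theorem resR_mono {τ : Type*} {u v : σ ⊕ τ →₀ ℕ} (h : u ≤ v) : resR u ≤ resR v :=
  fun i => h (Sum.inr i)

theorem decomp_LR {τ : Type*} (u : σ ⊕ τ →₀ ℕ) :
    u = (resL u).mapDomain Sum.inl + (resR u).mapDomain Sum.inr := by
  classical
  ext i
  rw [Finsupp.add_apply]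
  rcases i with i | i
  · rw [Finsupp.mapDomain_apply Sum.inl_injective, Finsupp.mapDomain_of_notMem_range _ _ (by simp)]
    simp
  · rw [Finsupp.mapDomain_apply Sum.inr_injective, Finsupp.mapDomain_of_notMem_range _ _ (by simp)]
    simp

theorem mapDomain_LR {τ : Type*} (c : σ → ι) (c' : τ → ι) (u : σ ⊕ τ →₀ ℕ) :
    u.mapDomain (Sum.elim c c') = (resL u).mapDomain c + (resR u).mapDomain c' := by
  conv_lhs => rw [decomp_LR u]
  rw [Finsupp.mapDomain_add, ← Finsupp.mapDomain_comp, ← Finsupp.mapDomain_comp]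
  rfl

variable [Fintype σ] [DecidableEq σ] [Fintype ι] [DecidableEq ι]

theorem ext_ncard (c : σ → ι) (N : Set (σ →₀ ℕ)) (d : ι →₀ ℕ) :
    (FF (Sum.elim c id) (resL ⁻¹' N) (Finset.univ : Finset (σ ⊕ ι)) d).ncard =
      ∑ e ∈ Finset.Iic d, (Ed c e \ N).ncard := by
  classical
  rw [ncard_fiber (FF (Sum.elim c id) (resL ⁻¹' N) (Finset.univ : Finset (σ ⊕ ι)) d)
    (FF_finite _ _ _ _) (fun u => (resL u).mapDomain c) (Finset.Iic d)]
  · refine Finset.sum_congr rfl fun e he => ?_
    rw [Finset.mem_Iic] at he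
    refine Set.ncard_congr (fun u _ => resL u) ?_ ?_ ?_
    · rintro u ⟨⟨-, -, h3⟩, h4⟩
      exact ⟨h4, h3⟩
    · rintro u v ⟨⟨-, h2, -⟩, h4⟩ ⟨⟨-, h2', -⟩, h4'⟩ huv
      rw [decomp_LR u, decomp_LR v, huv]
      congr 2
      rw [mapDomain_LR, h4, Finsupp.mapDomain_id] at h2
      rw [mapDomain_LR, h4', Finsupp.mapDomain_id] at h2'
      exact add_left_cancel (h2.trans h2'.symm)
    · rintro v ⟨h1, h2⟩
      have hL : resL (v.mapDomain Sum.inl + (d - e).mapDomain Sum.inr : σ ⊕ ι →₀ ℕ) = v := by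
        ext i
        rw [resL_apply, Finsupp.add_apply, Finsupp.mapDomain_apply Sum.inl_injective,
          Finsupp.mapDomain_of_notMem_range _ _ (by simp), add_zero]
      have hR : resR (v.mapDomain Sum.inl + (d - e).mapDomain Sum.inr : σ ⊕ ι →₀ ℕ) = d - e := by
        ext i
        rw [resR_apply, Finsupp.add_apply, Finsupp.mapDomain_apply Sum.inr_injective,
          Finsupp.mapDomain_of_notMem_range _ _ (by simp), zero_add]
      refine ⟨v.mapDomain Sum.inl + (d - e).mapDomain Sum.inr, ⟨⟨?_, ?_, ?_⟩, ?_⟩, hL⟩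
      · exact fun _ _ => Finset.mem_univ _
      · rw [mapDomain_LR, hL, hR, Finsupp.mapDomain_id, mem_Ed.1 h1]
        exact add_tsub_cancel_of_le he
      · change resL _ ∉ N
        rw [hL]; exact h2
      · change (resL _).mapDomain c = e
        rw [hL]; exact h1
  · rintro u ⟨-, h2, -⟩
    rw [Finset.mem_Iic, ← h2, mapDomain_LR]
    exact le_self_add

theorem rigidity (c : σ → ι) (ρ : σ → ℕ) (hρ : Function.Injective ρ) {N M : Set (σ →₀ ℕ)}
    (hN : IsUpperSet N) (wN : WBs c (fun x z => ρ x < ρ z) N)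
    (hM : IsUpperSet M) (wM : WBs c (fun x z => ρ x < ρ z) M) (rM : RadSet M)
    (h : ∀ d, (Ed c d \ N).ncard = (Ed c d \ M).ncard) : N = M := by
  classical
  set R := ∑ i, ρ i + 1 with hR
  have hRlt : ∀ i, ρ i < R := fun i => Nat.lt_succ_of_le
    (Finset.single_le_sum (f := ρ) (fun _ _ => Nat.zero_le _) (Finset.mem_univ i))
  set ρ' : σ ⊕ ι → ℕ := Sum.elim ρ (fun j => R + (Fintype.equivFin ι j : ℕ)) with hρ'
  have hρ'inj : Function.Injective ρ' := by
    rintro (i | i) (j | j) hij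
    · exact congrArg Sum.inl (hρ hij)
    · have h1 : ρ i = R + (Fintype.equivFin ι j : ℕ) := hij
      have := hRlt i; omega
    · have h1 : R + (Fintype.equivFin ι i : ℕ) = ρ j := hij
      have := hRlt j; omega
    · have h1 : R + (Fintype.equivFin ι i : ℕ) = R + (Fintype.equivFin ι j : ℕ) := hij
      exact congrArg Sum.inr ((Fintype.equivFin ι).injective (Fin.ext (by omega)))
  have hup : ∀ {L : Set (σ →₀ ℕ)}, IsUpperSet L →
      IsUpperSet (resL ⁻¹' L : Set (σ ⊕ ι →₀ ℕ)) := by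
    intro L hL a b hab ha
    exact hL (resL_mono hab) ha
  have hwb : ∀ {L : Set (σ →₀ ℕ)}, IsUpperSet L → WBs c (fun x z => ρ x < ρ z) L →
      WBs (Sum.elim c id) (fun x z => ρ' x < ρ' z) (resL ⁻¹' L : Set (σ ⊕ ι →₀ ℕ)) := by
    intro L hL wL x z hc hlt u a hu hmem
    change resL _ ∈ L at hmem
    change resL _ ∈ L
    rcases z with z | z
    · rcases x with x | x
      · rw [resL_add, resL_single_inl] at hmem ⊢
        exact wL x z hc hlt (resL u) a hu hmem
      · have h1 : R + (Fintype.equivFin ι x : ℕ) < ρ z := hlt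
        have := hRlt z; omega
    · rw [resL_add, resL_single_inr, add_zero] at hmem
      rw [resL_add]
      exact hL le_self_add hmem
  have hrad : RadSet (resL ⁻¹' M : Set (σ ⊕ ι →₀ ℕ)) := by
    intro a n ha
    apply rM (resL a) n
    change resL (n • a) ∈ M at ha
    convert ha using 1
    ext i; rfl
  obtain ⟨d₀, hd₀⟩ := rig_aux (Sum.elim c id) ρ' hρ'inj (hup hN) (hwb hN wN) (hup hM)
    (hwb hM wM) hrad _ Finset.univ rfl (fun j => ⟨Sum.inr j, Finset.mem_univ _, rfl⟩)
    ⟨0, fun d _ => by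
      rw [ext_ncard, ext_ncard]
      exact Finset.sum_congr rfl fun e _ => h e⟩
  ext v
  have hL : resL (v.mapDomain Sum.inl + d₀.mapDomain Sum.inr : σ ⊕ ι →₀ ℕ) = v := by
    ext i
    rw [resL_apply, Finsupp.add_apply, Finsupp.mapDomain_apply Sum.inl_injective,
      Finsupp.mapDomain_of_notMem_range _ _ (by simp), add_zero]
  have hR : resR (v.mapDomain Sum.inl + d₀.mapDomain Sum.inr : σ ⊕ ι →₀ ℕ) = d₀ := by
    ext i
    rw [resR_apply, Finsupp.add_apply, Finsupp.mapDomain_apply Sum.inr_injective,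
      Finsupp.mapDomain_of_notMem_range _ _ (by simp), zero_add]
  have := hd₀ (v.mapDomain Sum.inl + d₀.mapDomain Sum.inr) (fun _ _ => Finset.mem_univ _) (by
    rw [mapDomain_LR, hR, Finsupp.mapDomain_id]
    exact le_add_self)
  simp only [Set.mem_preimage, hL] at this
  exact this

end Pool.Agent.H874.CS
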