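import Pool.Agent.H874.CS.WB
import Pool.Agent.H874.CS.Rig2
import Pool.Agent.H874.CS.Orders

/-!
# Generic initial ideals and Cartwright-Sturmfels ideals
-/

open MvPolynomial

namespace Pool.Agent.H874.CS

variable {σ ι K : Type*} [Field K] [Fintype σ] [DecidableEq σ]

theorem gin_exists [Infinite K] (m : MonomialOrder σ) (c : σ → ι) {I : Ideal (MvPolynomial σ K)}
    (hI : IsGraded c I) :
    ∃ N : Set (σ →₀ ℕ), IsUpperSet N ∧ WBs c (Bef m) N ∧
      (∀ d, hf c I d = (Ed c d \ N).ncard) ∧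
      Gen c (fun g => Lead m ((I.map (act g) : Ideal (MvPolynomial σ K)) :
        Set (MvPolynomial σ K)) = N) := by
  classical
  choose M hME hMgen hMmax using generic_deg m c hI
  set N : Set (σ →₀ ℕ) := {a | a ∈ M (a.mapDomain c)} with hN
  have hNE : ∀ d, Ed c d ∩ N = M d := by
    intro d
    ext a
    constructor
    · rintro ⟨h1, h2⟩
      rw [mem_Ed] at h1
      rw [← h1]
      exact h2
    · intro h
      have h1 := hME d h
      refine ⟨h1, ?_⟩
      change a ∈ M (a.mapDomain c)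
      rw [mem_Ed.1 h1]
      exact h
  have hup : IsUpperSet N := by
    intro a b hab ha
    obtain ⟨e, rfl⟩ := exists_add_of_le hab
    obtain ⟨g, hg, h1, h2⟩ := ((hMgen (a.mapDomain c)).and (hMgen ((a + e).mapDomain c))).exists
    have h3 : a ∈ Lead m ((I.map (act g) : Ideal (MvPolynomial σ K)) :
        Set (MvPolynomial σ K)) := by
      have : a ∈ M (a.mapDomain c) := ha
      rw [← h1] at this
      exact this.2
    have h4 := Lead_upper m (I.map (act g)) (le_self_add : a ≤ a + e) h3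
    change a + e ∈ M ((a + e).mapDomain c)
    rw [← h2]
    exact ⟨rfl, h4⟩
  have hwb : WBs c (Bef m) N := by
    intro x z hc hxz u a hu ha
    have h1 := generic_wb m c hI _ (hME _) (hMgen _) (hMmax _) hc hxz hu
      (show u + Finsupp.single z a ∈ M ((u + Finsupp.single z a).mapDomain c) from ha)
    change u + Finsupp.single x a ∈ M ((u + Finsupp.single x a).mapDomain c)
    have h2 : (u + Finsupp.single x a).mapDomain c = (u + Finsupp.single z a).mapDomain c := by
      rw [Finsupp.mapDomain_add, Finsupp.mapDomain_add, Finsupp.mapDomain_single,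
        Finsupp.mapDomain_single, hc]
    rw [h2]
    exact h1
  have hhf : ∀ d, hf c I d = (Ed c d \ N).ncard := by
    intro d
    obtain ⟨g, hg, h1⟩ := (hMgen d).exists
    rw [← hf_map hg, hf_eq m c (graded_map hg hI)]
    congr 1
    rw [← Set.sdiff_self_inter, h1, ← hNE, Set.sdiff_self_inter]
  refine ⟨N, hup, hwb, hhf, ?_⟩
  obtain ⟨B, hB, hBle⟩ := dickson (N := N)
  refine (Gen.finset B fun b _ => hMgen (b.mapDomain c)).mono fun g hg h => ?_
  have hsub : N ⊆ Lead m ((I.map (act g) : Ideal (MvPolynomial σ K)) :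
        Set (MvPolynomial σ K)) := by
    intro a ha
    obtain ⟨b, hb, hba⟩ := hBle a ha
    refine Lead_upper m _ hba ?_
    have h1 : b ∈ M (b.mapDomain c) := hB hb
    rw [← h b hb] at h1
    exact h1.2
  apply Set.Subset.antisymm _ hsub
  intro a ha
  by_contra haN
  have h1 := hhf (a.mapDomain c)
  rw [← hf_map hg, hf_eq m c (graded_map hg hI)] at h1
  have h2 := Set.eq_of_subset_of_ncard_le (Set.sdiff_subset_sdiff_right hsub) h1.ge
    ((finite_Ed c (a.mapDomain c)).subset Set.sdiff_subset)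
  have h3 : a ∈ Ed c (a.mapDomain c) \ N := ⟨rfl, haN⟩
  rw [← h2] at h3
  exact h3.2 ha

theorem radical_of_map {g : Matrix σ σ K} (hg : g.det ≠ 0) {I : Ideal (MvPolynomial σ K)}
    (h : (I.map (act g)).IsRadical) : I.IsRadical := by
  rintro f ⟨n, hn⟩
  rw [← act_mem_map hg]
  apply h
  refine ⟨n, ?_⟩
  rw [← map_pow, act_mem_map hg]
  exact hn

variable [Fintype ι] [DecidableEq ι]

/-- a graded ideal with the Hilbert function of a radical weakly Borel set is radical -/
theorem rad_of_comb [Infinite K] (c : σ → ι) (ρ : σ → ℕ) (hρ : Function.Injective ρ)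
    {M : Set (σ →₀ ℕ)} (hM : IsUpperSet M) (wM : WBs c (fun x z => ρ x < ρ z) M) (rM : RadSet M)
    {J : Ideal (MvPolynomial σ K)} (hJ : IsGraded c J) (h : ∀ d, hf c J d = (Ed c d \ M).ncard) :
    J.IsRadical := by
  obtain ⟨m, hm⟩ := exists_order ρ hρ
  obtain ⟨N, hN, wN, hhf, hgen⟩ := gin_exists m c hJ
  have wN' : WBs c (fun x z => ρ x < ρ z) N := fun x z hc hlt => wN x z hc ((hm x z).2 hlt)
  have hNM : N = M := rigidity c ρ hρ hN wN' hM wM rM fun d => by rw [← hhf, h]
  obtain ⟨g, hg, hL⟩ := hgen.exists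
  refine radical_of_map hg.2 (isRadical_of_radSet m _ ?_)
  rw [hL, hNM]
  exact rM

/-- the ideal generated by the leading monomials of the nonzero elements of `I` -/
noncomputable def inIdeal (m : MonomialOrder σ) (I : Ideal (MvPolynomial σ K)) :
    Ideal (MvPolynomial σ K) :=
  Ideal.span {p | ∃ f ∈ I, f ≠ 0 ∧ p = monomial (m.degree f) 1}

omit [Fintype σ] [DecidableEq σ] [Fintype ι] [DecidableEq ι] in
theorem inIdeal_eq (m : MonomialOrder σ) (I : Ideal (MvPolynomial σ K)) :
    inIdeal m I = mono K (Lead m (I : Set (MvPolynomial σ K))) (Lead_upper m I) := by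
  apply le_antisymm
  · rw [inIdeal, Ideal.span_le]
    rintro _ ⟨f, hf, h0, rfl⟩
    exact monomial_mem_mono.2 ⟨f, hf, h0, rfl⟩
  · intro f hf
    rw [f.as_sum]
    refine Ideal.sum_mem _ fun a ha => ?_
    obtain ⟨g, hg, g0, hga⟩ := hf ha
    have : monomial a (coeff a f) = C (coeff a f) * monomial a 1 := by
      rw [C_mul_monomial, mul_one]
    rw [this]
    refine Ideal.mul_mem_left _ _ (Ideal.subset_span ⟨g, hg, g0, ?_⟩)
    rw [hga]

/-- `N` is the multigraded generic initial ideal of `I` -/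
def IsGin (c : σ → ι) (m : MonomialOrder σ) (I N : Ideal (MvPolynomial σ K)) : Prop :=
  Gen c (fun g => inIdeal m (I.map (act g)) = N)

theorem rad_of_gin [Infinite K] {c : σ → ι} {m : MonomialOrder σ} {I N : Ideal (MvPolynomial σ K)}
    (hI : IsGraded c I) (hN : IsGin c m I N) (hr : N.IsRadical) : Rad c I := by
  obtain ⟨M, hM, wM, hhf, hgen⟩ := gin_exists m c hI
  obtain ⟨g, hg, h1, h2⟩ := (Gen.and hN hgen).exists
  have hNM : N = mono K M hM := by
    rw [← h1, inIdeal_eq]
    congr 1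
  rw [hNM] at hr
  have rM := radSet_of_mono hM hr
  obtain ⟨ρ, hρ, hρ'⟩ := exists_rank m
  intro J hJ hd
  refine rad_of_comb c ρ hρ hM (fun x z hc hlt => wM x z hc ((hρ' x z).2 hlt)) rM hJ ?_
  intro d
  rw [hd, hhf]

theorem gin_of_rad [Infinite K] {c : σ → ι} {I : Ideal (MvPolynomial σ K)}
    (hI : IsGraded c I) (h : Rad c I) (m : MonomialOrder σ) :
    ∃ N, IsGin c m I N ∧ N.IsRadical := by
  obtain ⟨M, hM, wM, hhf, hgen⟩ := gin_exists m c hI
  refine ⟨mono K M hM, hgen.mono fun g hg hL => ?_, ?_⟩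
  · rw [inIdeal_eq]
    congr 1
  · apply h _ (mono_graded c hM)
    intro d
    rw [hf_mono c hM m, hhf]

end Pool.Agent.H874.CS
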