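import Pool.Agent.H874.CS.Basic

/-!
# Multigradings by colouring the variables
-/

open MvPolynomial

namespace Pool.Agent.H874.CS

variable {σ τ ι K : Type*} [Field K]

/-- the weights of the variables in the grading given by the colouring `c` -/
noncomputable def wt (c : σ → ι) : σ → (ι →₀ ℕ) := fun i => Finsupp.single (c i) 1

/-- the exponents of multidegree `d` -/
def Ed (c : σ → ι) (d : ι →₀ ℕ) : Set (σ →₀ ℕ) := {a | a.mapDomain c = d}

theorem weight_wt (c : σ → ι) (a : σ →₀ ℕ) : Finsupp.weight (wt c) a = a.mapDomain c := by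
  rw [Finsupp.weight_apply, Finsupp.mapDomain]
  refine Finsupp.sum_congr fun i _ => ?_
  rw [wt, Finsupp.smul_single, smul_eq_mul, mul_one]

/-- the component of multidegree `d` -/
noncomputable def hcomp (c : σ → ι) (d : ι →₀ ℕ) :
    MvPolynomial σ K →ₗ[K] MvPolynomial σ K := weightedHomogeneousComponent (wt c) d

theorem coeff_hcomp (c : σ → ι) (d : ι →₀ ℕ) (a : σ →₀ ℕ) (f : MvPolynomial σ K)
    [Decidable (a.mapDomain c = d)] :
    coeff a (hcomp c d f) = if a.mapDomain c = d then coeff a f else 0 := by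
  classical
  rw [hcomp, coeff_weightedHomogeneousComponent, weight_wt]
  split_ifs <;> rfl

theorem mem_Ed {c : σ → ι} {d : ι →₀ ℕ} {a : σ →₀ ℕ} : a ∈ Ed c d ↔ a.mapDomain c = d := Iff.rfl

theorem hcomp_mem (c : σ → ι) (d : ι →₀ ℕ) (f : MvPolynomial σ K) :
    hcomp c d f ∈ restrictSupport K (Ed c d) := by
  classical
  rw [mem_restrictSupport_iff]
  intro a ha
  rw [Finset.mem_coe, mem_support_iff, coeff_hcomp] at ha
  by_contra h
  exact ha (if_neg h)

theorem hcomp_eq_self {c : σ → ι} {d : ι →₀ ℕ} {f : MvPolynomial σ K}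
    (h : f ∈ restrictSupport K (Ed c d)) : hcomp c d f = f := by
  classical
  ext a
  rw [coeff_hcomp]
  split_ifs with h1
  · rfl
  · by_contra h2
    exact h1 ((mem_restrictSupport_iff K).1 h (mem_support_iff.2 (Ne.symm h2)))

theorem hcomp_eq_zero {c : σ → ι} {d e : ι →₀ ℕ} {f : MvPolynomial σ K}
    (h : f ∈ restrictSupport K (Ed c d)) (hne : e ≠ d) : hcomp c e f = 0 := by
  classical
  ext a
  rw [coeff_hcomp]
  split_ifs with h1
  · by_contra h2
    exact hne (h1 ▸ ((mem_restrictSupport_iff K).1 h (mem_support_iff.2 h2)))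
  · simp

theorem mem_restrict_iff_hom {c : σ → ι} {d : ι →₀ ℕ} {f : MvPolynomial σ K} :
    f ∈ restrictSupport K (Ed c d) ↔ IsWeightedHomogeneous (wt c) f d := by
  rw [mem_restrictSupport_iff]
  constructor
  · intro h a ha
    rw [weight_wt]
    exact h (mem_support_iff.2 ha)
  · intro h a ha
    rw [Finset.mem_coe, mem_support_iff] at ha
    have := h ha
    rwa [weight_wt] at this

/-- sum of the components over the degrees in the support -/
theorem sum_hcomp (c : σ → ι) (f : MvPolynomial σ K) :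
    ∃ D : Finset (ι →₀ ℕ), f = ∑ d ∈ D, hcomp c d f := by
  classical
  refine ⟨f.support.image (fun a => a.mapDomain c), ?_⟩
  ext a
  rw [coeff_sum]
  simp only [coeff_hcomp]
  rw [Finset.sum_ite_eq]
  split_ifs with h
  · rfl
  · by_contra h2
    exact h (Finset.mem_image_of_mem _ (mem_support_iff.2 h2))

/-- homogeneous ideals -/
def IsGraded (c : σ → ι) (I : Ideal (MvPolynomial σ K)) : Prop :=
  ∀ f ∈ I, ∀ d, hcomp c d f ∈ I

/-- an algebra map which maps variables to forms of the same multidegree is graded -/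
theorem map_monomial_hom (c : σ → ι) (c' : τ → ι) (θ : MvPolynomial σ K →ₐ[K] MvPolynomial τ K)
    (h : ∀ i, θ (X i) ∈ restrictSupport K (Ed c' (Finsupp.single (c i) 1))) (a : σ →₀ ℕ) (r : K) :
    θ (monomial a r) ∈ restrictSupport K (Ed c' (a.mapDomain c)) := by
  rw [mem_restrict_iff_hom, monomial_eq, map_mul, Finsupp.prod, map_prod]
  have h1 : θ (C r) = C r := θ.commutes r
  rw [h1]
  apply IsWeightedHomogeneous.C_mul
  have : a.mapDomain c = ∑ i ∈ a.support, a i • Finsupp.single (c i) 1 := by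
    rw [Finsupp.mapDomain, Finsupp.sum]
    refine Finset.sum_congr rfl fun i _ => ?_
    rw [Finsupp.smul_single, smul_eq_mul, mul_one]
  rw [this]
  apply IsWeightedHomogeneous.prod
  intro i _
  rw [map_pow]
  exact (mem_restrict_iff_hom.1 (h i)).pow _

theorem map_hom (c : σ → ι) (c' : τ → ι) (θ : MvPolynomial σ K →ₐ[K] MvPolynomial τ K)
    (h : ∀ i, θ (X i) ∈ restrictSupport K (Ed c' (Finsupp.single (c i) 1))) {d : ι →₀ ℕ}
    {f : MvPolynomial σ K} (hf : f ∈ restrictSupport K (Ed c d)) :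
    θ f ∈ restrictSupport K (Ed c' d) := by
  rw [f.as_sum, map_sum]
  refine Submodule.sum_mem _ fun a ha => ?_
  have h2 : a.mapDomain c = d := (mem_restrictSupport_iff K).1 hf ha
  rw [← h2]
  exact map_monomial_hom c c' θ h a _

theorem hcomp_map (c : σ → ι) (c' : τ → ι) (θ : MvPolynomial σ K →ₐ[K] MvPolynomial τ K)
    (h : ∀ i, θ (X i) ∈ restrictSupport K (Ed c' (Finsupp.single (c i) 1))) (d : ι →₀ ℕ)
    (f : MvPolynomial σ K) : hcomp c' d (θ f) = θ (hcomp c d f) := by
  classical
  obtain ⟨D, hD⟩ := sum_hcomp c f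
  have h1 : ∀ e, hcomp c' d (θ (hcomp c e f)) = if e = d then θ (hcomp c d f) else 0 := by
    intro e
    split_ifs with he
    · subst he
      exact hcomp_eq_self (map_hom c c' θ h (hcomp_mem c _ f))
    · exact hcomp_eq_zero (map_hom c c' θ h (hcomp_mem c _ f)) (Ne.symm he)
  have h2 : ∀ e, hcomp c d (hcomp c e f) = if e = d then hcomp c d f else 0 := by
    intro e
    split_ifs with he
    · subst he
      exact hcomp_eq_self (hcomp_mem c _ f)
    · exact hcomp_eq_zero (hcomp_mem c _ f) (Ne.symm he)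
  have h3 : hcomp c' d (θ f) = ∑ e ∈ D, if e = d then θ (hcomp c d f) else 0 := by
    conv_lhs => rw [hD]
    rw [map_sum, map_sum]
    exact Finset.sum_congr rfl fun e _ => h1 e
  have h4 : hcomp c d f = ∑ e ∈ D, if e = d then (hcomp c d f) else 0 := by
    conv_lhs => rw [hD]
    rw [map_sum]
    exact Finset.sum_congr rfl fun e _ => h2 e
  have h5 : θ (hcomp c d f) = ∑ e ∈ D, θ (if e = d then (hcomp c d f) else 0) := by
    rw [← map_sum, ← h4]
  refine h3.trans (Eq.trans ?_ h5.symm)
  refine Finset.sum_congr rfl fun e _ => ?_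
  split_ifs
  · rfl
  · rw [map_zero]

theorem finite_Ed [Finite σ] (c : σ → ι) (d : ι →₀ ℕ) : (Ed c d).Finite := by
  classical
  cases nonempty_fintype σ
  refine (Set.finite_Iic (Finsupp.equivFunOnFinite.symm fun i : σ => d (c i))).subset ?_
  intro a ha
  rw [Set.mem_Iic]
  intro i
  rw [← (ha : a.mapDomain c = d)]
  change a i ≤ (a.mapDomain c) (c i)
  rw [Finsupp.mapDomain, Finsupp.sum_apply]
  by_cases hi : i ∈ a.support
  · refine le_trans ?_ (Finset.single_le_sum (f := fun j => (Finsupp.single (c j) (a j)) (c i))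
      (fun _ _ => Nat.zero_le _) hi)
    simp
  · rw [Finsupp.notMem_support_iff.1 hi]
    exact Nat.zero_le _

end Pool.Agent.H874.CS
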