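import Pool.Agent.H874.CS.Grad

/-!
# Hilbert functions, initial ideals, radicality
-/

open MvPolynomial

namespace Pool.Agent.H874.CS

variable {σ τ ι K : Type*} [Field K]

/-- the multigraded Hilbert function of the quotient by `I` -/
noncomputable def hf (c : σ → ι) (I : Ideal (MvPolynomial σ K)) (d : ι →₀ ℕ) : ℕ :=
  qdim (I.restrictScalars K) (Ed c d)

theorem degree_of_support (m : MonomialOrder σ) {f g : MvPolynomial σ K}
    (h1 : m.degree f ∈ g.support) (h2 : g.support ⊆ f.support) :
    g ≠ 0 ∧ m.degree g = m.degree f := by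
  have hg : g ≠ 0 := by
    rintro rfl
    simp at h1
  refine ⟨hg, m.toSyn.injective (le_antisymm ?_ (m.le_degree h1))⟩
  exact m.le_degree (h2 (m.degree_mem_support hg))

theorem support_hcomp (c : σ → ι) (d : ι →₀ ℕ) (f : MvPolynomial σ K) :
    (hcomp c d f).support ⊆ f.support := by
  classical
  intro a ha
  rw [mem_support_iff, coeff_hcomp] at ha
  rw [mem_support_iff]
  intro h
  apply ha
  rw [h]
  simp

theorem degree_hcomp (m : MonomialOrder σ) (c : σ → ι) {d : ι →₀ ℕ} {f : MvPolynomial σ K}
    (hf : f ≠ 0) (h : m.degree f ∈ Ed c d) :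
    hcomp c d f ≠ 0 ∧ m.degree (hcomp c d f) = m.degree f := by
  classical
  refine degree_of_support m ?_ (support_hcomp c d f)
  rw [mem_support_iff, coeff_hcomp, if_pos (mem_Ed.1 h)]
  exact mem_support_iff.1 (m.degree_mem_support hf)

theorem compat_Ed (m : MonomialOrder σ) (c : σ → ι) {I : Ideal (MvPolynomial σ K)}
    (hI : IsGraded c I) (d : ι →₀ ℕ) : Compat m (I.restrictScalars K) (Ed c d) := by
  rintro a ha ⟨f, hf, h0, rfl⟩
  have := degree_hcomp m c h0 ha
  exact ⟨hcomp c d f, hI f hf d, this.1, this.2, hcomp_mem c d f⟩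

theorem hf_eq (m : MonomialOrder σ) (c : σ → ι) {I : Ideal (MvPolynomial σ K)}
    (hI : IsGraded c I) (d : ι →₀ ℕ) :
    hf c I d = (Ed c d \ Lead m (I : Set (MvPolynomial σ K))).ncard :=
  macaulay m _ _ (compat_Ed m c hI d)

theorem Lead_upper (m : MonomialOrder σ) (I : Ideal (MvPolynomial σ K)) :
    IsUpperSet (Lead m (I : Set (MvPolynomial σ K))) := by
  rintro a b hab ⟨f, hf, h0, rfl⟩
  obtain ⟨e, rfl⟩ := exists_add_of_le hab
  classical
  refine ⟨monomial e 1 * f, I.mul_mem_left _ hf, mul_ne_zero (by simp) h0, ?_⟩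
  rw [m.degree_mul (by simp) h0, m.degree_monomial]
  simp [add_comm]

/-- the monomial ideal of an upper set of exponents -/
noncomputable abbrev mono (K : Type*) [Field K] (N : Set (σ →₀ ℕ)) (hN : IsUpperSet N) :
    Ideal (MvPolynomial σ K) := restrictSupportIdeal K N hN

theorem mem_mono {N : Set (σ →₀ ℕ)} {hN : IsUpperSet N} {f : MvPolynomial σ K} :
    f ∈ mono K N hN ↔ (f.support : Set (σ →₀ ℕ)) ⊆ N := Iff.rfl

theorem monomial_mem_mono {N : Set (σ →₀ ℕ)} {hN : IsUpperSet N} {a : σ →₀ ℕ} :
    monomial a (1 : K) ∈ mono K N hN ↔ a ∈ N := by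
  classical
  rw [mem_mono, support_monomial, if_neg one_ne_zero]
  simp

theorem Lead_mono_eq (m : MonomialOrder σ) {N : Set (σ →₀ ℕ)} (hN : IsUpperSet N) :
    Lead m ((mono K N hN : Ideal (MvPolynomial σ K)) : Set (MvPolynomial σ K)) = N := by
  classical
  ext a
  constructor
  · rintro ⟨f, hf, h0, rfl⟩
    exact hf (m.degree_mem_support h0)
  · intro ha
    refine ⟨monomial a 1, monomial_mem_mono.2 ha, by simp, ?_⟩
    rw [m.degree_monomial]
    simp

theorem mono_graded (c : σ → ι) {N : Set (σ →₀ ℕ)} (hN : IsUpperSet N) :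
    IsGraded c (mono K N hN) := by
  intro f hf d
  exact subset_trans (Finset.coe_subset.2 (support_hcomp c d f)) hf

theorem hf_mono (c : σ → ι) {N : Set (σ →₀ ℕ)} (hN : IsUpperSet N) (m : MonomialOrder σ)
    (d : ι →₀ ℕ) : hf c (mono K N hN) d = (Ed c d \ N).ncard := by
  rw [hf_eq m c (mono_graded c hN), Lead_mono_eq]

/-- a set of exponents is radical -/
def RadSet (N : Set (σ →₀ ℕ)) : Prop := ∀ (a : σ →₀ ℕ) (n : ℕ), n • a ∈ N → a ∈ N

theorem radSet_of_mono {N : Set (σ →₀ ℕ)} (hN : IsUpperSet N)
    (h : (mono K N hN).IsRadical) : RadSet N := by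
  intro a n ha
  rw [← monomial_mem_mono (K := K) (hN := hN)]
  apply h
  refine ⟨n, ?_⟩
  rw [monomial_pow, one_pow]
  exact monomial_mem_mono.2 ha

theorem isRadical_of_radSet (m : MonomialOrder σ) (I : Ideal (MvPolynomial σ K))
    (h : RadSet (Lead m (I : Set (MvPolynomial σ K)))) : I.IsRadical := by
  have key : ∀ s : m.syn, ∀ f : MvPolynomial σ K, m.toSyn (m.degree f) = s → f ∈ I.radical →
      f ∈ I := by
    intro s
    induction s using WellFoundedLT.induction with
    | ind s ih =>
      intro f hs hf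
      by_cases h0 : f = 0
      · rw [h0]; exact I.zero_mem
      obtain ⟨n, hn⟩ := hf
      have h1 : n • m.degree f ∈ Lead m (I : Set (MvPolynomial σ K)) :=
        ⟨f ^ n, hn, pow_ne_zero _ h0, m.degree_pow f n⟩
      obtain ⟨g, hg, g0, hgd⟩ := h _ _ h1
      have hlc : g.coeff (m.degree f) ≠ 0 := by
        rw [← hgd]; exact mem_support_iff.1 (m.degree_mem_support g0)
      set t := f.coeff (m.degree f) / g.coeff (m.degree f) with ht
      have hmem : f - t • g ∈ I.radical :=
        Ideal.sub_mem _ ⟨n, hn⟩ (by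
          rw [← C_mul']
          exact Ideal.mul_mem_left _ _ (Ideal.le_radical hg))
      have hfin : f - t • g ∈ I := by
        by_cases g1 : f - t • g = 0
        · rw [g1]; exact I.zero_mem
        refine ih _ ?_ _ rfl hmem
        rw [← hs]
        refine lt_of_le_of_ne ?_ ?_
        · classical
          rcases Finset.mem_union.1 (support_sub _ _ _ (m.degree_mem_support g1)) with h' | h'
          · exact m.le_degree h'
          · rw [← hgd]
            exact m.le_degree (support_smul h')
        · intro he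
          have h3 := m.toSyn.injective he
          have h4 := mem_support_iff.1 (m.degree_mem_support g1)
          rw [h3, coeff_sub, coeff_smul, ht, smul_eq_mul, div_mul_cancel₀ _ hlc, sub_self] at h4
          exact h4 rfl
      have := I.add_mem hfin (show t • g ∈ I by
        rw [← C_mul']; exact I.mul_mem_left _ hg)
      rwa [sub_add_cancel] at this
  intro f hf
  exact key _ f rfl hf

/-- every graded ideal with the Hilbert function of `I` is radical -/
def Rad (c : σ → ι) (I : Ideal (MvPolynomial σ K)) : Prop :=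
  ∀ J : Ideal (MvPolynomial σ K), IsGraded c J → (∀ d, hf c J d = hf c I d) → J.IsRadical

theorem Rad.lead {c : σ → ι} {I J : Ideal (MvPolynomial σ K)} (h : Rad c I)
    (hJ : IsGraded c J) (hd : ∀ d, hf c J d = hf c I d) (m : MonomialOrder σ) :
    RadSet (Lead m (J : Set (MvPolynomial σ K))) := by
  apply radSet_of_mono (K := K) (Lead_upper m J)
  apply h _ (mono_graded c _)
  intro d
  rw [hf_mono c _ m, ← hd, hf_eq m c hJ]

end Pool.Agent.H874.CS
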