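import Pool.Agent.H874.CS.Multi

/-!
# Multigraded homogenizations and homogeneous parts
-/

open MvPolynomial

namespace Pool.Agent.H874.CS

variable {σ ι κ K : Type*} [Field K]

/-- the componentwise maximum of the multidegrees of the monomials of `f` -/
noncomputable def topDeg (c' : σ → κ) (f : MvPolynomial σ K) : κ →₀ ℕ :=
  f.support.sup fun a => a.mapDomain c'

/-- the multihomogenization of `f`; the new variable of multidegree `e_k` is `X (Sum.inr k)` -/
noncomputable def homog (c' : σ → κ) (f : MvPolynomial σ K) : MvPolynomial (σ ⊕ κ) K :=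
  ∑ a ∈ f.support, monomial
    (a.mapDomain Sum.inl + (topDeg c' f - a.mapDomain c').mapDomain Sum.inr) (coeff a f)

/-- the ideal generated by the multihomogenizations of the nonzero elements of `I` -/
noncomputable def homIdeal (c' : σ → κ) (I : Ideal (MvPolynomial σ K)) :
    Ideal (MvPolynomial (σ ⊕ κ) K) :=
  Ideal.span {p | ∃ f ∈ I, f ≠ 0 ∧ p = homog c' f}

/-- the ideal generated by the multihomogeneous elements of `I` -/
noncomputable def starIdeal (c' : σ → κ) (I : Ideal (MvPolynomial σ K)) :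
    Ideal (MvPolynomial σ K) :=
  Ideal.span {f | f ∈ I ∧ ∃ d : κ →₀ ℕ, ∀ a ∈ f.support, a.mapDomain c' = d}

theorem le_topDeg (c' : σ → κ) {f : MvPolynomial σ K} {a : σ →₀ ℕ} (ha : a ∈ f.support) :
    a.mapDomain c' ≤ topDeg c' f :=
  Finset.le_sup (f := fun a : σ →₀ ℕ => a.mapDomain c') ha

theorem evs_mapDomain (v : ι → K) (j : κ → ι) (b : κ →₀ ℕ) :
    evs v (b.mapDomain j) = evs (fun k => v (j k)) b := by
  rw [evs, evs, Finsupp.prod_mapDomain_index (by simp) (by intros; rw [pow_add])]

/-- the substitution which detects homogenizations -/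
noncomputable def Psi (c' : σ → κ) (j : κ → ι) (s : κ → K) (v : ι → K) :
    MvPolynomial (σ ⊕ κ) K →ₐ[K] MvPolynomial σ K :=
  aeval (Sum.elim (fun i => s (c' i) • X i) fun k => (s k * v (j k)) • 1)

theorem Psi_monomial (c' : σ → κ) (j : κ → ι) (s : κ → K) (v : ι → K) (a : σ →₀ ℕ)
    (b : κ →₀ ℕ) (r : K) : Psi c' j s v (monomial (join a b) r) =
      (evs s (a.mapDomain c' + b) * evs v (b.mapDomain j)) • monomial a r := by
  have h1 : ∀ a : σ →₀ ℕ, Psi c' j s v (monomial (a.mapDomain Sum.inl) 1) =
      evs s (a.mapDomain c') • monomial a 1 := by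
    intro a
    induction a using Finsupp.induction_linear with
    | zero => 
      rw [Finsupp.mapDomain_zero, Finsupp.mapDomain_zero, evs_zero, one_smul,
        show (monomial 0 (1 : K)) = 1 from rfl, map_one]
      rfl
    | add a b ha hb =>
      rw [Finsupp.mapDomain_add, Finsupp.mapDomain_add, ← one_mul (1 : K), ← monomial_mul, map_mul,
        ha, hb, evs_add, ← monomial_mul, smul_mul_smul_comm]
    | single i n =>
      rw [Finsupp.mapDomain_single, Finsupp.mapDomain_single, ← X_pow_eq_monomial, map_pow, Psi,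
        aeval_X, evs_single, ← X_pow_eq_monomial]
      change (s (c' i) • (X i : MvPolynomial σ K)) ^ n = _
      rw [smul_pow]
  have h2 : ∀ b : κ →₀ ℕ, Psi c' j s v (monomial (b.mapDomain Sum.inr) 1) =
      (evs s b * evs v (b.mapDomain j)) • (1 : MvPolynomial σ K) := by
    intro b
    induction b using Finsupp.induction_linear with
    | zero =>
      rw [Finsupp.mapDomain_zero, Finsupp.mapDomain_zero, evs_zero, evs_zero, one_mul, one_smul,
        show (monomial 0 (1 : K)) = 1 from rfl, map_one]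
    | add a b ha hb =>
      rw [Finsupp.mapDomain_add, Finsupp.mapDomain_add, ← one_mul (1 : K), ← monomial_mul, map_mul,
        ha, hb, evs_add, evs_add, smul_mul_smul_comm, one_mul]
      congr 1
      ring
    | single k n =>
      rw [Finsupp.mapDomain_single, Finsupp.mapDomain_single, ← X_pow_eq_monomial, map_pow, Psi,
        aeval_X, evs_single, evs_single]
      change ((s k * v (j k)) • (1 : MvPolynomial σ K)) ^ n = _
      rw [smul_pow, one_pow, mul_pow]
  have h3 : (monomial (join a b) r : MvPolynomial (σ ⊕ κ) K) =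
      r • (monomial (a.mapDomain Sum.inl) 1 * monomial (b.mapDomain Sum.inr) 1) := by
    rw [monomial_mul, smul_monomial, join, mul_one, smul_eq_mul, mul_one]
  rw [h3, map_smul, map_mul, h1, h2, smul_mul_smul_comm, mul_one, evs_add, smul_comm,
    smul_monomial (r := r), smul_eq_mul, mul_one]
  congr 1
  ring

theorem sum_graded {c : σ → ι} {I : Ideal (MvPolynomial σ K)} (hI : IsGraded c I)
    (g : (ι →₀ ℕ) → K) {f : MvPolynomial σ K} (hf : f ∈ I) :
    ∑ a ∈ f.support, g (a.mapDomain c) • monomial a (coeff a f) ∈ I := by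
  classical
  have h : ∑ a ∈ f.support, g (a.mapDomain c) • monomial a (coeff a f) =
      ∑ e ∈ f.support.image (fun a => a.mapDomain c), g e • hcomp c e f := by
    ext b
    rw [coeff_sum, coeff_sum]
    simp only [coeff_smul, coeff_monomial, coeff_hcomp, smul_eq_mul, mul_ite, mul_zero]
    rw [Finset.sum_ite_eq', Finset.sum_ite_eq]
    by_cases hb : b ∈ f.support
    · rw [if_pos hb, if_pos (Finset.mem_image_of_mem _ hb)]
    · rw [if_neg hb, notMem_support_iff.1 hb, mul_zero, ite_self]
  rw [h]
  refine Ideal.sum_mem _ fun e _ => ?_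
  rw [← C_mul']
  exact I.mul_mem_left _ (hI f hf e)

theorem Psi_homog {c : σ → ι} {c' : σ → κ} {j : κ → Option ι} (hj : ∀ i, j (c' i) = some (c i))
    {I : Ideal (MvPolynomial σ K)} (hI : IsGraded c I) {f : MvPolynomial σ K} (hf : f ∈ I)
    (s : κ → K) (v : Option ι → K) : Psi c' j s v (homog c' f) ∈ I := by
  have h1 : Psi c' j s v (homog c' f) = evs s (topDeg c' f) •
      ∑ a ∈ f.support, evs v ((topDeg c' f).mapDomain j - (a.mapDomain c).mapDomain some) •
        monomial a (coeff a f) := by
    rw [homog, map_sum, Finset.smul_sum]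
    refine Finset.sum_congr rfl fun a ha => ?_
    have h2 := le_topDeg c' ha
    have h3 : a.mapDomain c' + (topDeg c' f - a.mapDomain c') = topDeg c' f :=
      add_tsub_cancel_of_le h2
    have h4 : (topDeg c' f - a.mapDomain c').mapDomain j =
        (topDeg c' f).mapDomain j - (a.mapDomain c).mapDomain some := by
      have h5 : (a.mapDomain c').mapDomain j = (a.mapDomain c).mapDomain some := by
        rw [← Finsupp.mapDomain_comp, ← Finsupp.mapDomain_comp]
        congr 1
        funext i
        exact hj i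
      rw [← h5]
      conv_rhs => rw [← h3, Finsupp.mapDomain_add, add_tsub_cancel_left]
    have h6 := Psi_monomial c' j s v a (topDeg c' f - a.mapDomain c') (coeff a f)
    rw [join] at h6
    rw [h6, h3, h4, mul_smul]
  rw [h1, ← C_mul']
  exact I.mul_mem_left _ (sum_graded hI
    (fun e => evs v ((topDeg c' f).mapDomain j - e.mapDomain some)) hf)

theorem mdeg_kk (c' : σ → κ) (u : σ ⊕ κ →₀ ℕ) :
    u.mapDomain (Sum.elim c' id) = (resL u).mapDomain c' + resR u := by
  rw [mdeg_join (c := c') (c' := (Sum.elim c' id : σ ⊕ κ → κ)) (φ := id) (fun _ => rfl) u,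
    Finsupp.mapDomain_id]
  congr 1
  exact Finsupp.mapDomain_id

theorem coeff_spc_y₁ (c' : σ → κ) {b : κ →₀ ℕ} {F : MvPolynomial (σ ⊕ κ) K}
    (hF : F ∈ restrictSupport K (Ed (Sum.elim c' id : σ ⊕ κ → κ) b)) (u : σ ⊕ κ →₀ ℕ)
    (hu : u ∈ Ed (Sum.elim c' id : σ ⊕ κ → κ) b) :
    coeff (resL u) (spc (y₁ : σ ⊕ κ → MvPolynomial σ K) F) = coeff u F := by
  classical
  conv_lhs => rw [F.as_sum, map_sum, coeff_sum]
  simp only [spc_y₁, coeff_monomial]
  rw [Finset.sum_eq_single u]
  · rw [if_pos rfl]
  · intro u' hu' hne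
    rw [if_neg]
    intro h
    apply hne
    have h1 : u'.mapDomain (Sum.elim c' id) = b := (mem_restrictSupport_iff K).1 hF hu'
    rw [mem_Ed] at hu
    rw [mdeg_kk] at h1 hu
    rw [h, ← hu] at h1
    rw [← join_res u, ← join_res u', h, add_left_cancel h1]
  · intro h
    rw [if_pos rfl]
    exact notMem_support_iff.1 h

theorem supp_spc_y₁ (c' : σ → κ) {b : κ →₀ ℕ} {F : MvPolynomial (σ ⊕ κ) K}
    (hF : F ∈ restrictSupport K (Ed (Sum.elim c' id : σ ⊕ κ → κ) b)) {a : σ →₀ ℕ}
    (ha : a ∈ (spc (y₁ : σ ⊕ κ → MvPolynomial σ K) F).support) : a.mapDomain c' ≤ b := by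
  classical
  rw [mem_support_iff] at ha
  rw [F.as_sum, map_sum, coeff_sum] at ha
  obtain ⟨u, hu, hne⟩ := Finset.exists_ne_zero_of_sum_ne_zero ha
  rw [spc_y₁, coeff_monomial] at hne
  have h1 : resL u = a := by
    by_contra h
    rw [if_neg h] at hne
    exact hne rfl
  have h2 : u.mapDomain (Sum.elim c' id) = b := (mem_restrictSupport_iff K).1 hF hu
  rw [mdeg_kk, h1] at h2
  rw [← h2]
  exact le_self_add

/-- a multihomogeneous polynomial is the product of a monomial in the new variables and a
homogenization -/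
theorem eq_homog (c' : σ → κ) {b : κ →₀ ℕ} {F : MvPolynomial (σ ⊕ κ) K}
    (hF : F ∈ restrictSupport K (Ed (Sum.elim c' id : σ ⊕ κ → κ) b)) :
    F = monomial (join 0 (b - topDeg c' (spc (y₁ : σ ⊕ κ → MvPolynomial σ K) F))) 1 *
      homog c' (spc (y₁ : σ ⊕ κ → MvPolynomial σ K) F) := by
  classical
  set f := spc (y₁ : σ ⊕ κ → MvPolynomial σ K) F with hf
  have htop : topDeg c' f ≤ b := Finset.sup_le fun a ha => supp_spc_y₁ c' hF ha
  have h1 : monomial (join 0 (b - topDeg c' f)) 1 * homog c' f =
      ∑ a ∈ f.support, monomial (join a (b - a.mapDomain c')) (coeff a f) := by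
    rw [homog, Finset.mul_sum]
    refine Finset.sum_congr rfl fun a ha => ?_
    have h2 := le_topDeg c' ha
    rw [monomial_mul, one_mul]
    congr 1
    rw [join, join, Finsupp.mapDomain_zero, zero_add, add_left_comm, ← Finsupp.mapDomain_add,
      tsub_add_tsub_cancel htop h2]
  rw [h1]
  ext u
  rw [coeff_sum]
  simp only [coeff_monomial]
  by_cases hu : u.mapDomain (Sum.elim c' id : σ ⊕ κ → κ) = b
  · rw [← coeff_spc_y₁ c' hF u hu]
    have h3 := hu
    rw [mdeg_kk] at h3
    rw [Finset.sum_eq_single (resL u)]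
    · rw [if_pos]
      rw [← h3, add_tsub_cancel_left, join_res]
    · intro a ha hne
      rw [if_neg]
      intro h
      exact hne (eq_join_iff.1 h.symm).1.symm
    · intro h
      rw [notMem_support_iff.1 h, ite_self]
  · have h4 : coeff u F = 0 := by
      by_contra h
      exact hu ((mem_restrictSupport_iff K).1 hF (mem_support_iff.2 h))
    rw [h4]
    symm
    apply Finset.sum_eq_zero
    intro a ha
    rw [if_neg]
    intro h
    apply hu
    rw [mdeg_kk, (eq_join_iff.1 h.symm).1, (eq_join_iff.1 h.symm).2]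
    exact add_tsub_cancel_of_le (supp_spc_y₁ c' hF ha)

theorem mem_homIdeal_iff [Infinite K] {c : σ → ι} {c' : σ → κ} {j : κ → Option ι}
    (hj : ∀ i, j (c' i) = some (c i)) {I : Ideal (MvPolynomial σ K)} (hI : IsGraded c I)
    {F : MvPolynomial (σ ⊕ κ) K} :
    F ∈ homIdeal c' I ↔ ∀ s v, Psi c' j s v F ∈ I := by
  classical
  constructor
  · intro h s v
    have h1 : homIdeal c' I ≤ I.comap (Psi c' j s v) := by
      rw [homIdeal, Ideal.span_le]
      rintro _ ⟨f, hf, -, rfl⟩
      exact Psi_homog hj hI hf s v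
    exact h1 h
  · intro h
    have h1 : F ∈ reesI (wt (Sum.elim c' id : σ ⊕ κ → κ)) y₁ I := by
      rw [mem_reesI]
      intro s
      have h2 := h s (fun _ => 1)
      have h3 : Psi c' j s (fun _ => 1) = psi (wt (Sum.elim c' id : σ ⊕ κ → κ)) y₁ s := by
        apply MvPolynomial.algHom_ext
        rintro (i | k)
        · rw [Psi, aeval_X, psi_X]
          change s (c' i) • (X i : MvPolynomial σ K) = evs s (Finsupp.single (c' i) 1) • X i
          rw [evs_single, pow_one]
        · rw [Psi, aeval_X, psi_X]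
          change (s k * 1) • (1 : MvPolynomial σ K) = evs s (Finsupp.single k 1) • 1
          rw [evs_single, pow_one, mul_one]
      rw [← h3]
      exact h2
    rw [mem_reesI'] at h1
    obtain ⟨D, hD⟩ := sum_hcomp (Sum.elim c' id : σ ⊕ κ → κ) F
    rw [hD]
    refine Ideal.sum_mem _ fun b _ => ?_
    have h2 := h1 b
    change spc y₁ (hcomp (Sum.elim c' id : σ ⊕ κ → κ) b F) ∈ I at h2
    rw [eq_homog c' (hcomp_mem (Sum.elim c' id : σ ⊕ κ → κ) b F)]
    apply Ideal.mul_mem_left
    by_cases h0 : spc (y₁ : σ ⊕ κ → MvPolynomial σ K)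
        (hcomp (Sum.elim c' id : σ ⊕ κ → κ) b F) = 0
    · rw [h0, homog, support_zero, Finset.sum_empty]
      exact Submodule.zero_mem _
    · exact Ideal.subset_span ⟨_, h2, h0, rfl⟩

theorem mem_starIdeal_iff {c' : σ → κ} {I : Ideal (MvPolynomial σ K)} {f : MvPolynomial σ K} :
    f ∈ starIdeal c' I ↔ ∀ b, hcomp c' b f ∈ I := by
  classical
  constructor
  · intro h
    rw [starIdeal] at h
    refine Submodule.span_induction (p := fun f _ => ∀ b, hcomp c' b f ∈ I) ?_ ?_ ?_ ?_ h
    · rintro f ⟨hf, d, hd⟩ b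
      have h1 : f ∈ restrictSupport K (Ed c' d) := by
        rw [mem_restrictSupport_iff]
        exact fun a ha => hd a ha
      by_cases hb : b = d
      · rw [hb, hcomp_eq_self h1]; exact hf
      · rw [hcomp_eq_zero h1 hb]; exact I.zero_mem
    · intro b; rw [map_zero]; exact I.zero_mem
    · intro x y _ _ hx hy b
      rw [map_add]; exact I.add_mem (hx b) (hy b)
    · intro a x _ hx b
      obtain ⟨D, hD⟩ := sum_hcomp c' x
      obtain ⟨D', hD'⟩ := sum_hcomp c' a
      rw [smul_eq_mul, hD, hD', Finset.sum_mul_sum, map_sum]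
      refine Ideal.sum_mem _ fun e' _ => ?_
      rw [map_sum]
      refine Ideal.sum_mem _ fun e _ => ?_
      have h2 : hcomp c' e' a * hcomp c' e x ∈ restrictSupport K (Ed c' (e' + e)) := by
        rw [mem_restrict_iff_hom]
        exact (mem_restrict_iff_hom.1 (hcomp_mem c' e' a)).mul
          (mem_restrict_iff_hom.1 (hcomp_mem c' e x))
      by_cases hb : b = e' + e
      · rw [hb, hcomp_eq_self h2]
        exact I.mul_mem_left _ (hx e)
      · rw [hcomp_eq_zero h2 hb]; exact I.zero_mem
  · intro h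
    obtain ⟨D, hD⟩ := sum_hcomp c' f
    rw [hD]
    refine Ideal.sum_mem _ fun b _ => Ideal.subset_span ⟨h b, b, fun a ha => ?_⟩
    exact (mem_restrictSupport_iff K).1 (hcomp_mem c' b f) ha

theorem star_eq [Infinite K] {c : σ → ι} {c' : σ → κ} (hfine : ∀ i j, c' i = c' j → c i = c j)
    {I : Ideal (MvPolynomial σ K)} (hI : IsGraded c I) {j : κ → Option ι}
    (hj : ∀ i, j (c' i) = some (c i)) :
    starIdeal c' I = (homIdeal c' I).comap (rename Sum.inl) := by
  classical
  ext f
  rw [Ideal.mem_comap, mem_homIdeal_iff hj hI, mem_starIdeal_iff]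
  have h1 : ∀ s v, Psi c' j s v (rename Sum.inl f) =
      psi (wt c') (X : σ → MvPolynomial σ K) s f := by
    intro s v
    have h2 : (Psi c' j s v).comp (rename Sum.inl) =
        psi (wt c') (X : σ → MvPolynomial σ K) s := by
      apply MvPolynomial.algHom_ext
      intro i
      rw [AlgHom.comp_apply, rename_X, Psi, aeval_X, psi_X]
      change s (c' i) • (X i : MvPolynomial σ K) = evs s (Finsupp.single (c' i) 1) • X i
      rw [evs_single, pow_one]
    exact DFunLike.congr_fun h2 f
  have h3 : (∀ b, hcomp c' b f ∈ I) ↔ f ∈ reesI (wt c') (X : σ → MvPolynomial σ K) I := by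
    rw [mem_reesI']
    refine forall_congr' fun b => ?_
    have : spc (X : σ → MvPolynomial σ K) (weightedHomogeneousComponent (wt c') b f) =
        hcomp c' b f := by
      rw [spc, aeval_X_left, AlgHom.id_apply]
      rfl
    rw [this]
  rw [h3, mem_reesI]
  constructor
  · intro h s v
    rw [h1]; exact h s
  · intro h s
    rw [← h1 s (fun _ => 1)]
    exact h s _

variable [Infinite K] [Fintype σ] [DecidableEq σ] [Fintype ι] [DecidableEq ι] [Fintype κ]
  [DecidableEq κ]

/-- the multihomogenization of a Cartwright-Sturmfels ideal -/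
theorem hom_rad {c : σ → ι} {c' : σ → κ} {j : κ → Option ι} (hj : ∀ i, j (c' i) = some (c i))
    {I : Ideal (MvPolynomial σ K)} (hI : IsGraded c I) (hR : Rad c I) :
    IsGraded (Sum.elim c' id : σ ⊕ κ → κ) (homIdeal c' I) ∧
      Rad (Sum.elim c' id : σ ⊕ κ → κ) (homIdeal c' I) := by
  classical
  set c₀ : σ ⊕ Option ι → Option ι := Sum.elim (fun i => some (c i)) id with hc₀
  set J₀ := extI (Option ι) I with hJ₀
  have hφ : Function.Injective (some : ι → Option ι) := Option.some_injective ι
  have hc0 : ∀ i, c₀ (Sum.inl i) = some (c i) := fun _ => rfl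
  have hg0 : IsGraded c₀ J₀ := graded_extI hφ hc0 hI
  have hr0 : Rad c₀ J₀ := extI_rad hφ hc0 hI hR
  set kk : σ ⊕ κ → κ := Sum.elim c' id with hkk
  set ll : σ ⊕ κ → σ ⊕ Option ι := Sum.elim Sum.inl (fun k => Sum.inr (j k)) with hll
  obtain ⟨hg1, hr1⟩ := multi_rad hg0 hr0 j Finset.univ (σ ⊕ κ) kk ll
    (by
      rintro (a | a) (b | b) h1 h2
      · exact congrArg Sum.inl (Sum.inl_injective h2)
      · exact absurd h2 (by simp [hll])
      · exact absurd h2 (by simp [hll])
      · exact congrArg Sum.inr h1)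
    (fun w => Finset.mem_univ _)
    (by
      rintro (a | a)
      · exact (hj a).symm
      · rfl)
  have hinr : Function.Injective (Sum.inr : σ ⊕ κ → (σ ⊕ Option ι) ⊕ (σ ⊕ κ)) :=
    Sum.inr_injective
  have hφ2 : Function.Injective (Sum.inr : κ → Option ι ⊕ κ) := Sum.inr_injective
  have hc2 : ∀ w, cM c₀ kk (Sum.inr w) = Sum.inr (kk w) := fun _ => rfl
  have hg2 := graded_comap hinr hφ2 hc2 hg1
  have hr2 := comap_rad hinr hφ2 hc2 hg1 hr1
  have heq : (RM kk ll J₀).comap (rename Sum.inr) = homIdeal c' I := by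
    ext F
    rw [Ideal.mem_comap, mem_homIdeal_iff hj hI, RM, mem_reesI]
    have hcomp : ∀ (s : κ → K) (v : Option ι → K),
        ((psi e₁ y₁ v).comp (psi (eM kk) (yM ll) s)).comp (rename Sum.inr) = Psi c' j s v := by
      intro s v
      apply MvPolynomial.algHom_ext
      rintro (i | k)
      · rw [AlgHom.comp_apply, rename_X, AlgHom.comp_apply, psi_X, Psi, aeval_X]
        change psi e₁ y₁ v (evs s (Finsupp.single (c' i) 1) • X (Sum.inl i)) =
          s (c' i) • (X i : MvPolynomial σ K)
        rw [map_smul, psi_X, evs_single, pow_one]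
        change s (c' i) • evs v 0 • (X i : MvPolynomial σ K) = _
        rw [evs_zero, one_smul]
      · rw [AlgHom.comp_apply, rename_X, AlgHom.comp_apply, psi_X, Psi, aeval_X]
        change psi e₁ y₁ v (evs s (Finsupp.single k 1) • X (Sum.inr (j k))) =
          (s k * v (j k)) • (1 : MvPolynomial σ K)
        rw [map_smul, psi_X, evs_single, pow_one]
        change s k • evs v (Finsupp.single (j k) 1) • (1 : MvPolynomial σ K) = _
        rw [evs_single, pow_one, smul_smul]
    constructor
    · intro h s v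
      have h1 := h s
      rw [hJ₀, extI, mem_reesI] at h1
      rw [← hcomp]
      exact h1 v
    · intro h s
      rw [hJ₀, extI, mem_reesI]
      intro v
      have h1 := h s v
      rw [← hcomp] at h1
      exact h1
  rw [heq] at hg2 hr2
  exact ⟨hg2, hr2⟩

end Pool.Agent.H874.CS
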