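import Pool.Agent.H874.CS.Theta4

/-!
# Iterated Rees-type extensions
-/

open MvPolynomial

namespace Pool.Agent.H874.CS

variable {τ ω κ ι K : Type*} [Field K]

/-- parameters of the iterated extension -/
noncomputable def eM (k : ω → κ) : τ ⊕ ω → κ →₀ ℕ :=
  Sum.elim (fun _ => 0) fun w => Finsupp.single (k w) 1

/-- values of the iterated extension -/
noncomputable def yM (l : ω → τ) : τ ⊕ ω → MvPolynomial τ K := Sum.elim X fun w => X (l w)

/-- the iterated Rees-type extension -/
noncomputable def RM (k : ω → κ) (l : ω → τ) (J : Ideal (MvPolynomial τ K)) :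
    Ideal (MvPolynomial (τ ⊕ ω) K) := reesI (eM k) (yM l) J

/-- its grading -/
def cM (c : τ → ι) (k : ω → κ) : τ ⊕ ω → ι ⊕ κ :=
  Sum.elim (fun i => Sum.inl (c i)) fun w => Sum.inr (k w)

theorem multi_rad [Infinite K] [Fintype τ] [DecidableEq τ] [Fintype ι] [DecidableEq ι] [Fintype κ]
    [DecidableEq κ] {c : τ → ι} {J : Ideal (MvPolynomial τ K)} (hJ : IsGraded c J)
    (hR : Rad c J) (j : κ → ι) (S : Finset κ) :
    ∀ (ω : Type*) [Fintype ω] [DecidableEq ω] (k : ω → κ) (l : ω → τ),
      (∀ w w', k w = k w' → l w = l w' → w = w') → (∀ w, k w ∈ S) → (∀ w, c (l w) = j (k w)) →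
      IsGraded (cM c k) (RM k l J) ∧ Rad (cM c k) (RM k l J) := by
  classical
  induction S using Finset.induction_on with
  | empty =>
    intro ω _ _ k l _ hS _
    have hemp : IsEmpty ω := ⟨fun w => absurd (hS w) (Finset.notMem_empty _)⟩
    set f : τ ⊕ ω → τ := Sum.elim id (fun w => l w) with hfdef
    have hfinj : Function.Injective f := by
      rintro (a | a) (b | b) h
      · exact congrArg Sum.inl h
      · exact hemp.elim b
      · exact hemp.elim a
      · exact hemp.elim a
    have heq : RM k l J = J.comap (rename f) := by
      ext F
      rw [RM, mem_reesI, Ideal.mem_comap]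
      have hpsi : ∀ s : κ → K, psi (eM k) (yM l) s = rename f := by
        intro s
        apply MvPolynomial.algHom_ext
        rintro (a | a)
        · rw [psi_X, rename_X]
          change evs s 0 • (X a : MvPolynomial τ K) = X a
          rw [evs_zero, one_smul]
        · exact hemp.elim a
      constructor
      · intro h
        have := h (fun _ => 0)
        rwa [hpsi] at this
      · intro h s
        rw [hpsi]; exact h
    -- the gradings differ by an injection of the groups
    obtain hι | hι := isEmpty_or_nonempty ι
    · have hτ : IsEmpty τ := ⟨fun t => hι.elim (c t)⟩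
      have hrad : ∀ I : Ideal (MvPolynomial (τ ⊕ ω) K), I.IsRadical := by
        intro I
        have hem : IsEmpty (τ ⊕ ω) := by
          rw [isEmpty_sum]; exact ⟨hτ, hemp⟩
        rintro F ⟨n, hn⟩
        by_cases h0 : F = 0
        · rw [h0]; exact I.zero_mem
        have hF : F = C (coeff 0 F) := by
          rw [eq_C_of_isEmpty F]
          simp
        have hne : coeff 0 F ≠ 0 := by
          intro h; rw [h, C_0] at hF; exact h0 hF
        have hu : IsUnit (F ^ n) := by
          rw [hF]
          exact ((isUnit_iff_ne_zero.2 hne).map C).pow n
        rw [Ideal.eq_top_of_isUnit_mem I hn hu]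
        exact Submodule.mem_top
      refine ⟨?_, fun I _ _ => hrad I⟩
      intro F hF d
      have hem : IsEmpty (τ ⊕ ω) := by
        rw [isEmpty_sum]; exact ⟨hτ, hemp⟩
      by_cases hd : d = 0
      · have : hcomp (cM c k) d F = F := by
          apply hcomp_eq_self
          rw [mem_restrictSupport_iff]
          intro a _
          rw [mem_Ed, hd, Subsingleton.elim a 0, Finsupp.mapDomain_zero]
        rw [this]; exact hF
      · have : hcomp (cM c k) d F = 0 := by
          apply hcomp_eq_zero (d := 0) _ hd
          rw [mem_restrictSupport_iff]
          intro a _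
          rw [mem_Ed, Subsingleton.elim a 0, Finsupp.mapDomain_zero]
        rw [this]; exact Ideal.zero_mem _
    · -- extend the map `Sum.inl` of the groups: use the grading with values in `ι`
      have hgr : ∀ I : Ideal (MvPolynomial (τ ⊕ ω) K),
          IsGraded (fun v => c (f v)) I ↔ IsGraded (cM c k) I := by
        intro I
        have hcc : ∀ v, cM c k v = Sum.inl (c (f v)) := by
          rintro (a | a)
          · rfl
          · exact hemp.elim a
        have hh : ∀ (F : MvPolynomial (τ ⊕ ω) K) (d : ι →₀ ℕ),
            hcomp (cM c k) (d.mapDomain Sum.inl) F = hcomp (fun v => c (f v)) d F := by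
          intro F d
          have := hcomp_rename (f := id) Function.injective_id (c := cM c k)
            (c' := fun v => c (f v)) (φ := Sum.inl) Sum.inl_injective (fun v => hcc v) d F
          rw [rename_id_apply, rename_id_apply] at this
          exact this.symm
        constructor
        · intro h F hF d
          by_cases hd : ∃ e : ι →₀ ℕ, e.mapDomain Sum.inl = d
          · obtain ⟨e, rfl⟩ := hd
            rw [hh]; exact h F hF e
          · have : hcomp (cM c k) d F = 0 := by
              ext a
              rw [coeff_hcomp, if_neg, coeff_zero]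
              intro h'
              apply hd
              refine ⟨a.mapDomain (fun v => c (f v)), ?_⟩
              rw [← h', ← Finsupp.mapDomain_comp]
              congr 1
              funext v
              exact (hcc v).symm
            rw [this]; exact I.zero_mem
        · intro h F hF d
          rw [← hh]; exact h F hF _
      have hhf : ∀ (I : Ideal (MvPolynomial (τ ⊕ ω) K)) (d : ι →₀ ℕ),
          hf (cM c k) I (d.mapDomain Sum.inl) = hf (fun v => c (f v)) I d := by
        intro I d
        rw [CS.hf, CS.hf]
        congr 1
        ext a
        rw [mem_Ed, mem_Ed]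
        have : a.mapDomain (cM c k) = (a.mapDomain (fun v => c (f v))).mapDomain Sum.inl := by
          rw [← Finsupp.mapDomain_comp]
          congr 1
          funext v
          rcases v with a | a
          · rfl
          · exact hemp.elim a
        rw [this]
        exact ⟨fun h => Finsupp.mapDomain_injective Sum.inl_injective h, fun h => by rw [h]⟩
      have h1 := graded_comap (f := f) hfinj (c := c) (c' := fun v => c (f v)) (φ := id)
        Function.injective_id (fun _ => rfl) hJ
      have h2 := comap_rad (f := f) hfinj (c := c) (c' := fun v => c (f v)) (φ := id)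
        Function.injective_id (fun _ => rfl) hJ hR
      rw [heq]
      refine ⟨(hgr _).1 h1, fun I hI hd => ?_⟩
      apply h2 I ((hgr I).2 hI)
      intro d
      rw [← hhf, ← hhf, hd]
  | insert k₀ S hk₀ ih =>
    intro ω _ _ k l hinj hS hcl
    -- the variables which belong to the other groups
    set ω' := {w : ω // k w ≠ k₀} with hω'
    set k' : ω' → κ := fun w => k w with hk'
    set l' : ω' → τ := fun w => l w with hl'
    obtain ⟨hg', hr'⟩ := ih ω' k' l' (fun w w' h1 h2 => Subtype.ext (hinj _ _ h1 h2))
      (fun w => by
        have := hS w
        rw [Finset.mem_insert] at this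
        exact this.resolve_left w.2) (fun w => hcl w)
    set L : Finset (τ ⊕ ω') := (Finset.univ.filter fun w => k w = k₀).image
      (fun w => Sum.inl (l w)) with hL
    have hLmem : ∀ w, k w = k₀ → (Sum.inl (l w) : τ ⊕ ω') ∈ L := fun w hw =>
      Finset.mem_image_of_mem _ (Finset.mem_filter.2 ⟨Finset.mem_univ w, hw⟩)
    have hLc : ∀ v ∈ L, cM c k' v = Sum.inl (j k₀) := by
      intro v hv
      obtain ⟨w, hw, rfl⟩ := Finset.mem_image.1 hv
      rw [Finset.mem_filter] at hw
      change Sum.inl (c (l w)) = Sum.inl (j k₀)
      rw [hcl, hw.2]
    set f : τ ⊕ ω → (τ ⊕ ω') ⊕ L := Sum.elim (fun i => Sum.inl (Sum.inl i))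
      (fun w => if h : k w = k₀ then Sum.inr ⟨Sum.inl (l w), hLmem w h⟩
        else Sum.inl (Sum.inr ⟨w, h⟩)) with hf
    have hf1 : ∀ i, f (Sum.inl i) = Sum.inl (Sum.inl i) := fun i => rfl
    have hf2 : ∀ w (h : k w = k₀), f (Sum.inr w) = Sum.inr ⟨Sum.inl (l w), hLmem w h⟩ := by
      intro w h
      change (if h : k w = k₀ then _ else _) = _
      rw [dif_pos h]
    have hf3 : ∀ w (h : k w ≠ k₀), f (Sum.inr w) = Sum.inl (Sum.inr ⟨w, h⟩) := by
      intro w h
      change (if h : k w = k₀ then _ else _) = _
      rw [dif_neg h]
    have hfinj : Function.Injective f := by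
      rintro (a | a) (b | b) h
      · rw [hf1, hf1] at h
        exact congrArg Sum.inl (Sum.inl_injective (Sum.inl_injective h))
      · by_cases hb : k b = k₀
        · rw [hf1, hf2 b hb] at h; exact absurd h (by simp)
        · rw [hf1, hf3 b hb] at h; exact absurd (Sum.inl_injective h) (by simp)
      · by_cases ha : k a = k₀
        · rw [hf1, hf2 a ha] at h; exact absurd h (by simp)
        · rw [hf1, hf3 a ha] at h; exact absurd (Sum.inl_injective h) (by simp)
      · by_cases ha : k a = k₀ <;> by_cases hb : k b = k₀
        · rw [hf2 a ha, hf2 b hb] at h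
          have h1 := congrArg Subtype.val (Sum.inr_injective h)
          exact congrArg Sum.inr (hinj a b (ha.trans hb.symm) (Sum.inl_injective h1))
        · rw [hf2 a ha, hf3 b hb] at h; exact absurd h (by simp)
        · rw [hf3 a ha, hf2 b hb] at h; exact absurd h (by simp)
        · rw [hf3 a ha, hf3 b hb] at h
          have h1 := congrArg Subtype.val (Sum.inr_injective (Sum.inl_injective h))
          exact congrArg Sum.inr h1
    set φ : ι ⊕ κ → Option (ι ⊕ κ) := fun v => if v = Sum.inr k₀ then none else some v with hφ
    have hφinj : Function.Injective φ := by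
      intro a b h
      simp only [hφ] at h
      by_cases ha : a = Sum.inr k₀ <;> by_cases hb : b = Sum.inr k₀
      · rw [ha, hb]
      · rw [if_pos ha, if_neg hb] at h; exact absurd h (by simp)
      · rw [if_neg ha, if_pos hb] at h; exact absurd h (by simp)
      · rw [if_neg ha, if_neg hb] at h; exact Option.some_injective _ h
    have hfc : ∀ v, cT (cM c k') L (f v) = φ (cM c k v) := by
      rintro (i | w)
      · rw [hf1]
        change some (Sum.inl (c i)) = φ (Sum.inl (c i))
        simp only [hφ]
        rw [if_neg (by simp)]
      · by_cases hw : k w = k₀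
        · rw [hf2 w hw]
          change none = φ (Sum.inr (k w))
          simp only [hφ]
          rw [if_pos (by rw [hw])]
        · rw [hf3 w hw]
          change some (Sum.inr (k w)) = φ (Sum.inr (k w))
          simp only [hφ]
          rw [if_neg]
          intro h
          exact hw (Sum.inr_injective h)
    have hgT := graded_theta hLc hg'
    have hrT := theta_rad hLc hg' hr'
    have heq : RM k l J = (theta L (RM k' l' J)).comap (rename f) := by
      ext F
      rw [RM, mem_reesI, Ideal.mem_comap, theta, mem_reesI]
      have hcomp : ∀ (s : κ → K) (t : Unit → K),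
          ((psi (eM k') (yM l') s).comp (psi (e₂ L) (y₂ L) t)).comp (rename f) =
            psi (eM k) (yM l) (Function.update s k₀ (t ())) := by
        intro s t
        apply MvPolynomial.algHom_ext
        rintro (i | w)
        · rw [AlgHom.comp_apply, rename_X, hf1, AlgHom.comp_apply, psi_X, psi_X]
          change (psi (eM k') (yM l') s) (evs t 0 • (X (Sum.inl i) : MvPolynomial (τ ⊕ ω') K)) =
            evs _ 0 • (X i : MvPolynomial τ K)
          rw [evs_zero, one_smul, psi_X, evs_zero, one_smul]
          change evs s 0 • (X i : MvPolynomial τ K) = X i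
          rw [evs_zero, one_smul]
        · by_cases hw : k w = k₀
          · rw [AlgHom.comp_apply, rename_X, hf2 w hw, AlgHom.comp_apply, psi_X, psi_X]
            change (psi (eM k') (yM l') s) (evs t (Finsupp.single () 1) •
              (X (Sum.inl (l w)) : MvPolynomial (τ ⊕ ω') K)) =
              evs _ (Finsupp.single (k w) 1) • (X (l w) : MvPolynomial τ K)
            rw [evs_single, evs_single, pow_one, pow_one, hw, Function.update_self, map_smul,
              psi_X]
            change t () • evs s 0 • (X (l w) : MvPolynomial τ K) = _
            rw [evs_zero, one_smul]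
          · rw [AlgHom.comp_apply, rename_X, hf3 w hw, AlgHom.comp_apply, psi_X, psi_X]
            change (psi (eM k') (yM l') s) (evs t 0 •
              (X (Sum.inr ⟨w, hw⟩) : MvPolynomial (τ ⊕ ω') K)) =
              evs _ (Finsupp.single (k w) 1) • (X (l w) : MvPolynomial τ K)
            rw [evs_single, pow_one, Function.update_of_ne hw, evs_zero, one_smul, psi_X]
            change evs s (Finsupp.single (k w) 1) • (X (l w) : MvPolynomial τ K) = _
            rw [evs_single, pow_one]
      constructor
      · intro h t
        rw [RM, mem_reesI]
        intro s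
        have := h (Function.update s k₀ (t ()))
        rw [← hcomp] at this
        exact this
      · intro h s
        have h1 := h (fun _ => s k₀)
        rw [RM, mem_reesI] at h1
        have h2 := h1 s
        have h3 := hcomp s (fun _ => s k₀)
        rw [Function.update_eq_self] at h3
        rw [← h3]
        exact h2
    rw [heq]
    exact ⟨graded_comap hfinj hφinj hfc hgT, comap_rad hfinj hφinj hfc hgT hrT⟩

end Pool.Agent.H874.CS
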