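import Pool.Agent.H874.CS.Rees

/-!
# Adding variables
-/

open MvPolynomial

namespace Pool.Agent.H874.CS

variable {σ τ ι ι' K : Type*} [Field K]

theorem resL_zero : resL (0 : σ ⊕ τ →₀ ℕ) = 0 := by ext i; rfl

theorem resR_zero : resR (0 : σ ⊕ τ →₀ ℕ) = 0 := by ext i; rfl

/-- put together the exponents of the two kinds of variables -/
noncomputable def join (a : σ →₀ ℕ) (b : τ →₀ ℕ) : σ ⊕ τ →₀ ℕ :=
  a.mapDomain Sum.inl + b.mapDomain Sum.inr

theorem resL_join (a : σ →₀ ℕ) (b : τ →₀ ℕ) : resL (join a b) = a := by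
  ext i
  rw [join, resL_apply, Finsupp.add_apply, Finsupp.mapDomain_apply Sum.inl_injective,
    Finsupp.mapDomain_of_notMem_range _ _ (by simp), add_zero]

theorem resR_join (a : σ →₀ ℕ) (b : τ →₀ ℕ) : resR (join a b) = b := by
  ext i
  rw [join, resR_apply, Finsupp.add_apply, Finsupp.mapDomain_apply Sum.inr_injective,
    Finsupp.mapDomain_of_notMem_range _ _ (by simp), zero_add]

theorem join_res (u : σ ⊕ τ →₀ ℕ) : join (resL u) (resR u) = u := (decomp_LR u).symm

theorem eq_join_iff {u : σ ⊕ τ →₀ ℕ} {a : σ →₀ ℕ} {b : τ →₀ ℕ} :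
    u = join a b ↔ resL u = a ∧ resR u = b := by
  constructor
  · rintro rfl; exact ⟨resL_join a b, resR_join a b⟩
  · rintro ⟨rfl, rfl⟩; exact (join_res u).symm

/-- parameters for the extension of the polynomial ring -/
noncomputable def e₁ : σ ⊕ τ → τ →₀ ℕ := Sum.elim (fun _ => 0) fun t => Finsupp.single t 1

/-- values for the extension of the polynomial ring -/
noncomputable def y₁ : σ ⊕ τ → MvPolynomial σ K := Sum.elim X fun _ => 1

theorem weight_e₁ (u : σ ⊕ τ →₀ ℕ) : Finsupp.weight (e₁ : σ ⊕ τ → τ →₀ ℕ) u = resR u := by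
  induction u using Finsupp.induction_linear with
  | zero => rw [map_zero, resR_zero]
  | add a b ha hb => rw [map_add, ha, hb, resR_add]
  | single j n =>
    rw [Finsupp.weight_single]
    rcases j with j | j
    · rw [resR_single_inl]
      simp [e₁]
    · rw [resR_single_inr]
      simp [e₁]

theorem spc_y₁ (u : σ ⊕ τ →₀ ℕ) (r : K) :
    spc (y₁ : σ ⊕ τ → MvPolynomial σ K) (monomial u r) = monomial (resL u) r := by
  have key : spc (y₁ : σ ⊕ τ → MvPolynomial σ K) (monomial u 1) = monomial (resL u) 1 := by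
    induction u using Finsupp.induction_linear with
    | zero => rw [resL_zero, show (monomial 0 (1 : K)) = 1 from rfl, map_one]; rfl
    | add a b ha hb =>
      rw [← one_mul (1 : K), ← monomial_mul, map_mul, ha, hb, resL_add, ← monomial_mul]
    | single j n =>
      rw [← X_pow_eq_monomial, map_pow, spc_X]
      rcases j with j | j
      · rw [resL_single_inl, ← X_pow_eq_monomial]; rfl
      · rw [resL_single_inr]
        simp [y₁]
  have h1 : (monomial u r : MvPolynomial (σ ⊕ τ) K) = r • monomial u 1 := by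
    rw [smul_monomial, smul_eq_mul, mul_one]
  rw [h1, map_smul, key, smul_monomial, smul_eq_mul, mul_one]

/-- the coefficient of the monomial `b` in the new variables -/
noncomputable def cof (b : τ →₀ ℕ) (F : MvPolynomial (σ ⊕ τ) K) : MvPolynomial σ K :=
  spc (y₁ : σ ⊕ τ → MvPolynomial σ K) (weightedHomogeneousComponent e₁ b F)

theorem coeff_cof (b : τ →₀ ℕ) (F : MvPolynomial (σ ⊕ τ) K) (a : σ →₀ ℕ) :
    coeff a (cof b F) = coeff (join a b) F := by
  classical
  rw [cof, weightedHomogeneousComponent_apply, map_sum, coeff_sum]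
  simp only [spc_y₁, coeff_monomial, weight_e₁]
  rw [Finset.sum_filter]
  by_cases h : join a b ∈ F.support
  · rw [Finset.sum_eq_single (join a b)]
    · rw [if_pos (resR_join a b), if_pos (resL_join a b)]
    · intro u _ hu
      by_cases h1 : resR u = b
      · rw [if_pos h1, if_neg]
        intro h2
        exact hu (eq_join_iff.2 ⟨h2, h1⟩)
      · rw [if_neg h1]
    · intro h'; exact absurd h h'
  · rw [notMem_support_iff.1 h]
    apply Finset.sum_eq_zero
    intro u hu
    by_cases h1 : resR u = b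
    · rw [if_pos h1, if_neg]
      intro h2
      exact h ((eq_join_iff.2 ⟨h2, h1⟩) ▸ hu)
    · rw [if_neg h1]

/-- the extension of an ideal to a polynomial ring -/
noncomputable def extI (τ : Type*) (I : Ideal (MvPolynomial σ K)) :
    Ideal (MvPolynomial (σ ⊕ τ) K) := reesI (e₁ : σ ⊕ τ → τ →₀ ℕ) y₁ I

theorem mem_extI [Infinite K] {I : Ideal (MvPolynomial σ K)} {F : MvPolynomial (σ ⊕ τ) K} :
    F ∈ extI τ I ↔ ∀ b, cof b F ∈ I := mem_reesI'

theorem degree_eq (m : MonomialOrder σ) {F : MvPolynomial σ K} {u : σ →₀ ℕ}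
    (hu : u ∈ F.support) (h : ∀ v ∈ F.support, m.toSyn v ≤ m.toSyn u) : m.degree F = u :=
  m.toSyn.injective (le_antisymm ((m.degree_le_iff).2 h) (m.le_degree hu))

/-- product order -/
noncomputable def pMap (m : MonomialOrder σ) (m' : MonomialOrder τ) :
    (σ ⊕ τ →₀ ℕ) →+ (m.syn ×ₗ m'.syn) where
  toFun a := toLex (m.toSyn (resL a), m'.toSyn (resR a))
  map_zero' := by
    rw [resL_zero, resR_zero, map_zero, map_zero]; rfl
  map_add' a b := by
    rw [resL_add, resR_add, map_add, map_add]; rfl

/-- product order -/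
noncomputable def pOrder (m : MonomialOrder σ) (m' : MonomialOrder τ) : MonomialOrder (σ ⊕ τ) :=
  ofInj (pMap m m') (by
    intro a b h
    have h1 : (m.toSyn (resL a), m'.toSyn (resR a)) = (m.toSyn (resL b), m'.toSyn (resR b)) :=
      toLex.injective h
    rw [← join_res a, ← join_res b, m.toSyn.injective (congrArg Prod.fst h1),
      m'.toSyn.injective (congrArg Prod.snd h1)]) (by
    intro a b h
    change toLex (m.toSyn (resL a), m'.toSyn (resR a)) ≤
      toLex (m.toSyn (resL b), m'.toSyn (resR b))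
    rw [Prod.Lex.toLex_le_toLex']
    exact ⟨m.toSyn_monotone (resL_mono h), fun _ => m'.toSyn_monotone (resR_mono h)⟩)

theorem pOrder_le {m : MonomialOrder σ} {m' : MonomialOrder τ} {a b : σ ⊕ τ →₀ ℕ} :
    (pOrder m m').toSyn a ≤ (pOrder m m').toSyn b ↔
      m.toSyn (resL a) ≤ m.toSyn (resL b) ∧
      (m.toSyn (resL a) = m.toSyn (resL b) → m'.toSyn (resR a) ≤ m'.toSyn (resR b)) := by
  rw [pOrder, ofInj_le]
  exact Prod.Lex.toLex_le_toLex'

theorem lead_extI [Infinite K] (m : MonomialOrder σ) (m' : MonomialOrder τ)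
    (I : Ideal (MvPolynomial σ K)) :
    Lead (pOrder m m') (extI τ I : Set (MvPolynomial (σ ⊕ τ) K)) =
      resL ⁻¹' (Lead m (I : Set (MvPolynomial σ K))) := by
  classical
  ext u
  constructor
  · rintro ⟨F, hF, h0, rfl⟩
    have h1 := mem_extI.1 hF (resR ((pOrder m m').degree F))
    set u := (pOrder m m').degree F with hu
    have hu' := (pOrder m m').degree_mem_support h0
    have hc : resL u ∈ (cof (resR u) F).support := by
      rw [mem_support_iff, coeff_cof, join_res]
      exact mem_support_iff.1 hu'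
    refine ⟨_, h1, fun h => by rw [h] at hc; simp at hc, ?_⟩
    refine degree_eq m hc fun a ha => ?_
    rw [mem_support_iff, coeff_cof, ← mem_support_iff] at ha
    have := pOrder_le.1 ((pOrder m m').le_degree ha)
    rw [resL_join] at this
    exact this.1
  · rintro ⟨f, hf, h0, hfu⟩
    set F : MvPolynomial (σ ⊕ τ) K := rename Sum.inl f * monomial (join 0 (resR u)) 1 with hF
    have hcoeff : ∀ v, coeff v F = if resR v = resR u then coeff (resL v) f else 0 := by
      intro v
      rw [hF, coeff_mul_monomial', mul_one]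
      by_cases hle : join 0 (resR u) ≤ v
      · rw [if_pos hle]
        by_cases hR : resR v = resR u
        · rw [if_pos hR]
          have : v - join 0 (resR u) = (resL v).mapDomain Sum.inl := by
            ext i
            rw [Finsupp.tsub_apply]
            conv_lhs => rw [← join_res v, hR]
            rw [join, join, Finsupp.mapDomain_zero, zero_add, Finsupp.add_apply]
            omega
          rw [this, coeff_rename_mapDomain _ Sum.inl_injective]
        · rw [if_neg hR]
          apply coeff_rename_eq_zero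
          intro a ha
          exfalso
          apply hR
          ext i
          have h2 : (v - join 0 (resR u) : σ ⊕ τ →₀ ℕ) (Sum.inr i) = 0 := by
            rw [← ha, Finsupp.mapDomain_of_notMem_range _ _ (by simp)]
          have h3 : (join 0 (resR u) : σ ⊕ τ →₀ ℕ) (Sum.inr i) = resR u i := by
            have := congrArg (fun w => w i) (resR_join (0 : σ →₀ ℕ) (resR u))
            exact this
          rw [Finsupp.tsub_apply, h3] at h2
          have h4 := hle (Sum.inr i)
          rw [h3] at h4
          rw [resR_apply]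
          rw [resR_apply] at h2 h4 ⊢
          omega
      · rw [if_neg hle, if_neg]
        intro hR
        apply hle
        rw [← join_res v, hR]
        intro i
        rw [join, join, Finsupp.mapDomain_zero, zero_add, Finsupp.add_apply]
        omega
    have hu : u ∈ F.support := by
      rw [mem_support_iff, hcoeff, if_pos rfl, ← hfu]
      exact mem_support_iff.1 (m.degree_mem_support h0)
    refine ⟨F, ?_, fun h => by rw [h] at hu; simp at hu, degree_eq _ hu fun v hv => ?_⟩
    · rw [SetLike.mem_coe, mem_extI]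
      intro b
      by_cases hb : b = resR u
      · have : cof b F = f := by
          ext a
          rw [coeff_cof, hcoeff, resR_join, resL_join, if_pos hb]
        rw [this]; exact hf
      · have : cof b F = 0 := by
          ext a
          rw [coeff_cof, hcoeff, resR_join, if_neg hb, coeff_zero]
        rw [this]; exact I.zero_mem
    · rw [mem_support_iff, hcoeff] at hv
      by_cases hR : resR v = resR u
      · rw [if_pos hR] at hv
        rw [pOrder_le, hR]
        refine ⟨?_, fun _ => le_rfl⟩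
        rw [← hfu]
        exact m.le_degree (mem_support_iff.2 hv)
      · rw [if_neg hR] at hv
        exact absurd rfl hv

theorem mdeg_join {c : σ → ι} {c' : σ ⊕ τ → ι'} {φ : ι → ι'} (hc : ∀ i, c' (Sum.inl i) = φ (c i))
    (u : σ ⊕ τ →₀ ℕ) : u.mapDomain c' =
      ((resL u).mapDomain c).mapDomain φ + (resR u).mapDomain (fun t => c' (Sum.inr t)) := by
  conv_lhs => rw [← join_res u, join]
  rw [Finsupp.mapDomain_add, ← Finsupp.mapDomain_comp, ← Finsupp.mapDomain_comp,
    ← Finsupp.mapDomain_comp]
  congr 2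
  funext i
  exact hc i

theorem ext_fiber [Finite σ] [Finite τ] {c : σ → ι} {c' : σ ⊕ τ → ι'} {φ : ι → ι'}
    (hφ : Function.Injective φ) (hc : ∀ i, c' (Sum.inl i) = φ (c i)) {A B : Set (σ →₀ ℕ)}
    (h : ∀ e, (Ed c e \ A).ncard = (Ed c e \ B).ncard) (d : ι' →₀ ℕ) :
    (Ed c' d \ (resL ⁻¹' A)).ncard = (Ed c' d \ (resL ⁻¹' B)).ncard := by
  classical
  have hfin := finite_Ed c' d
  have key : ∀ A : Set (σ →₀ ℕ), (Ed c' d \ (resL ⁻¹' A)).ncard =
      ∑ b ∈ (hfin.image resR).toFinset,
        {u | u ∈ Ed c' d \ (resL ⁻¹' A) ∧ resR u = b}.ncard := by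
    intro A
    apply ncard_fiber _ (hfin.subset Set.sdiff_subset)
    intro u hu
    rw [Set.Finite.mem_toFinset]
    exact ⟨u, hu.1, rfl⟩
  rw [key, key]
  refine Finset.sum_congr rfl fun b hb => ?_
  rw [Set.Finite.mem_toFinset] at hb
  obtain ⟨u₀, hu₀, rfl⟩ := hb
  set e := (resL u₀).mapDomain c with he
  have key2 : ∀ A : Set (σ →₀ ℕ), {u | u ∈ Ed c' d \ (resL ⁻¹' A) ∧ resR u = resR u₀}.ncard =
      (Ed c e \ A).ncard := by
    intro A
    refine Set.ncard_congr (fun u _ => resL u) ?_ ?_ ?_
    · rintro u ⟨⟨h1, h2⟩, h3⟩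
      refine ⟨?_, h2⟩
      rw [mem_Ed] at h1 hu₀
      rw [← hu₀, mdeg_join hc, mdeg_join hc u₀, h3] at h1
      exact Finsupp.mapDomain_injective hφ (add_right_cancel h1)
    · rintro u v ⟨-, h3⟩ ⟨-, h3'⟩ huv
      rw [← join_res u, ← join_res v, huv, h3, h3']
    · rintro a ⟨h1, h2⟩
      refine ⟨join a (resR u₀), ⟨⟨?_, ?_⟩, resR_join _ _⟩, resL_join _ _⟩
      · rw [mem_Ed] at h1 hu₀ ⊢
        rw [← hu₀, mdeg_join hc, mdeg_join hc u₀, resL_join, resR_join, h1]
      · rw [Set.mem_preimage, resL_join]; exact h2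
  rw [key2, key2, h]

theorem graded_extI [Infinite K] {c : σ → ι} {c' : σ ⊕ τ → ι'} {φ : ι → ι'}
    (hφ : Function.Injective φ) (hc : ∀ i, c' (Sum.inl i) = φ (c i))
    {I : Ideal (MvPolynomial σ K)} (hI : IsGraded c I) : IsGraded c' (extI τ I) := by
  classical
  intro F hF d
  rw [mem_extI] at hF ⊢
  intro b
  by_cases hex : ∃ e : ι →₀ ℕ, e.mapDomain φ + b.mapDomain (fun t => c' (Sum.inr t)) = d
  · obtain ⟨e, he⟩ := hex
    have : cof b (hcomp c' d F) = hcomp c e (cof b F) := by
      ext a
      rw [coeff_cof, coeff_hcomp, coeff_hcomp, coeff_cof, mdeg_join hc, resL_join, resR_join]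
      by_cases h : a.mapDomain c = e
      · rw [if_pos h, h, if_pos he]
      · rw [if_neg h, if_neg]
        intro h'
        rw [← he] at h'
        exact h (Finsupp.mapDomain_injective hφ (add_right_cancel h'))
    rw [this]
    exact hI _ (hF b) e
  · have : cof b (hcomp c' d F) = 0 := by
      ext a
      rw [coeff_cof, coeff_hcomp, mdeg_join hc, resL_join, resR_join, coeff_zero, if_neg]
      intro h
      exact hex ⟨_, h⟩
    rw [this]; exact I.zero_mem

/-- adding variables preserves the Cartwright-Sturmfels property -/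
theorem extI_rad [Infinite K] [Fintype σ] [DecidableEq σ] [Fintype τ] [DecidableEq τ]
    [Fintype ι'] [DecidableEq ι'] {c : σ → ι} {c' : σ ⊕ τ → ι'} {φ : ι → ι'}
    (hφ : Function.Injective φ) (hc : ∀ i, c' (Sum.inl i) = φ (c i))
    {I : Ideal (MvPolynomial σ K)} (hI : IsGraded c I) (hR : Rad c I) :
    Rad c' (extI τ I) := by
  classical
  obtain ⟨m, -⟩ := exists_order (Fintype.equivFin σ · : σ → ℕ)
    (fun a b h => (Fintype.equivFin σ).injective (Fin.ext h))
  obtain ⟨mτ, -⟩ := exists_order (Fintype.equivFin τ · : τ → ℕ)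
    (fun a b h => (Fintype.equivFin τ).injective (Fin.ext h))
  obtain ⟨N, hN, wN, hhf, hgen⟩ := gin_exists m c hI
  have rN : RadSet N := by
    obtain ⟨g, hg, hL⟩ := hgen.exists
    rw [← hL]
    exact hR.lead (graded_map hg hI) (fun d => hf_map hg d) m
  obtain ⟨ρ, hρ, hρ'⟩ := exists_rank m
  set R := ∑ i, ρ i + 1 with hRdef
  have hRlt : ∀ i, ρ i < R := fun i => Nat.lt_succ_of_le
    (Finset.single_le_sum (f := ρ) (fun _ _ => Nat.zero_le _) (Finset.mem_univ i))
  set ρ' : σ ⊕ τ → ℕ := Sum.elim ρ (fun j => R + (Fintype.equivFin τ j : ℕ)) with hρ'def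
  have hρ'inj : Function.Injective ρ' := by
    rintro (i | i) (j | j) hij
    · exact congrArg Sum.inl (hρ hij)
    · have h1 : ρ i = R + (Fintype.equivFin τ j : ℕ) := hij
      have := hRlt i; omega
    · have h1 : R + (Fintype.equivFin τ i : ℕ) = ρ j := hij
      have := hRlt j; omega
    · have h1 : R + (Fintype.equivFin τ i : ℕ) = R + (Fintype.equivFin τ j : ℕ) := hij
      exact congrArg Sum.inr ((Fintype.equivFin τ).injective (Fin.ext (by omega)))
  have hup : IsUpperSet (resL ⁻¹' N : Set (σ ⊕ τ →₀ ℕ)) := fun a b hab ha =>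
    hN (resL_mono hab) ha
  have hwb : WBs c' (fun x z => ρ' x < ρ' z) (resL ⁻¹' N : Set (σ ⊕ τ →₀ ℕ)) := by
    intro x z hcc hlt u a hu hmem
    change resL _ ∈ N at hmem
    change resL _ ∈ N
    rcases z with z | z
    · rcases x with x | x
      · rw [resL_add, resL_single_inl] at hmem ⊢
        rw [hc, hc] at hcc
        exact wN x z (hφ hcc) ((hρ' x z).2 hlt) (resL u) a hu hmem
      · have h1 : R + (Fintype.equivFin τ x : ℕ) < ρ z := hlt
        have := hRlt z; omega
    · rw [resL_add, resL_single_inr, add_zero] at hmem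
      rw [resL_add]
      exact hN le_self_add hmem
  have hrad : RadSet (resL ⁻¹' N : Set (σ ⊕ τ →₀ ℕ)) := by
    intro a n ha
    apply rN (resL a) n
    change resL (n • a) ∈ N at ha
    convert ha using 1
    ext i; rfl
  intro J hJ hd
  refine rad_of_comb c' ρ' hρ'inj hup hwb hrad hJ ?_
  intro d
  rw [hd, hf_eq (pOrder m mτ) c' (graded_extI hφ hc hI), lead_extI]
  apply ext_fiber hφ hc
  intro e
  rw [← hhf, hf_eq m c hI]

end Pool.Agent.H874.CS
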