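import Pool.Agent.H874.CS.Elim

/-!
# Ideals defined by substitutions with scalar parameters
-/

open MvPolynomial

namespace Pool.Agent.H874.CS

variable {σ τ κ K : Type*} [Field K]

/-- evaluation of a monomial -/
noncomputable def evs (s : κ → K) (b : κ →₀ ℕ) : K := b.prod fun k n => s k ^ n

theorem evs_add (s : κ → K) (a b : κ →₀ ℕ) : evs s (a + b) = evs s a * evs s b := by
  classical
  rw [evs, Finsupp.prod_add_index' (by simp) (by intros; rw [pow_add])]
  rfl

theorem evs_zero (s : κ → K) : evs s 0 = 1 := rfl

theorem evs_single (s : κ → K) (k : κ) (n : ℕ) : evs s (Finsupp.single k n) = s k ^ n := by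
  rw [evs, Finsupp.prod_single_index (by simp)]

theorem evs_smul (s : κ → K) (a : κ →₀ ℕ) (n : ℕ) : evs s (n • a) = evs s a ^ n := by
  induction n with
  | zero => rw [zero_smul, pow_zero, evs_zero]
  | succ n ih => rw [succ_nsmul, evs_add, ih, pow_succ]

theorem evs_eq_eval (s : κ → K) (b : κ →₀ ℕ) : evs s b = eval s (monomial b 1) := by
  rw [eval_monomial, one_mul, evs]

theorem vand [Infinite K] {V : Type*} [AddCommGroup V] [Module K V] (W : Submodule K V)
    (B : Finset (κ →₀ ℕ)) (v : (κ →₀ ℕ) → V) (h : ∀ s : κ → K, ∑ b ∈ B, evs s b • v b ∈ W) :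
    ∀ b ∈ B, v b ∈ W := by
  classical
  intro b hb
  rw [← Submodule.Quotient.mk_eq_zero, ← Module.forall_dual_apply_eq_zero_iff K]
  intro ℓ
  set p : MvPolynomial κ K := ∑ b ∈ B, monomial b (ℓ (W.mkQ (v b))) with hp
  have hp0 : p = 0 := by
    apply MvPolynomial.funext
    intro s
    rw [map_zero, hp, map_sum]
    have h1 : W.mkQ (∑ b ∈ B, evs s b • v b) = 0 := by
      rw [Submodule.mkQ_apply, Submodule.Quotient.mk_eq_zero]
      exact h s
    have h2 := congrArg ℓ h1
    rw [map_sum, map_sum, map_zero] at h2
    rw [← h2]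
    refine Finset.sum_congr rfl fun b _ => ?_
    rw [map_smul, map_smul, evs_eq_eval, smul_eq_mul, eval_monomial, eval_monomial, one_mul,
      mul_comm]
  have h3 : coeff b p = ℓ (W.mkQ (v b)) := by
    rw [hp, coeff_sum, Finset.sum_eq_single b]
    · rw [coeff_monomial, if_pos rfl]
    · intro a _ hab
      rw [coeff_monomial, if_neg hab]
    · intro h; exact absurd hb h
  rw [hp0, coeff_zero] at h3
  exact h3.symm

/-- the substitution with parameters `s` -/
noncomputable def psi (e : τ → κ →₀ ℕ) (y : τ → MvPolynomial σ K) (s : κ → K) :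
    MvPolynomial τ K →ₐ[K] MvPolynomial σ K := aeval fun t => evs s (e t) • y t

theorem psi_X (e : τ → κ →₀ ℕ) (y : τ → MvPolynomial σ K) (s : κ → K) (t : τ) :
    psi e y s (X t) = evs s (e t) • y t := by rw [psi, aeval_X]

/-- the substitution without parameters -/
noncomputable def spc (y : τ → MvPolynomial σ K) : MvPolynomial τ K →ₐ[K] MvPolynomial σ K :=
  aeval y

theorem spc_X (y : τ → MvPolynomial σ K) (t : τ) : spc y (X t) = y t := by rw [spc, aeval_X]

theorem psi_monomial (e : τ → κ →₀ ℕ) (y : τ → MvPolynomial σ K) (s : κ → K) (u : τ →₀ ℕ)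
    (r : K) : psi e y s (monomial u r) = evs s (Finsupp.weight e u) • spc y (monomial u r) := by
  have key : psi e y s (monomial u 1) =
      evs s (Finsupp.weight e u) • spc y (monomial u 1) := by
    induction u using Finsupp.induction_linear with
    | zero =>
      rw [show (monomial 0 (1 : K)) = 1 from rfl, map_one, map_one, map_zero, evs_zero, one_smul]
    | add a b ha hb =>
      rw [← one_mul (1 : K), ← monomial_mul, map_mul, ha, hb, map_mul, map_add, evs_add,
        smul_mul_smul_comm]
    | single j n =>
      rw [← X_pow_eq_monomial, map_pow, map_pow, psi_X, spc_X, smul_pow,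
        Finsupp.weight_single, evs_smul]
  have h1 : (monomial u r : MvPolynomial τ K) = r • monomial u 1 := by
    rw [smul_monomial, smul_eq_mul, mul_one]
  rw [h1, map_smul, key, map_smul, smul_comm]

/-- the ideal of the polynomials whose substitutions are all in `I` -/
noncomputable def reesI (e : τ → κ →₀ ℕ) (y : τ → MvPolynomial σ K)
    (I : Ideal (MvPolynomial σ K)) : Ideal (MvPolynomial τ K) :=
  ⨅ s : κ → K, I.comap (psi e y s)

theorem mem_reesI {e : τ → κ →₀ ℕ} {y : τ → MvPolynomial σ K} {I : Ideal (MvPolynomial σ K)}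
    {F : MvPolynomial τ K} : F ∈ reesI e y I ↔ ∀ s, psi e y s F ∈ I := by
  rw [reesI, Ideal.mem_iInf]
  rfl

theorem psi_sum (e : τ → κ →₀ ℕ) (y : τ → MvPolynomial σ K) (s : κ → K) (F : MvPolynomial τ K) :
    ∃ B : Finset (κ →₀ ℕ), (∀ b, b ∉ B → weightedHomogeneousComponent e b F = 0) ∧
      psi e y s F = ∑ b ∈ B, evs s b • spc y (weightedHomogeneousComponent e b F) := by
  classical
  refine ⟨F.support.image (Finsupp.weight e), ?_, ?_⟩
  · intro b hb
    ext u
    rw [coeff_weightedHomogeneousComponent, coeff_zero]
    split_ifs with h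
    · by_contra hc
      exact hb (h ▸ Finset.mem_image_of_mem _ (mem_support_iff.2 hc))
    · rfl
  · have h1 : ∀ b, weightedHomogeneousComponent e b F =
        ∑ u ∈ F.support, if Finsupp.weight e u = b then monomial u (coeff u F) else 0 := by
      intro b
      rw [weightedHomogeneousComponent_apply, Finset.sum_filter]
    simp only [h1, map_sum, Finset.smul_sum]
    rw [Finset.sum_comm]
    conv_lhs => rw [F.as_sum, map_sum]
    refine Finset.sum_congr rfl fun u hu => ?_
    rw [Finset.sum_eq_single (Finsupp.weight e u)]
    · rw [if_pos rfl, psi_monomial]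
    · intro b _ hb
      rw [if_neg (Ne.symm hb), map_zero, smul_zero]
    · intro h
      exact absurd (Finset.mem_image_of_mem _ hu) h

theorem mem_reesI' [Infinite K] {e : τ → κ →₀ ℕ} {y : τ → MvPolynomial σ K}
    {I : Ideal (MvPolynomial σ K)} {F : MvPolynomial τ K} :
    F ∈ reesI e y I ↔ ∀ b, spc y (weightedHomogeneousComponent e b F) ∈ I := by
  rw [mem_reesI]
  constructor
  · intro h b
    classical
    -- a finite set which works for all the parameters
    set B := F.support.image (Finsupp.weight e) with hB
    have h0 : ∀ b, b ∉ B → weightedHomogeneousComponent e b F = 0 := by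
      intro b hb
      ext u
      rw [coeff_weightedHomogeneousComponent, coeff_zero]
      split_ifs with h
      · by_contra hc
        exact hb (h ▸ Finset.mem_image_of_mem _ (mem_support_iff.2 hc))
      · rfl
    by_cases hb : b ∈ B
    · refine vand (I.restrictScalars K) B
        (fun b => spc y (weightedHomogeneousComponent e b F)) ?_ b hb
      intro s
      obtain ⟨B', hB', hs⟩ := psi_sum e y s F
      have h1 : psi e y s F =
          ∑ b ∈ B, evs s b • spc y (weightedHomogeneousComponent e b F) := by
        rw [hs]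
        have e1 : ∑ b ∈ B', evs s b • spc y (weightedHomogeneousComponent e b F) =
            ∑ b ∈ B ∪ B', evs s b • spc y (weightedHomogeneousComponent e b F) := by
          apply Finset.sum_subset Finset.subset_union_right
          intro b _ hb
          rw [hB' b hb, map_zero, smul_zero]
        have e2 : ∑ b ∈ B, evs s b • spc y (weightedHomogeneousComponent e b F) =
            ∑ b ∈ B ∪ B', evs s b • spc y (weightedHomogeneousComponent e b F) := by
          apply Finset.sum_subset Finset.subset_union_left
          intro b _ hb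
          rw [h0 b hb, map_zero, smul_zero]
        rw [e1, e2]
      rw [← h1]
      exact h s
    · rw [h0 b hb, map_zero]
      exact I.zero_mem
  · intro h s
    obtain ⟨B, -, hs⟩ := psi_sum e y s F
    rw [hs]
    refine Ideal.sum_mem _ fun b _ => ?_
    rw [← C_mul']
    exact I.mul_mem_left _ (h b)

end Pool.Agent.H874.CS
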