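import Pool.Agent.H874.CS.Sat

/-!
# Rigidity: a weakly Borel set with the Hilbert function of a radical one
-/

namespace Pool.Agent.H874.CS

variable {σ ι : Type*} [Fintype σ] [DecidableEq σ] [Fintype ι] [DecidableEq ι]

/-- the exponents of multidegree `d` with support in `A` which are not in `N` -/
def FF (c : σ → ι) (N : Set (σ →₀ ℕ)) (A : Finset σ) (d : ι →₀ ℕ) : Set (σ →₀ ℕ) :=
  {u | u.support ⊆ A ∧ u.mapDomain c = d ∧ u ∉ N}

omit [DecidableEq σ] [Fintype ι] [DecidableEq ι] in
theorem FF_finite (c : σ → ι) (N : Set (σ →₀ ℕ)) (A : Finset σ) (d : ι →₀ ℕ) :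
    (FF c N A d).Finite := (finite_Ed c d).subset fun _ h => h.2.1

omit [Fintype ι] [DecidableEq ι] in
theorem FF_diff (c : σ → ι) {N : Set (σ →₀ ℕ)} (hN : IsUpperSet N) {A : Finset σ} {z : σ}
    (hz : z ∈ A) (d : ι →₀ ℕ) (hsat : ∀ u : σ →₀ ℕ, u.support ⊆ A → u.mapDomain c = d →
      u + Finsupp.single z 1 ∈ N → u ∈ N) :
    (FF c N A (d + Finsupp.single (c z) 1)).ncard =
      (FF c N A d).ncard + (FF c N (A.erase z) (d + Finsupp.single (c z) 1)).ncard := by
  have h1 : FF c N A (d + Finsupp.single (c z) 1) =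
      (fun u => u + Finsupp.single z 1) '' (FF c N A d) ∪
        FF c N (A.erase z) (d + Finsupp.single (c z) 1) := by
    ext u
    constructor
    · rintro ⟨h1, h2, h3⟩
      by_cases hu : u z = 0
      · right
        refine ⟨fun i hi => Finset.mem_erase.2 ⟨?_, h1 hi⟩, h2, h3⟩
        rintro rfl
        exact (Finsupp.mem_support_iff.1 hi) hu
      · left
        have hle : Finsupp.single z 1 ≤ u := by
          rw [Finsupp.single_le_iff]; omega
        have hu' : u - Finsupp.single z 1 + Finsupp.single z 1 = u := tsub_add_cancel_of_le hle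
        refine ⟨u - Finsupp.single z 1, ⟨?_, ?_, ?_⟩, hu'⟩
        · exact (Finsupp.support_tsub).trans h1
        · have := congrArg (Finsupp.mapDomain c) hu'
          rw [Finsupp.mapDomain_add, Finsupp.mapDomain_single, h2] at this
          exact add_right_cancel this
        · intro h
          exact h3 (hN tsub_le_self h)
    · rintro (⟨v, ⟨h1, h2, h3⟩, rfl⟩ | ⟨h1, h2, h3⟩)
      · refine ⟨?_, ?_, ?_⟩
        · intro i hi
          rcases Finset.mem_union.1 (Finsupp.support_add hi) with h | h
          · exact h1 h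
          · rw [Finset.mem_singleton.1 (Finsupp.support_single_subset h)]
            exact hz
        · rw [Finsupp.mapDomain_add, Finsupp.mapDomain_single, h2]
        · exact fun h => h3 (hsat v h1 h2 h)
      · exact ⟨h1.trans (Finset.erase_subset _ _), h2, h3⟩
  rw [h1, Set.ncard_union_eq _ ((FF_finite c N A d).image _) (FF_finite c N _ _),
    Set.ncard_image_of_injective _ (add_left_injective _)]
  rw [Set.disjoint_left]
  rintro _ ⟨v, ⟨h1, h2, h3⟩, rfl⟩ ⟨h4, -, -⟩
  have : z ∈ (v + Finsupp.single z 1).support := by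
    rw [Finsupp.mem_support_iff, Finsupp.add_apply, Finsupp.single_eq_same]
    omega
  exact absurd rfl (Finset.ne_of_mem_erase (h4 this))

omit [DecidableEq σ] in
theorem rad_supp {M : Set (σ →₀ ℕ)} (hM : IsUpperSet M) (rM : RadSet M) {b u : σ →₀ ℕ}
    (hb : b ∈ M) (h : b.support ⊆ u.support) : u ∈ M := by
  apply rM u (∑ i, b i)
  refine hM ?_ hb
  intro i
  rw [Finsupp.smul_apply, smul_eq_mul]
  by_cases hi : b i = 0
  · rw [hi]; exact Nat.zero_le _
  · have h1 : u i ≠ 0 := Finsupp.mem_support_iff.1 (h (Finsupp.mem_support_iff.2 hi))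
    have h2 : b i ≤ ∑ i, b i := Finset.single_le_sum (fun _ _ => Nat.zero_le _) (Finset.mem_univ i)
    calc b i ≤ ∑ i, b i := h2
      _ = (∑ i, b i) * 1 := (mul_one _).symm
      _ ≤ (∑ i, b i) * u i := Nat.mul_le_mul_left _ (Nat.pos_of_ne_zero h1)

theorem rig_aux (c : σ → ι) (ρ : σ → ℕ) (hρ : Function.Injective ρ) {N M : Set (σ →₀ ℕ)}
    (hN : IsUpperSet N) (wN : WBs c (fun x z => ρ x < ρ z) N)
    (hM : IsUpperSet M) (wM : WBs c (fun x z => ρ x < ρ z) M) (rM : RadSet M) :
    ∀ (n : ℕ) (A : Finset σ), A.card = n → (∀ j, ∃ i ∈ A, c i = j) →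
      (∃ d₀, ∀ d, d₀ ≤ d → (FF c N A d).ncard = (FF c M A d).ncard) →
      ∃ d₀, ∀ u : σ →₀ ℕ, u.support ⊆ A → d₀ ≤ u.mapDomain c → (u ∈ N ↔ u ∈ M) := by
  intro n
  induction n using Nat.strong_induction_on with
  | _ n ih =>
  rintro A hA hgr ⟨dh, hdh⟩
  -- the last active variables
  have hz : ∀ j, ∃ z ∈ A, c z = j ∧ ∀ i ∈ A, c i = j → ρ i ≤ ρ z := by
    intro j
    obtain ⟨i, hi, hij⟩ := hgr j
    obtain ⟨z, hz, hz'⟩ := Finset.exists_max_image (A.filter fun i => c i = j) ρ
      ⟨i, Finset.mem_filter.2 ⟨hi, hij⟩⟩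
    rw [Finset.mem_filter] at hz
    exact ⟨z, hz.1, hz.2, fun i hi hij => hz' i (Finset.mem_filter.2 ⟨hi, hij⟩)⟩
  choose z hzA hzc hzmax using hz
  have hmax : ∀ i ∈ A, ρ i ≤ ρ (z (c i)) := fun i hi => hzmax _ i hi rfl
  obtain ⟨dN, hdN⟩ := sat c ρ hρ hN wN A hzc hmax
  obtain ⟨dM, hdM⟩ := sat c ρ hρ hM wM A hzc hmax
  have hpick : ∀ j, Finsupp.single (z j) 1 ≤ pick z := by
    intro j
    rw [Finsupp.single_le_iff, pick_apply hzc, hzc j, if_pos rfl]
  have hsat1 : ∀ {L : Set (σ →₀ ℕ)}, IsUpperSet L → ∀ {dL : ι →₀ ℕ},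
      (∀ u : σ →₀ ℕ, u.support ⊆ A → dL ≤ u.mapDomain c → (∃ k : ℕ, u + k • pick z ∈ L) → u ∈ L) →
      ∀ j, ∀ u : σ →₀ ℕ, u.support ⊆ A → dL ≤ u.mapDomain c →
        u + Finsupp.single (z j) 1 ∈ L → u ∈ L := by
    intro L hL dL hdL j u hu hd h
    refine hdL u hu hd ⟨1, hL ?_ h⟩
    rw [one_smul]
    exact add_le_add le_rfl (hpick j)
  -- the induction hypothesis
  have hIH : ∀ j, ∃ D : ι →₀ ℕ, (∃ i ∈ A.erase (z j), c i = j) →
      ∀ u : σ →₀ ℕ, u.support ⊆ A.erase (z j) → D ≤ u.mapDomain c → (u ∈ N ↔ u ∈ M) := by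
    intro j
    by_cases hbig : ∃ i ∈ A.erase (z j), c i = j
    · have hcard : (A.erase (z j)).card < n := by
        rw [← hA]; exact Finset.card_erase_lt_of_mem (hzA j)
      obtain ⟨D, hD⟩ := ih _ hcard (A.erase (z j)) rfl (by
        intro j'
        by_cases hj : j' = j
        · rw [hj]; exact hbig
        · refine ⟨z j', Finset.mem_erase.2 ⟨?_, hzA j'⟩, hzc j'⟩
          intro he
          apply hj
          rw [← hzc j', he, hzc j]) (by
        refine ⟨dh + dN + dM + Finsupp.single j 1, fun e he => ?_⟩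
        have hje : Finsupp.single j 1 ≤ e := le_trans (by exact le_add_self) he
        obtain ⟨d, rfl⟩ : ∃ d, e = d + Finsupp.single j 1 :=
          ⟨e - Finsupp.single j 1, (tsub_add_cancel_of_le hje).symm⟩
        have hd : dh + dN + dM ≤ d := le_of_add_le_add_right he
        have hdh' : dh ≤ d := le_trans (by rw [add_assoc]; exact le_self_add) hd
        have hdN' : dN ≤ d := le_trans (le_trans le_add_self le_self_add) hd
        have hdM' : dM ≤ d := le_trans le_add_self hd
        have e1 := FF_diff c hN (hzA j) d (fun u h1 h2 h3 =>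
          hsat1 hN hdN j u h1 (by rw [h2]; exact hdN') h3)
        have e2 := FF_diff c hM (hzA j) d (fun u h1 h2 h3 =>
          hsat1 hM hdM j u h1 (by rw [h2]; exact hdM') h3)
        rw [hzc j] at e1 e2
        have e3 := hdh d hdh'
        have e4 := hdh (d + Finsupp.single j 1) (le_trans hdh' le_self_add)
        omega)
      exact ⟨D, fun _ => hD⟩
    · exact ⟨0, fun h => absurd h hbig⟩
  choose D hD using hIH
  have hDle : ∀ j, D j ≤ ∑ j, D j := fun j =>
    Finset.single_le_sum (fun _ _ => zero_le) (Finset.mem_univ j)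
  set T := (∑ j, D j) + dN + dM + dh with hT
  have hT1 : ∑ j, D j ≤ T := by rw [hT, add_assoc, add_assoc]; exact le_self_add
  have hT2 : dN ≤ T := by
    rw [hT]
    exact le_trans le_add_self (le_trans le_self_add le_self_add)
  have hT3 : dh ≤ T := le_add_self
  -- in large degrees `N ⊆ M`
  have hsub : ∀ u : σ →₀ ℕ, u.support ⊆ A → T ≤ u.mapDomain c → u ∈ N → u ∈ M := by
    intro u hu hd huN
    by_contra huM
    have hz' : ∀ i ∈ u.support, i = z (c i) := by
      intro y hy
      by_contra hyz
      have hyA := hu hy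
      set j := c y with hj
      have hyE : y ∈ A.erase (z j) := Finset.mem_erase.2 ⟨hyz, hyA⟩
      obtain ⟨z', hz'1, hz'2⟩ := Finset.exists_max_image ((A.erase (z j)).filter fun i => c i = j) ρ
        ⟨y, Finset.mem_filter.2 ⟨hyE, rfl⟩⟩
      rw [Finset.mem_filter] at hz'1
      have hz'A : z' ∈ A := Finset.mem_of_mem_erase hz'1.1
      have hz'ne : z' ≠ z j := Finset.ne_of_mem_erase hz'1.1
      have hlt : ρ z' < ρ (z j) := lt_of_le_of_ne (hzmax j z' hz'A hz'1.2) fun h => hz'ne (hρ h)
      set v := u.erase (z j) with hv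
      set k := u (z j) with hk
      have huv : u = v + Finsupp.single (z j) k := by
        rw [hv, hk, add_comm, Finsupp.single_add_erase]
      have hvsupp : v.support ⊆ A.erase (z j) := by
        intro i hi
        rw [hv, Finsupp.support_erase, Finset.mem_erase] at hi
        exact Finset.mem_erase.2 ⟨hi.1, hu hi.2⟩
      have hwN : v + Finsupp.single z' k ∈ N := by
        refine wN z' (z j) (hz'1.2.trans (hzc j).symm) hlt v k (by rw [hv, Finsupp.erase_same]) ?_
        rw [← huv]; exact huN
      have hwdeg : (v + Finsupp.single z' k).mapDomain c = u.mapDomain c := by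
        conv_rhs => rw [huv]
        rw [Finsupp.mapDomain_add, Finsupp.mapDomain_add, Finsupp.mapDomain_single,
          Finsupp.mapDomain_single, hz'1.2, hzc j]
      have hwM : v + Finsupp.single z' k ∈ M := by
        refine (hD j ⟨y, hyE, rfl⟩ _ ?_ ?_).1 hwN
        · intro i hi
          rcases Finset.mem_union.1 (Finsupp.support_add hi) with h | h
          · exact hvsupp h
          · rw [Finset.mem_singleton.1 (Finsupp.support_single_subset h)]
            exact hz'1.1
        · rw [hwdeg]; exact ((hDle j).trans hT1).trans hd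
      -- move `z'` to `y`
      have hyv : y ∈ v.support := by
        rw [hv, Finsupp.support_erase]
        exact Finset.mem_erase.2 ⟨hyz, hy⟩
      have hvu : v.support ⊆ u.support := by
        rw [hv, Finsupp.support_erase]; exact Finset.erase_subset _ _
      have hvM : v ∈ M := by
        by_cases hyz' : y = z'
        · refine rad_supp hM rM hwM ?_
          intro i hi
          rcases Finset.mem_union.1 (Finsupp.support_add hi) with h | h
          · exact h
          · rw [Finset.mem_singleton.1 (Finsupp.support_single_subset h), ← hyz']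
            exact hyv
        · set w := v.erase z' with hw
          have hvw : v + Finsupp.single z' k = w + Finsupp.single z' (v z' + k) := by
            rw [Finsupp.single_add, ← add_assoc, hw, add_comm (v.erase z'),
              Finsupp.single_add_erase]
          have hlt' : ρ y < ρ z' := lt_of_le_of_ne
            (hz'2 y (Finset.mem_filter.2 ⟨hyE, rfl⟩)) fun h => hyz' (hρ h)
          rw [hvw] at hwM
          have hmove := wM y z' hz'1.2.symm hlt' w _ (by rw [hw, Finsupp.erase_same]) hwM
          refine rad_supp hM rM hmove ?_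
          intro i hi
          rcases Finset.mem_union.1 (Finsupp.support_add hi) with h | h
          · rw [hw, Finsupp.support_erase] at h
            exact Finset.mem_of_mem_erase h
          · rw [Finset.mem_singleton.1 (Finsupp.support_single_subset h)]
            exact hyv
      exact huM (rad_supp hM rM hvM hvu)
    -- now `u` involves only the last variables
    have h0 : ∃ k : ℕ, (0 : σ →₀ ℕ) + k • pick z ∈ N := by
      refine ⟨∑ i, u i, hN ?_ huN⟩
      intro i
      rw [zero_add, Finsupp.smul_apply, smul_eq_mul, pick_apply hzc]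
      by_cases hi : u i = 0
      · rw [hi]; exact Nat.zero_le _
      · have := hz' i (Finsupp.mem_support_iff.2 hi)
        rw [if_pos this.symm, mul_one]
        exact Finset.single_le_sum (fun _ _ => Nat.zero_le _) (Finset.mem_univ i)
    have hempty : FF c N A (u.mapDomain c) = ∅ := by
      rw [Set.eq_empty_iff_forall_notMem]
      rintro v ⟨hv1, hv2, hv3⟩
      apply hv3
      apply hdN v hv1 (by rw [hv2]; exact hT2.trans hd)
      obtain ⟨k, hk⟩ := h0
      refine ⟨k, hN ?_ hk⟩
      exact add_le_add zero_le le_rfl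
    have hnc := hdh (u.mapDomain c) (hT3.trans hd)
    rw [hempty, Set.ncard_empty, eq_comm, Set.ncard_eq_zero (FF_finite c M A _)] at hnc
    have : u ∈ FF c M A (u.mapDomain c) := ⟨hu, rfl, huM⟩
    rw [hnc] at this
    exact this
  refine ⟨T, fun u hu hd => ⟨hsub u hu hd, fun huM => ?_⟩⟩
  by_contra huN
  have h1 : FF c M A (u.mapDomain c) ⊆ FF c N A (u.mapDomain c) := by
    rintro v ⟨hv1, hv2, hv3⟩
    exact ⟨hv1, hv2, fun h => hv3 (hsub v hv1 (by rw [hv2]; exact hd) h)⟩
  have h2 := Set.eq_of_subset_of_ncard_le h1 (hdh _ (hT3.trans hd)).le (FF_finite c N A _)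
  have h3 : u ∈ FF c N A (u.mapDomain c) := ⟨hu, rfl, huN⟩
  rw [← h2] at h3
  exact h3.2.2 huM

end Pool.Agent.H874.CS
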