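import Mathlib
import Pool.Agent.H874.CS.GenSet

/-!
# Saturation for weakly Borel sets of exponents
-/

namespace Pool.Agent.H874.CS

variable {σ ι : Type*} [Fintype σ] [DecidableEq σ] [Fintype ι] [DecidableEq ι]

/-- weakly Borel sets of exponents -/
def WBs (c : σ → ι) (r : σ → σ → Prop) (N : Set (σ →₀ ℕ)) : Prop :=
  ∀ x z, c x = c z → r x z → ∀ (u : σ →₀ ℕ) (a : ℕ), u z = 0 →
    u + Finsupp.single z a ∈ N → u + Finsupp.single x a ∈ N

theorem mdeg_apply (c : σ → ι) (u : σ →₀ ℕ) (j : ι) :
    u.mapDomain c j = ∑ i ∈ Finset.univ.filter (fun i => c i = j), u i := by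
  rw [Finsupp.mapDomain, Finsupp.sum_apply, Finsupp.sum_fintype _ _ (by simp),
    Finset.sum_filter]
  refine Finset.sum_congr rfl fun i _ => ?_
  rw [Finsupp.single_apply]

/-- a choice of one variable in each group -/
noncomputable def pick (y : ι → σ) : σ →₀ ℕ := ∑ j, Finsupp.single (y j) 1

theorem pick_apply {c : σ → ι} {y : ι → σ} (hy : ∀ j, c (y j) = j) (i : σ) :
    pick y i = if y (c i) = i then 1 else 0 := by
  rw [pick, Finsupp.finsetSum_apply, Finset.sum_eq_single (c i)]
  · rw [Finsupp.single_apply]
  · intro j _ hj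
    rw [Finsupp.single_apply, if_neg]
    rintro rfl
    exact hj (hy j).symm
  · intro h; exact absurd (Finset.mem_univ _) h

/-- moving the variables of the choice `z` to those of the choice `y` -/
theorem move_all (c : σ → ι) (ρ : σ → ℕ) (hρ : Function.Injective ρ) {N : Set (σ →₀ ℕ)}
    (wN : WBs c (fun x z => ρ x < ρ z) N) {y z : ι → σ} (hy : ∀ j, c (y j) = j)
    (hz : ∀ j, c (z j) = j) (hyz : ∀ j, ρ (y j) ≤ ρ (z j)) {b : σ →₀ ℕ} (hb : ∀ j, b (z j) = 0)
    {k : ℕ} (h : b + k • pick z ∈ N) : b + k • pick y ∈ N := by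
  have key : ∀ S : Finset ι, b + k • ∑ j, Finsupp.single (if j ∈ S then y j else z j) 1 ∈ N := by
    intro S
    induction S using Finset.induction_on with
    | empty => simpa [pick] using h
    | insert j S hj ih =>
      by_cases he : y j = z j
      · have : (fun i => Finsupp.single (if i ∈ insert j S then y i else z i) 1) =
            (fun i => (Finsupp.single (if i ∈ S then y i else z i) 1 : σ →₀ ℕ)) := by
          funext i
          by_cases hi : i = j
          · subst hi; simp [hj, he]
          · simp [Finset.mem_insert, hi]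
        rw [Finset.sum_congr rfl fun i _ => congrFun this i]
        exact ih
      have hlt : ρ (y j) < ρ (z j) := lt_of_le_of_ne (hyz j) fun h => he (hρ h)
      set w : σ →₀ ℕ := ∑ i ∈ Finset.univ.erase j, Finsupp.single (if i ∈ S then y i else z i) 1
        with hw
      have h1 : ∑ i, (Finsupp.single (if i ∈ S then y i else z i) 1 : σ →₀ ℕ) =
          Finsupp.single (z j) 1 + w := by
        rw [← Finset.add_sum_erase _ _ (Finset.mem_univ j), if_neg hj]
      have h2 : ∑ i, (Finsupp.single (if i ∈ insert j S then y i else z i) 1 : σ →₀ ℕ) =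
          Finsupp.single (y j) 1 + w := by
        rw [← Finset.add_sum_erase _ _ (Finset.mem_univ j), if_pos (Finset.mem_insert_self _ _)]
        congr 1
        refine Finset.sum_congr rfl fun i hi => ?_
        have hij := Finset.ne_of_mem_erase hi
        simp [Finset.mem_insert, hij]
      have hw0 : w (z j) = 0 := by
        rw [hw, Finsupp.finsetSum_apply]
        apply Finset.sum_eq_zero
        intro i hi
        have hij := Finset.ne_of_mem_erase hi
        rw [Finsupp.single_apply, if_neg]
        intro h3
        apply hij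
        have h4 := congrArg c h3
        rw [hz j] at h4
        split_ifs at h4
        · rwa [hy] at h4
        · rwa [hz] at h4
      rw [h2, smul_add, Finsupp.smul_single, smul_eq_mul, mul_one]
      rw [h1, smul_add, Finsupp.smul_single, smul_eq_mul, mul_one] at ih
      have h5 := wN (y j) (z j) ((hy j).trans (hz j).symm) hlt (b + k • w) k (by
        rw [Finsupp.add_apply, Finsupp.smul_apply, hw0, hb j, smul_zero, add_zero]) (by
        convert ih using 1; abel)
      convert h5 using 1; abel
  have := key Finset.univ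
  simpa [pick] using this

/-- saturation with respect to the last active variables in large degrees -/
theorem sat (c : σ → ι) (ρ : σ → ℕ) (hρ : Function.Injective ρ) {N : Set (σ →₀ ℕ)}
    (hN : IsUpperSet N) (wN : WBs c (fun x z => ρ x < ρ z) N) (A : Finset σ) {z : ι → σ}
    (hz : ∀ j, c (z j) = j) (hmax : ∀ i ∈ A, ρ i ≤ ρ (z (c i))) :
    ∃ d₀ : ι →₀ ℕ, ∀ u : σ →₀ ℕ, u.support ⊆ A → d₀ ≤ u.mapDomain c →
      (∃ k : ℕ, u + k • pick z ∈ N) → u ∈ N := by
  obtain ⟨B, hB, hBle⟩ := dickson (N := {u : σ →₀ ℕ | ∃ k : ℕ, u + k • pick z ∈ N})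
  -- remove the last variables
  set st : (σ →₀ ℕ) → (σ →₀ ℕ) := fun b => b.filter fun i => i ≠ z (c i) with hst
  have hst0 : ∀ b j, st b (z j) = 0 := by
    intro b j
    rw [hst]
    simp only
    rw [Finsupp.filter_apply_neg]
    rw [hz j]
    simp
  have hstle : ∀ b, st b ≤ b := by
    intro b i
    rw [hst]
    simp only [Finsupp.filter_apply]
    split_ifs
    · exact le_rfl
    · exact Nat.zero_le _
  have hstB : ∀ b ∈ B, ∃ k : ℕ, st b + k • pick z ∈ N := by
    intro b hb
    obtain ⟨k, hk⟩ := hB hb
    refine ⟨k + ∑ i, b i, hN ?_ hk⟩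
    intro i
    simp only [Finsupp.add_apply, Finsupp.smul_apply, smul_eq_mul]
    rw [pick_apply hz i]
    by_cases hi : z (c i) = i
    · rw [if_pos hi]
      have : b i ≤ ∑ i, b i := Finset.single_le_sum (fun _ _ => Nat.zero_le _) (Finset.mem_univ i)
      omega
    · rw [if_neg hi]
      have : st b i = b i := by
        rw [hst]
        simp only
        rw [Finsupp.filter_apply_pos]
        exact fun h => hi h.symm
      omega
  choose! kk hkk using hstB
  set K := ∑ b ∈ B, kk b with hK
  have hstK : ∀ b ∈ B, st b + K • pick z ∈ N := by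
    intro b hb
    refine hN ?_ (hkk b hb)
    have h1 : kk b ≤ K := Finset.single_le_sum (fun _ _ => Nat.zero_le _) hb
    intro i
    simp only [Finsupp.add_apply, Finsupp.smul_apply, smul_eq_mul]
    have := Nat.mul_le_mul_right (pick z i) h1
    omega
  refine ⟨Finsupp.equivFunOnFinite.symm fun j =>
    (∑ b ∈ B, b.mapDomain c j) + (Fintype.card σ * K + 1), fun u hu hd hk => ?_⟩
  obtain ⟨b, hb, hbu⟩ := hBle u hk
  have hsu : st b ≤ u := (hstle b).trans hbu
  have hex : ∀ j, ∃ i, c i = j ∧ i ∈ A ∧ st b i + K ≤ u i := by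
    intro j
    by_contra hcon
    push Not at hcon
    have h1 : (∑ b ∈ B, b.mapDomain c j) + (Fintype.card σ * K + 1) ≤ u.mapDomain c j := hd j
    have h2 : b.mapDomain c j ≤ ∑ b ∈ B, b.mapDomain c j :=
      Finset.single_le_sum (f := fun b : σ →₀ ℕ => b.mapDomain c j) (fun _ _ => Nat.zero_le _) hb
    have h3 : u.mapDomain c j ≤ b.mapDomain c j + Fintype.card σ * K := by
      rw [mdeg_apply, mdeg_apply]
      have h4 : ∀ i ∈ Finset.univ.filter (fun i => c i = j), u i ≤ b i + K := by
        intro i hi
        rw [Finset.mem_filter] at hi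
        by_cases hiA : i ∈ A
        · have := hcon i hi.2 hiA
          have := hstle b i
          omega
        · have : u i = 0 := by
            by_contra h0
            exact hiA (hu (Finsupp.mem_support_iff.2 h0))
          omega
      refine (Finset.sum_le_sum h4).trans ?_
      rw [Finset.sum_add_distrib, Finset.sum_const, smul_eq_mul]
      have : (Finset.univ.filter (fun i => c i = j)).card ≤ Fintype.card σ :=
        Finset.card_le_univ _
      have := Nat.mul_le_mul_right K this
      omega
    omega
  choose y hy1 hy2 hy3 using hex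
  have hyN := move_all c ρ hρ wN hy1 hz (fun j => by
    have := hmax (y j) (hy2 j)
    rwa [hy1 j] at this) (hst0 b) (hstK b hb)
  refine hN ?_ hyN
  intro i
  simp only [Finsupp.add_apply, Finsupp.smul_apply, smul_eq_mul]
  rw [pick_apply hy1 i]
  split_ifs with h
  · have := hy3 (c i)
    rw [h] at this
    omega
  · have := hsu i
    omega

end Pool.Agent.H874.CS
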