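import Pool.Agent.H874.CS.Cnt

/-!
# Semicontinuity, and the generic sets of leading exponents
-/

open MvPolynomial

namespace Pool.Agent.H874.CS

variable {σ ι K : Type*} [Field K] [Fintype σ] [DecidableEq σ]

/-- the number of the leading exponents of `g I` of multidegree `d` outside of `T` -/
noncomputable def cnt (m : MonomialOrder σ) (c : σ → ι) (I : Ideal (MvPolynomial σ K))
    (d : ι →₀ ℕ) (T : Set (σ →₀ ℕ)) (g : Matrix σ σ K) : ℕ :=
  ((Ed c d ∩ Lead m ((I.map (act g) : Ideal (MvPolynomial σ K)) : Set (MvPolynomial σ K))) \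
    T).ncard

theorem gen_count (m : MonomialOrder σ) {c : σ → ι} {d : ι →₀ ℕ} {T : Set (σ →₀ ℕ)}
    (hT : IsLow m c d T) {I : Ideal (MvPolynomial σ K)} (hI : IsGraded c I)
    {g₀ : Matrix σ σ K} (hg₀ : InG c g₀) :
    Gen c (fun g => cnt m c I d T g₀ ≤ cnt m c I d T g) := by
  classical
  set A := (Ed c d ∩ Lead m ((I.map (act g₀) : Ideal (MvPolynomial σ K)) :
    Set (MvPolynomial σ K))) \ T with hA
  have hAf : A.Finite := ((finite_Ed c d).inter_of_left _).subset Set.sdiff_subset
  set B : Set m.syn := m.toSyn '' A with hB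
  have hBf : B.Finite := hAf.image _
  have hBA : ∀ b : B, m.toSyn.symm (b : m.syn) ∈ A := by
    rintro ⟨_, a, ha, rfl⟩
    simpa using ha
  have key : ∀ b : B, ∃ f ∈ I, f ∈ restrictSupport K (Ed c d) ∧ act g₀ f ≠ 0 ∧
      m.degree (act g₀ f) = m.toSyn.symm (b : m.syn) := by
    intro b
    obtain ⟨⟨ha1, ha2⟩, -⟩ := hBA b
    obtain ⟨h, hh1, hh2, hh3, hh4⟩ := compat_Ed m c (graded_map hg₀ hI) d _ ha1 ha2
    obtain ⟨f, hf1, rfl⟩ := (mem_map_act hg₀.2).1 hh1
    have e : act g₀ (hcomp c d f) = act g₀ f := by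
      rw [← hcomp_act hg₀.1, hcomp_eq_self hh4]
    exact ⟨hcomp c d f, hI f hf1 d, hcomp_mem c d f, by rwa [e], by rw [e]; exact hh3⟩
  choose f hf1 hf2 hf3 hf4 using key
  let _ : Fintype B := hBf.fintype
  set φ : B → (MvPolynomial σ K →ₗ[K] K) := fun b => lcoeff K (m.toSyn.symm (b : m.syn)) with hφ
  have hdet : (Matrix.of fun i j : B => φ j (act g₀ (f i))).det ≠ 0 := by
    rw [Matrix.det_of_isLowerTriangular]
    · rw [Finset.prod_ne_zero_iff]
      intro b _
      change coeff (m.toSyn.symm (b : m.syn)) (act g₀ (f b)) ≠ 0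
      have := mem_support_iff.1 (m.degree_mem_support (hf3 b))
      rwa [hf4 b] at this
    · intro i j hij
      have hij' : i < j := hij
      change coeff (m.toSyn.symm (j : m.syn)) (act g₀ (f i)) = 0
      apply m.coeff_eq_zero_of_lt
      rw [hf4 i]
      simpa using hij'
  refine (gen_det c f φ hg₀ hdet).mono fun g hg hne => ?_
  have hcard : Fintype.card B = cnt m c I d T g₀ := by
    rw [cnt, ← hA, ← Nat.card_eq_fintype_card, Nat.card_coe_set_eq, hB,
      Set.ncard_image_of_injective _ m.toSyn.injective]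
  rw [← hcard, cnt]
  refine count_ge m hT (graded_map hg hI) (fun a => act g (f a))
    (fun a => (act_mem_map hg.2).2 (hf1 a)) (fun a => act_restrict hg.1 (hf2 a)) φ ?_ hne
  intro b p hp
  change coeff (m.toSyn.symm (b : m.syn)) p = 0
  by_contra hcon
  exact (hBA b).2 ((mem_restrictSupport_iff K).1 hp (mem_support_iff.2 hcon))

end Pool.Agent.H874.CS
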