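import Pool.Agent.H874.CS.Poly

/-!
# The Rees-type extension: Hilbert function
-/

open MvPolynomial

namespace Pool.Agent.H874.CS

variable {σ ι K : Type*} [Field K]

/-- parameters for the Rees-type extension -/
noncomputable def e₂ (L : Finset σ) : σ ⊕ L → Unit →₀ ℕ :=
  Sum.elim (fun _ => 0) fun _ => Finsupp.single () 1

/-- values for the Rees-type extension -/
noncomputable def y₂ (L : Finset σ) : σ ⊕ L → MvPolynomial σ K :=
  Sum.elim X fun l => X (l : σ)

/-- the grading of the Rees-type extension: the new variables form a new group -/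
def cT (c : σ → ι) (L : Finset σ) : σ ⊕ L → Option ι := Sum.elim (fun i => some (c i)) fun _ => none

/-- the Rees-type extension of the ideal `I` with respect to the variables in `L` -/
noncomputable def theta (L : Finset σ) (I : Ideal (MvPolynomial σ K)) :
    Ideal (MvPolynomial (σ ⊕ L) K) := reesI (e₂ L) (y₂ L) I

/-- replace the new variables by the old ones -/
noncomputable def comb {L : Finset σ} (u : σ ⊕ L →₀ ℕ) : σ →₀ ℕ :=
  resL u + (resR u).mapDomain Subtype.val

theorem comb_add {L : Finset σ} (u v : σ ⊕ L →₀ ℕ) : comb (u + v) = comb u + comb v := by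
  rw [comb, comb, comb, resL_add, resR_add, Finsupp.mapDomain_add]
  abel

theorem comb_zero {L : Finset σ} : comb (0 : σ ⊕ L →₀ ℕ) = 0 := by
  rw [comb, resL_zero, resR_zero, Finsupp.mapDomain_zero, add_zero]

theorem comb_inl {L : Finset σ} (i : σ) (n : ℕ) :
    comb (Finsupp.single (Sum.inl i : σ ⊕ L) n) = Finsupp.single i n := by
  rw [comb, resL_single_inl, resR_single_inl, Finsupp.mapDomain_zero, add_zero]

theorem comb_inr {L : Finset σ} (i : L) (n : ℕ) :
    comb (Finsupp.single (Sum.inr i : σ ⊕ L) n) = Finsupp.single (i : σ) n := by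
  rw [comb, resL_single_inr, resR_single_inr, Finsupp.mapDomain_single, zero_add]

theorem spc_y₂ {L : Finset σ} (u : σ ⊕ L →₀ ℕ) (r : K) :
    spc (y₂ L : σ ⊕ L → MvPolynomial σ K) (monomial u r) = monomial (comb u) r := by
  have key : spc (y₂ L : σ ⊕ L → MvPolynomial σ K) (monomial u 1) = monomial (comb u) 1 := by
    induction u using Finsupp.induction_linear with
    | zero => rw [comb_zero, show (monomial 0 (1 : K)) = 1 from rfl, map_one]; rfl
    | add a b ha hb =>
      rw [← one_mul (1 : K), ← monomial_mul, map_mul, ha, hb, comb_add, ← monomial_mul]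
    | single j n =>
      rw [← X_pow_eq_monomial, map_pow, spc_X]
      rcases j with j | j
      · rw [comb_inl, ← X_pow_eq_monomial]; rfl
      · rw [comb_inr, ← X_pow_eq_monomial]; rfl
  have h1 : (monomial u r : MvPolynomial (σ ⊕ L) K) = r • monomial u 1 := by
    rw [smul_monomial, smul_eq_mul, mul_one]
  rw [h1, map_smul, key, smul_monomial, smul_eq_mul, mul_one]

/-- the degree in the new variables -/
theorem weight_e₂ {L : Finset σ} (c : σ → ι) (u : σ ⊕ L →₀ ℕ) :
    Finsupp.weight (e₂ L) u = Finsupp.single () (u.mapDomain (cT c L) none) := by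
  classical
  induction u using Finsupp.induction_linear with
  | zero => simp
  | add a b ha hb => rw [map_add, ha, hb, Finsupp.mapDomain_add, Finsupp.add_apply,
      Finsupp.single_add]
  | single j n =>
    rw [Finsupp.weight_single, Finsupp.mapDomain_single]
    rcases j with j | j
    · simp [e₂, cT]
    · simp [e₂, cT]

theorem mdeg_cT {L : Finset σ} (c : σ → ι) (u : σ ⊕ L →₀ ℕ) :
    u.mapDomain (cT c L) = ((resL u).mapDomain c).mapDomain some +
      Finsupp.single none ((resR u).mapDomain (fun _ => ()) ()) := by
  rw [mdeg_join (c := c) (φ := some) (fun i => rfl)]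
  congr 1
  classical
  induction (resR u) using Finsupp.induction_linear with
  | zero => simp
  | add a b ha hb => rw [Finsupp.mapDomain_add, ha, hb, Finsupp.mapDomain_add, Finsupp.add_apply,
      Finsupp.single_add]
  | single j n =>
    rw [Finsupp.mapDomain_single, Finsupp.mapDomain_single, Finsupp.single_eq_same]
    rfl

/-- the degree of the image -/
noncomputable def degT (j₀ : ι) (d : Option ι →₀ ℕ) : ι →₀ ℕ :=
  d.mapDomain fun o => o.getD j₀

theorem mdeg_comb {c : σ → ι} {L : Finset σ} {j₀ : ι} (hL : ∀ i ∈ L, c i = j₀)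
    (u : σ ⊕ L →₀ ℕ) : (comb u).mapDomain c = degT j₀ (u.mapDomain (cT c L)) := by
  classical
  rw [degT, ← Finsupp.mapDomain_comp]
  induction u using Finsupp.induction_linear with
  | zero => rw [comb_zero, Finsupp.mapDomain_zero, Finsupp.mapDomain_zero]
  | add a b ha hb => rw [comb_add, Finsupp.mapDomain_add, ha, hb, Finsupp.mapDomain_add]
  | single j n =>
    rcases j with j | j
    · rw [comb_inl, Finsupp.mapDomain_single, Finsupp.mapDomain_single]; rfl
    · rw [comb_inr, Finsupp.mapDomain_single, Finsupp.mapDomain_single, hL _ j.2]; rfl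

theorem wcomp_of_mem {c : σ → ι} {L : Finset σ} {d : Option ι →₀ ℕ} {F : MvPolynomial (σ ⊕ L) K}
    (hF : F ∈ restrictSupport K (Ed (cT c L) d)) (b : Unit →₀ ℕ) :
    weightedHomogeneousComponent (e₂ L) b F = if b = Finsupp.single () (d none) then F else 0 := by
  classical
  ext u
  rw [coeff_weightedHomogeneousComponent, weight_e₂ c]
  by_cases hu : u ∈ F.support
  · have h1 : u.mapDomain (cT c L) = d := (mem_restrictSupport_iff K).1 hF hu
    rw [h1]
    by_cases hb : b = Finsupp.single () (d none)
    · rw [if_pos hb.symm, if_pos hb]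
    · rw [if_neg (Ne.symm hb), if_neg hb, coeff_zero]
  · rw [notMem_support_iff.1 hu, ite_self]
    split_ifs
    · exact (notMem_support_iff.1 hu).symm
    · rfl

theorem mem_theta_hom [Infinite K] {c : σ → ι} {L : Finset σ} {d : Option ι →₀ ℕ}
    {F : MvPolynomial (σ ⊕ L) K} {I : Ideal (MvPolynomial σ K)}
    (hF : F ∈ restrictSupport K (Ed (cT c L) d)) :
    F ∈ theta L I ↔ spc (y₂ L) F ∈ I := by
  rw [theta, mem_reesI']
  constructor
  · intro h
    have := h (Finsupp.single () (d none))
    rwa [wcomp_of_mem hF, if_pos rfl] at this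
  · intro h b
    rw [wcomp_of_mem hF]
    split_ifs
    · exact h
    · rw [map_zero]; exact I.zero_mem

theorem graded_theta [Infinite K] {c : σ → ι} {L : Finset σ} {j₀ : ι} (hL : ∀ i ∈ L, c i = j₀)
    {I : Ideal (MvPolynomial σ K)} (hI : IsGraded c I) : IsGraded (cT c L) (theta L I) := by
  classical
  intro F hF d
  rw [mem_theta_hom (hcomp_mem (cT c L) d F)]
  rw [theta, mem_reesI'] at hF
  have h1 := hI _ (hF (Finsupp.single () (d none))) (degT j₀ d)
  have h2 : hcomp c (degT j₀ d) (spc (y₂ L) (weightedHomogeneousComponent (e₂ L)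
      (Finsupp.single () (d none)) F)) = spc (y₂ L) (hcomp (cT c L) d F) := by
    have hw : weightedHomogeneousComponent (e₂ L) (Finsupp.single () (d none)) F =
        ∑ u ∈ F.support, if u.mapDomain (cT c L) none = d none then
          monomial u (coeff u F) else 0 := by
      rw [weightedHomogeneousComponent_apply, Finset.sum_filter]
      refine Finset.sum_congr rfl fun u _ => ?_
      rw [weight_e₂ c]
      by_cases h : u.mapDomain (cT c L) none = d none
      · rw [if_pos h, if_pos (by rw [h])]
      · rw [if_neg h, if_neg]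
        intro h'
        exact h (Finsupp.single_injective () h')
    have hh : hcomp (cT c L) d F = ∑ u ∈ F.support, if u.mapDomain (cT c L) = d then
        monomial u (coeff u F) else 0 := by
      rw [hcomp, weightedHomogeneousComponent_apply, Finset.sum_filter]
      refine Finset.sum_congr rfl fun u _ => ?_
      rw [weight_wt]
    rw [hw, hh, map_sum, map_sum, map_sum]
    refine Finset.sum_congr rfl fun u _ => ?_
    by_cases h : u.mapDomain (cT c L) none = d none
    · rw [if_pos h, spc_y₂]
      by_cases h' : u.mapDomain (cT c L) = d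
      · rw [if_pos h', spc_y₂]
        apply hcomp_eq_self
        rw [monomial_mem_restrictSupport]
        left
        rw [mem_Ed, mdeg_comb hL, h']
      · rw [if_neg h', map_zero]
        apply hcomp_eq_zero (d := degT j₀ (u.mapDomain (cT c L)))
        · rw [monomial_mem_restrictSupport]
          left
          rw [mem_Ed, mdeg_comb hL]
        · intro he
          apply h'
          -- the degree is determined by its image and the degree in the new variables
          have key : ∀ (d : Option ι →₀ ℕ) (j : ι), degT j₀ d j =
              d (some j) + if j = j₀ then d none else 0 := by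
            intro d j
            rw [degT]
            induction d using Finsupp.induction_linear with
            | zero => simp
            | add a b ha hb =>
              rw [Finsupp.mapDomain_add, Finsupp.add_apply, ha, hb, Finsupp.add_apply,
                Finsupp.add_apply]
              split_ifs <;> omega
            | single o n =>
              rw [Finsupp.mapDomain_single]
              rcases o with _ | j'
              · simp [Finsupp.single_apply, eq_comm]
              · simp [Finsupp.single_apply]
          ext o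
          rcases o with _ | j
          · exact h
          · have h3 := DFunLike.congr_fun he j
            rw [key, key, h] at h3
            omega
    · rw [if_neg h, if_neg (fun h' => h (by rw [h']))]
      simp
  rw [← h2]
  exact h1

/-- two linear maps with the same kernel have the same rank -/
theorem finrank_range_eq {V W W' : Type*} [AddCommGroup V] [Module K V] [AddCommGroup W]
    [Module K W] [AddCommGroup W'] [Module K W'] (f : V →ₗ[K] W) (g : V →ₗ[K] W')
    (h : LinearMap.ker f = LinearMap.ker g) :
    Module.finrank K (LinearMap.range f) = Module.finrank K (LinearMap.range g) := by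
  rw [← f.quotKerEquivRange.finrank_eq, ← g.quotKerEquivRange.finrank_eq, h]

/-- the exponents of monomials in the image -/
def TT (c : σ → ι) (L : Finset σ) (j₀ : ι) (d : Option ι →₀ ℕ) : Set (σ →₀ ℕ) :=
  {a | a ∈ Ed c (degT j₀ d) ∧ d none ≤ ∑ i ∈ L, a i}

theorem sum_resR {L : Finset σ} (u : σ ⊕ L →₀ ℕ) (c : σ → ι) :
    ∑ l : L, u (Sum.inr l) = u.mapDomain (cT c L) none := by
  classical
  rw [mdeg_cT, Finsupp.add_apply, Finsupp.single_eq_same,
    Finsupp.mapDomain_of_notMem_range _ _ (by simp), zero_add, Finsupp.mapDomain,
    Finsupp.sum_apply, Finsupp.sum_fintype _ _ (by simp)]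
  refine Finset.sum_congr rfl fun l _ => ?_
  simp

/-- splitting off the last part of a finite sequence of exponents -/
theorem split_exists {τ : Type*} [Fintype τ] [DecidableEq τ] (ρ : τ → ℕ) (b : τ →₀ ℕ) :
    ∀ e : ℕ, e ≤ ∑ i, b i → ∃ w ≤ b, ∑ i, w i = e ∧
      ∀ k ∈ w.support, ∀ i ∈ (b - w).support, ρ i ≤ ρ k := by
  intro e
  induction e with
  | zero =>
    intro _
    exact ⟨0, zero_le, by simp, by simp⟩
  | succ e ih =>
    intro he
    obtain ⟨w, hw, hs, hw'⟩ := ih (by omega)
    have hne : (b - w).support.Nonempty := by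
      rw [Finset.nonempty_iff_ne_empty]
      intro h0
      rw [Finsupp.support_eq_empty] at h0
      have : b = w := le_antisymm (tsub_eq_zero_iff_le.1 h0) hw
      rw [this, hs] at he
      omega
    obtain ⟨k, hk, hkmax⟩ := Finset.exists_max_image _ ρ hne
    have hkpos : 0 < b k - w k := by
      have := Finsupp.mem_support_iff.1 hk
      rw [Finsupp.tsub_apply] at this
      omega
    refine ⟨w + Finsupp.single k 1, ?_, ?_, ?_⟩
    · intro i
      rw [Finsupp.add_apply, Finsupp.single_apply]
      split_ifs with h
      · subst h; have := hw k; omega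
      · have := hw i; omega
    · have h1 : ∑ i, (w + Finsupp.single k 1 : τ →₀ ℕ) i =
          ∑ i, w i + ∑ i, (Finsupp.single k 1 : τ →₀ ℕ) i := by
        rw [← Finset.sum_add_distrib]; rfl
      rw [h1, hs]
      simp [Finsupp.single_apply]
    · intro k' hk' i hi
      have hi' : i ∈ (b - w).support := by
        rw [Finsupp.mem_support_iff, Finsupp.tsub_apply] at hi ⊢
        rw [Finsupp.add_apply] at hi
        omega
      rcases Finset.mem_union.1 (Finsupp.support_add hk') with h | h
      · exact hw' k' h i hi'
      · rw [Finset.mem_singleton.1 (Finsupp.support_single_subset h)]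
        exact hkmax i hi'

theorem split_unique {τ : Type*} [Fintype τ] (ρ : τ → ℕ) (hρ : Function.Injective ρ)
    {b w w' : τ →₀ ℕ} (hw : w ≤ b) (hw' : w' ≤ b) (hs : ∑ i, w i = ∑ i, w' i)
    (h : ∀ k ∈ w.support, ∀ i ∈ (b - w).support, ρ i ≤ ρ k)
    (h' : ∀ k ∈ w'.support, ∀ i ∈ (b - w').support, ρ i ≤ ρ k) : w = w' := by
  by_contra hne
  have h1 : ∃ i, w' i < w i := by
    by_contra hc
    push Not at hc
    apply hne
    ext i
    by_contra hi
    have hlt : w i < w' i := lt_of_le_of_ne (hc i) hi
    have := Finset.sum_lt_sum (fun i _ => hc i) ⟨i, Finset.mem_univ i, hlt⟩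
    omega
  have h2 : ∃ i, w i < w' i := by
    by_contra hc
    push Not at hc
    obtain ⟨i, hi⟩ := h1
    have := Finset.sum_lt_sum (fun i _ => hc i) ⟨i, Finset.mem_univ i, hi⟩
    omega
  obtain ⟨i, hi⟩ := h1
  obtain ⟨k, hk⟩ := h2
  have e1 : ρ k ≤ ρ i := h i (by rw [Finsupp.mem_support_iff]; omega) k (by
    rw [Finsupp.mem_support_iff, Finsupp.tsub_apply]
    have := hw' k; omega)
  have e2 : ρ i ≤ ρ k := h' k (by rw [Finsupp.mem_support_iff]; omega) i (by
    rw [Finsupp.mem_support_iff, Finsupp.tsub_apply]
    have := hw i; omega)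
  have : i = k := hρ (le_antisymm e2 e1)
  subst this
  omega

end Pool.Agent.H874.CS
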