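import Pool.Agent.H874.CS.Theta1

/-!
# The Rees-type extension: Hilbert function, II
-/

open MvPolynomial

namespace Pool.Agent.H874.CS

variable {σ ι K : Type*} [Field K]

theorem degT_apply [DecidableEq ι] (j₀ : ι) (d : Option ι →₀ ℕ) (j : ι) : degT j₀ d j =
    d (some j) + if j = j₀ then d none else 0 := by
  classical
  rw [degT]
  induction d using Finsupp.induction_linear with
  | zero => simp
  | add a b ha hb =>
    rw [Finsupp.mapDomain_add, Finsupp.add_apply, ha, hb, Finsupp.add_apply,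
      Finsupp.add_apply]
    split_ifs <;> omega
  | single o n =>
    rw [Finsupp.mapDomain_single]
    rcases o with _ | j'
    · simp [Finsupp.single_apply, eq_comm]
    · simp [Finsupp.single_apply]

theorem degT_inj (j₀ : ι) {d e : Option ι →₀ ℕ} (h : degT j₀ d = degT j₀ e)
    (h0 : d none = e none) : d = e := by
  classical
  ext o
  rcases o with _ | j
  · exact h0
  · have h3 := DFunLike.congr_fun h j
    rw [degT_apply, degT_apply, h0] at h3
    omega

theorem comb_apply_mem {L : Finset σ} (u : σ ⊕ L →₀ ℕ) (l : L) :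
    comb u (l : σ) = u (Sum.inl (l : σ)) + u (Sum.inr l) := by
  rw [comb, Finsupp.add_apply, Finsupp.mapDomain_apply Subtype.val_injective]
  rfl

theorem comb_apply_notMem {L : Finset σ} (u : σ ⊕ L →₀ ℕ) {i : σ} (hi : i ∉ L) :
    comb u i = u (Sum.inl i) := by
  rw [comb, Finsupp.add_apply, Finsupp.mapDomain_of_notMem_range, add_zero]
  · rfl
  · rintro ⟨l, rfl⟩
    exact hi l.2

theorem sum_comb {L : Finset σ} (u : σ ⊕ L →₀ ℕ) :
    ∑ i ∈ L, comb u i = ∑ l : L, u (Sum.inl (l : σ)) + ∑ l : L, u (Sum.inr l) := by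
  rw [← Finset.sum_coe_sort L (fun i => comb u i), ← Finset.sum_add_distrib]
  exact Finset.sum_congr rfl fun l _ => comb_apply_mem u l

theorem comb_mem_TT {c : σ → ι} {L : Finset σ} {j₀ : ι} (hL : ∀ i ∈ L, c i = j₀)
    {d : Option ι →₀ ℕ} {u : σ ⊕ L →₀ ℕ} (hu : u ∈ Ed (cT c L) d) : comb u ∈ TT c L j₀ d := by
  rw [mem_Ed] at hu
  refine ⟨?_, ?_⟩
  · rw [mem_Ed, mdeg_comb hL, hu]
  · rw [sum_comb, sum_resR u c, hu]
    omega

/-- the new variables are the last ones -/
def Sorted (ρ : σ → ℕ) {L : Finset σ} (u : σ ⊕ L →₀ ℕ) : Prop :=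
  ∀ k : L, u (Sum.inr k) ≠ 0 → ∀ i : L, u (Sum.inl (i : σ)) ≠ 0 → ρ i ≤ ρ k

theorem exists_split [Fintype σ] [DecidableEq σ] (ρ : σ → ℕ) {c : σ → ι} {L : Finset σ} {j₀ : ι}
    (hL : ∀ i ∈ L, c i = j₀) {d : Option ι →₀ ℕ} {a : σ →₀ ℕ} (ha : a ∈ TT c L j₀ d) :
    ∃ u ∈ Ed (cT c L) d, comb u = a ∧ Sorted ρ u := by
  classical
  set b : L →₀ ℕ := a.comapDomain Subtype.val Subtype.val_injective.injOn with hb
  have hb' : ∀ l : L, b l = a l := fun l => rfl
  obtain ⟨w, hw, hs, hsort⟩ := split_exists (fun l : L => ρ l) b (d none) (by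
    have := ha.2
    rwa [← Finset.sum_coe_sort L (fun i => a i)] at this)
  have hwa : w.mapDomain Subtype.val ≤ a := by
    intro i
    by_cases hi : i ∈ L
    · have : (w.mapDomain Subtype.val) i = w ⟨i, hi⟩ :=
        Finsupp.mapDomain_apply Subtype.val_injective w ⟨i, hi⟩
      rw [this]
      exact hw ⟨i, hi⟩
    · rw [Finsupp.mapDomain_of_notMem_range]
      · exact Nat.zero_le _
      · rintro ⟨l, rfl⟩
        exact hi l.2
  set u : σ ⊕ L →₀ ℕ := join (a - w.mapDomain Subtype.val) w with hu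
  have hcomb : comb u = a := by
    rw [comb, hu, resL_join, resR_join]
    exact tsub_add_cancel_of_le hwa
  have hinr : ∀ k : L, u (Sum.inr k) = w k := by
    intro k
    have := resR_apply u k
    rw [hu, resR_join] at this
    exact this.symm
  have hinl : ∀ i : L, u (Sum.inl (i : σ)) = b i - w i := by
    intro i
    have := resL_apply u (i : σ)
    rw [hu, resL_join] at this
    rw [hu, ← this, Finsupp.tsub_apply, Finsupp.mapDomain_apply Subtype.val_injective, hb']
  refine ⟨u, ?_, hcomb, ?_⟩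
  · rw [mem_Ed]
    apply degT_inj j₀
    · rw [← mdeg_comb hL, hcomb, mem_Ed.1 ha.1]
    · rw [← sum_resR u c, ← hs]
      exact Finset.sum_congr rfl fun k _ => hinr k
  · intro k hk i hi
    rw [hinr] at hk
    rw [hinl] at hi
    exact hsort k (Finsupp.mem_support_iff.2 hk) i (by
      rw [Finsupp.mem_support_iff, Finsupp.tsub_apply]; exact hi)

theorem split_inj [Fintype σ] [DecidableEq σ] {ρ : σ → ℕ} (hρ : Function.Injective ρ) {c : σ → ι}
    {L : Finset σ} {d : Option ι →₀ ℕ} {u v : σ ⊕ L →₀ ℕ}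
    (hu : u ∈ Ed (cT c L) d) (hv : v ∈ Ed (cT c L) d) (huv : comb u = comb v)
    (su : Sorted ρ u) (sv : Sorted ρ v) : u = v := by
  have hsum : ∑ l, resR u l = ∑ l, resR v l := by
    have h1 := sum_resR u c
    have h2 := sum_resR v c
    rw [mem_Ed.1 hu] at h1
    rw [mem_Ed.1 hv] at h2
    exact h1.trans h2.symm
  set b : L →₀ ℕ := (comb u).comapDomain Subtype.val Subtype.val_injective.injOn with hb
  have hbu : ∀ l : L, b l = u (Sum.inl (l : σ)) + u (Sum.inr l) := fun l => comb_apply_mem u l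
  have hbv : ∀ l : L, b l = v (Sum.inl (l : σ)) + v (Sum.inr l) := fun l => by
    rw [hb, huv]; exact comb_apply_mem v l
  have hR : resR u = resR v := by
    refine split_unique (fun l : L => ρ l) (fun a b h => Subtype.ext (hρ h)) (b := b) ?_ ?_ hsum
      ?_ ?_
    · intro l
      rw [hbu, resR_apply]; omega
    · intro l
      rw [hbv, resR_apply]; omega
    · intro k hk i hi
      rw [Finsupp.mem_support_iff] at hk hi
      rw [Finsupp.tsub_apply, hbu, resR_apply] at hi
      exact su k hk i (by omega)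
    · intro k hk i hi
      rw [Finsupp.mem_support_iff] at hk hi
      rw [Finsupp.tsub_apply, hbv, resR_apply] at hi
      exact sv k hk i (by omega)
  rw [← join_res u, ← join_res v, hR]
  congr 1
  rw [comb, comb, hR] at huv
  exact add_right_cancel huv

theorem map_spc [Fintype σ] [DecidableEq σ] {c : σ → ι} {L : Finset σ} {j₀ : ι}
    (hL : ∀ i ∈ L, c i = j₀) (d : Option ι →₀ ℕ) :
    (restrictSupport K (Ed (cT c L) d)).map (spc (y₂ L)).toLinearMap =
      restrictSupport K (TT c L j₀ d) := by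
  apply le_antisymm
  · rintro _ ⟨F, hF, rfl⟩
    rw [AlgHom.toLinearMap_apply, F.as_sum, map_sum]
    refine Submodule.sum_mem _ fun u hu => ?_
    rw [spc_y₂, monomial_mem_restrictSupport]
    exact Or.inl (comb_mem_TT hL ((mem_restrictSupport_iff K).1 hF hu))
  · intro f hf
    rw [f.as_sum]
    refine Submodule.sum_mem _ fun a ha => ?_
    obtain ⟨u, hu, hua, -⟩ := exists_split (fun _ => 0) hL ((mem_restrictSupport_iff K).1 hf ha)
    refine ⟨monomial u (coeff a f), ?_, ?_⟩
    · exact (monomial_mem_restrictSupport K).2 (Or.inl hu)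
    · rw [AlgHom.toLinearMap_apply, spc_y₂, hua]

theorem hf_theta [Infinite K] [Fintype σ] [DecidableEq σ] {c : σ → ι} {L : Finset σ} {j₀ : ι}
    (hL : ∀ i ∈ L, c i = j₀) (I : Ideal (MvPolynomial σ K)) (d : Option ι →₀ ℕ) :
    hf (cT c L) (theta L I) d = qdim (I.restrictScalars K) (TT c L j₀ d) := by
  rw [hf, qdim, qdim, ← map_spc hL, ← Submodule.map_comp, ← LinearMap.range_domRestrict,
    ← LinearMap.range_domRestrict]
  apply finrank_range_eq
  ext ⟨F, hF⟩
  rw [LinearMap.mem_ker, LinearMap.mem_ker, LinearMap.domRestrict_apply,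
    LinearMap.domRestrict_apply, LinearMap.comp_apply, Submodule.mkQ_apply, Submodule.mkQ_apply,
    Submodule.Quotient.mk_eq_zero, Submodule.Quotient.mk_eq_zero, Submodule.restrictScalars_mem,
    Submodule.restrictScalars_mem]
  exact mem_theta_hom hF

/-- the degree in the variables of the group which are not in `L` -/
noncomputable def bw [DecidableEq σ] [DecidableEq ι] (c : σ → ι) (L : Finset σ) (j₀ : ι) :
    (σ →₀ ℕ) →+ ℕ := Finsupp.weight fun i => if c i = j₀ ∧ i ∉ L then 1 else 0

theorem bw_add [Fintype σ] [DecidableEq σ] [DecidableEq ι] {c : σ → ι} {L : Finset σ} {j₀ : ι}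
    (hL : ∀ i ∈ L, c i = j₀) (a : σ →₀ ℕ) :
    bw c L j₀ a + ∑ i ∈ L, a i = a.mapDomain c j₀ := by
  classical
  have h1 : a.mapDomain c j₀ = ∑ i, if c i = j₀ then a i else 0 := by
    rw [Finsupp.mapDomain, Finsupp.sum_apply, Finsupp.sum_fintype _ _ (by simp)]
    refine Finset.sum_congr rfl fun i _ => ?_
    rw [Finsupp.single_apply]
  have h2 : ∑ i ∈ L, a i = ∑ i, if i ∈ L then a i else 0 := by
    rw [Finset.sum_ite_mem, Finset.univ_inter]
  rw [bw, Finsupp.weight_apply, Finsupp.sum_fintype _ _ (by simp), h1, h2,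
    ← Finset.sum_add_distrib]
  refine Finset.sum_congr rfl fun i _ => ?_
  by_cases h3 : i ∈ L
  · simp [h3, hL i h3]
  · by_cases h4 : c i = j₀
    · simp [h3, h4]
    · simp [h3, h4]

theorem compat_TT [Fintype σ] [DecidableEq σ] [DecidableEq ι] (m : MonomialOrder σ) {c : σ → ι}
    {L : Finset σ} {j₀ : ι} (hL : ∀ i ∈ L, c i = j₀) {I : Ideal (MvPolynomial σ K)}
    (hI : IsGraded c I) (d : Option ι →₀ ℕ) :
    Compat (wOrder (bw c L j₀) m) (I.restrictScalars K) (TT c L j₀ d) := by
  set mB := wOrder (bw c L j₀) m with hmB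
  rintro a ⟨ha1, ha2⟩ ⟨f, hf, h0, rfl⟩
  have := degree_hcomp mB c h0 ha1
  refine ⟨hcomp c (degT j₀ d) f, hI f hf _, this.1, this.2, ?_⟩
  rw [mem_restrictSupport_iff]
  intro b hb
  have hb1 : b ∈ Ed c (degT j₀ d) := (mem_restrictSupport_iff K).1 (hcomp_mem c _ f) hb
  refine ⟨hb1, ?_⟩
  have hb2 : bw c L j₀ b ≤ bw c L j₀ (mB.degree f) :=
    wOrder_le (mB.le_degree (support_hcomp c _ f hb))
  have h1 := bw_add hL b
  have h2 := bw_add hL (mB.degree f)
  rw [mem_Ed.1 hb1] at h1
  rw [mem_Ed.1 ha1] at h2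
  omega

/-- the split grading: the variables in `L` form a group of their own -/
def cS [DecidableEq σ] (c : σ → ι) (L : Finset σ) : σ → Option ι :=
  fun i => if i ∈ L then none else some (c i)

theorem mdeg_cS [DecidableEq σ] {c : σ → ι} {L : Finset σ} {j₀ : ι} (hL : ∀ i ∈ L, c i = j₀)
    (a : σ →₀ ℕ) : a.mapDomain c = degT j₀ (a.mapDomain (cS c L)) := by
  rw [degT, ← Finsupp.mapDomain_comp]
  congr 1
  funext i
  rw [Function.comp_apply, cS]
  split_ifs with h
  · exact hL i h
  · rfl

theorem mdeg_cS_none [Fintype σ] [DecidableEq σ] {c : σ → ι} {L : Finset σ} (a : σ →₀ ℕ) :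
    a.mapDomain (cS c L) none = ∑ i ∈ L, a i := by
  classical
  rw [Finsupp.mapDomain, Finsupp.sum_apply, Finsupp.sum_fintype _ _ (by simp)]
  have h2 : ∑ i ∈ L, a i = ∑ i, if i ∈ L then a i else 0 := by
    rw [Finset.sum_ite_mem, Finset.univ_inter]
  rw [h2]
  refine Finset.sum_congr rfl fun i _ => ?_
  rw [Finsupp.single_apply, cS]
  split_ifs <;> simp_all

/-- the sets which are unions of split degrees -/
theorem ncard_split [Fintype σ] [DecidableEq σ] {c : σ → ι} {L : Finset σ} {A B : Set (σ →₀ ℕ)}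
    (h : ∀ e, (Ed (cS c L) e \ A).ncard = (Ed (cS c L) e \ B).ncard) {T : Set (σ →₀ ℕ)}
    (hT : T.Finite) (hT' : ∀ a b : σ →₀ ℕ, a.mapDomain (cS c L) = b.mapDomain (cS c L) →
      a ∈ T → b ∈ T) : (T \ A).ncard = (T \ B).ncard := by
  classical
  have key : ∀ A : Set (σ →₀ ℕ), (T \ A).ncard =
      ∑ e ∈ (hT.image fun a => a.mapDomain (cS c L)).toFinset, (Ed (cS c L) e \ A).ncard := by
    intro A
    rw [ncard_fiber (T \ A) (hT.subset Set.sdiff_subset) (fun a => a.mapDomain (cS c L))
      (hT.image fun a => a.mapDomain (cS c L)).toFinset]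
    · refine Finset.sum_congr rfl fun e he => ?_
      rw [Set.Finite.mem_toFinset] at he
      obtain ⟨b, hb, hbe⟩ := he
      congr 1
      ext a
      constructor
      · rintro ⟨⟨-, h2⟩, h3⟩
        exact ⟨h3, h2⟩
      · rintro ⟨h1, h2⟩
        exact ⟨⟨hT' b a (by rw [mem_Ed.1 h1]; exact hbe) hb, h2⟩, h1⟩
    · intro a ha
      rw [Set.Finite.mem_toFinset]
      exact ⟨a, ha.1, rfl⟩
  rw [key, key]
  exact Finset.sum_congr rfl fun e _ => h e

theorem TT_split [Fintype σ] [DecidableEq σ] {c : σ → ι} {L : Finset σ} {j₀ : ι}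
    (hL : ∀ i ∈ L, c i = j₀) (d : Option ι →₀ ℕ) (a b : σ →₀ ℕ)
    (h : a.mapDomain (cS c L) = b.mapDomain (cS c L)) (ha : a ∈ TT c L j₀ d) :
    b ∈ TT c L j₀ d := by
  refine ⟨?_, ?_⟩
  · rw [mem_Ed, mdeg_cS hL, ← h, ← mdeg_cS hL]
    exact ha.1
  · rw [← mdeg_cS_none (c := c), ← h, mdeg_cS_none]
    exact ha.2

theorem Ed_split [Fintype σ] [DecidableEq σ] {c : σ → ι} {L : Finset σ} {j₀ : ι}
    (hL : ∀ i ∈ L, c i = j₀) (d : ι →₀ ℕ) (a b : σ →₀ ℕ)
    (h : a.mapDomain (cS c L) = b.mapDomain (cS c L)) (ha : a ∈ Ed c d) :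
    b ∈ Ed c d := by
  rw [mem_Ed, mdeg_cS hL, ← h, ← mdeg_cS hL]
  exact ha

variable [Fintype σ] [DecidableEq σ] [DecidableEq ι]

/-- the split generic set -/
theorem exists_splitGin [Infinite K] {c : σ → ι} {L : Finset σ} {j₀ : ι} (hL : ∀ i ∈ L, c i = j₀)
    {I : Ideal (MvPolynomial σ K)} (hI : IsGraded c I) :
    ∃ (M : Set (σ →₀ ℕ)) (ρ : σ → ℕ), Function.Injective ρ ∧ IsUpperSet M ∧
      WBs (cS c L) (fun x z => ρ x < ρ z) M ∧
      (∀ d, hf c I d = (Ed c d \ M).ncard) ∧
      (∀ d, hf (cT c L) (theta L I) d = (TT c L j₀ d \ M).ncard) := by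
  classical
  obtain ⟨m, -⟩ := exists_order (Fintype.equivFin σ · : σ → ℕ)
    (fun a b h => (Fintype.equivFin σ).injective (Fin.ext h))
  obtain ⟨ρ, hρ, hρ'⟩ := exists_rank m
  set mB := wOrder (bw c L j₀) m with hmB
  set A := Lead mB (I : Set (MvPolynomial σ K)) with hA
  have hAup : IsUpperSet A := Lead_upper mB I
  obtain ⟨M, hM, wM, hhf, -⟩ := gin_exists m (cS c L) (mono_graded (K := K) (cS c L) hAup)
  have hsp : ∀ e, (Ed (cS c L) e \ M).ncard = (Ed (cS c L) e \ A).ncard := by
    intro e
    rw [← hhf, hf_mono _ _ m]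
  refine ⟨M, ρ, hρ, hM, fun x z hc hlt => wM x z hc ((hρ' x z).2 hlt), ?_, ?_⟩
  · intro d
    rw [ncard_split hsp (finite_Ed c d) (Ed_split hL d), hf_eq mB c hI]
  · intro d
    rw [ncard_split hsp ((finite_Ed c _).subset fun a ha => ha.1) (TT_split hL d), hf_theta hL]
    exact macaulay mB _ _ (compat_TT m hL hI d)

theorem split_radSet [Infinite K] {c : σ → ι} {I : Ideal (MvPolynomial σ K)} (hR : Rad c I)
    {M : Set (σ →₀ ℕ)} (hM : IsUpperSet M) (h : ∀ d, hf c I d = (Ed c d \ M).ncard) :
    RadSet M := by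
  obtain ⟨m, -⟩ := exists_order (Fintype.equivFin σ · : σ → ℕ)
    (fun a b h => (Fintype.equivFin σ).injective (Fin.ext h))
  have := hR.lead (mono_graded (K := K) c hM) (fun d => by rw [hf_mono c hM m, h]) m
  rwa [Lead_mono_eq] at this

/-- the minimal generators involve at most one variable of each group -/
theorem one_var [Infinite K] {c : σ → ι} {I : Ideal (MvPolynomial σ K)} (hR : Rad c I)
    {M : Set (σ →₀ ℕ)} (hM : IsUpperSet M) (h : ∀ d, hf c I d = (Ed c d \ M).ncard)
    {x z : σ} (hxz : x ≠ z) (hc : c x = c z) {u : σ →₀ ℕ}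
    (hu : u + Finsupp.single x 1 + Finsupp.single z 1 ∈ M) :
    u + Finsupp.single x 1 ∈ M ∨ u + Finsupp.single z 1 ∈ M := by
  classical
  have rM := split_radSet hR hM h
  by_contra hcon
  push Not at hcon
  obtain ⟨h1, h2⟩ := hcon
  -- the exponents of `x` and `z` in `u` are zero
  have hzero : ∀ w w' : σ, u + Finsupp.single w 1 + Finsupp.single w' 1 ∈ M →
      u + Finsupp.single w 1 ∉ M → u w' = 0 := by
    intro w w' hw hw'
    by_contra h0
    apply hw'
    refine rad_supp hM rM hw ?_
    intro i hi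
    rw [Finsupp.mem_support_iff] at hi ⊢
    rw [Finsupp.add_apply] at hi
    by_cases hiw : i = w'
    · subst hiw
      rw [Finsupp.add_apply]
      omega
    · rwa [Finsupp.single_eq_of_ne hiw, add_zero] at hi
  have hz0 : u z = 0 := hzero x z hu h1
  have hx0 : u x = 0 := hzero z x (by rw [add_right_comm]; exact hu) h2
  -- a monomial order with `x > z`
  set ρ : σ → ℕ := fun i => if i = x then 0 else (Fintype.equivFin σ i : ℕ) + 1 with hρdef
  have hval : ∀ i, ρ i = if i = x then 0 else (Fintype.equivFin σ i : ℕ) + 1 := fun i => rfl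
  have hρ : Function.Injective ρ := by
    intro i j hij
    rw [hval, hval] at hij
    by_cases h3 : i = x <;> by_cases h4 : j = x
    · rw [h3, h4]
    · rw [if_pos h3, if_neg h4] at hij; omega
    · rw [if_neg h3, if_pos h4] at hij; omega
    · rw [if_neg h3, if_neg h4] at hij
      exact (Fintype.equivFin σ).injective (Fin.ext (by omega))
  obtain ⟨m, hm⟩ := exists_order ρ hρ
  have hbef : Bef m x z := (hm x z).2 (by
    rw [hval, hval, if_pos rfl, if_neg hxz.symm]
    omega)
  set b := Matrix.transvection x z (1 : K) with hb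
  have hbG : InG c b := inG_transvection c hxz hc 1
  have hgr := graded_map hbG (mono_graded (K := K) c hM)
  have hrad := hR.lead hgr (fun d => by rw [hf_map hbG, hf_mono c hM m, h]) m
  -- the image of `x z u`
  have hact : act b (monomial (u + Finsupp.single x 1 + Finsupp.single z 1) (1 : K)) =
      monomial (u + Finsupp.single x 1 + Finsupp.single z 1) 1 +
      monomial (u + Finsupp.single x 2) 1 := by
    have e1 : monomial (u + Finsupp.single x 1 + Finsupp.single z 1) (1 : K) =
        monomial (u + Finsupp.single x 1) 1 * X z := by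
      rw [X, monomial_mul, one_mul]
    have e2 : (u + Finsupp.single x 1 : σ →₀ ℕ) z = 0 := by
      rw [Finsupp.add_apply, hz0, Finsupp.single_eq_of_ne hxz.symm, add_zero]
    have e3 : u + Finsupp.single x 2 = u + Finsupp.single x 1 + Finsupp.single x 1 := by
      rw [add_assoc, ← Finsupp.single_add]
    rw [e1, map_mul, hb, act_transvection_fix x z 1 e2, act_transvection, if_pos rfl, one_smul,
      mul_add, X, X, monomial_mul, monomial_mul, one_mul, e3]
  have hv : coeff (u + Finsupp.single x 2)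
      (act b (monomial (u + Finsupp.single x 1 + Finsupp.single z 1) (1 : K))) = 1 := by
    rw [hact, coeff_add, coeff_monomial, coeff_monomial, if_neg, if_pos rfl, zero_add]
    intro h3
    have := DFunLike.congr_fun h3 z
    simp only [Finsupp.add_apply, hz0, Finsupp.single_eq_same,
      Finsupp.single_eq_of_ne hxz.symm] at this
    omega
  have hlt : m.toSyn (u + Finsupp.single x 1 + Finsupp.single z 1) <
      m.toSyn (u + Finsupp.single x 2) := by
    have : u + Finsupp.single x 2 = u + Finsupp.single x 1 + Finsupp.single x 1 := by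
      rw [add_assoc, ← Finsupp.single_add]
    rw [this, map_add, map_add m.toSyn (u + Finsupp.single x 1)]
    exact add_lt_add_right hbef _
  have hlead : u + Finsupp.single x 2 ∈ Lead m (((mono K M hM).map (act b) :
      Ideal (MvPolynomial σ K)) : Set (MvPolynomial σ K)) := by
    refine ⟨_, (act_mem_map hbG.2).2 (monomial_mem_mono.2 hu), ?_, ?_⟩
    · intro h0
      rw [h0, coeff_zero] at hv
      exact zero_ne_one hv
    · apply degree_eq m
      · rw [mem_support_iff, hv]; exact one_ne_zero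
      · intro v hv'
        rw [hact] at hv'
        rcases Finset.mem_union.1 (support_add hv') with h3 | h3
        · rw [Finset.mem_singleton.1 (support_monomial_subset h3)]
          exact hlt.le
        · rw [Finset.mem_singleton.1 (support_monomial_subset h3)]
  have hlead2 : u + Finsupp.single x 1 ∈ Lead m (((mono K M hM).map (act b) :
      Ideal (MvPolynomial σ K)) : Set (MvPolynomial σ K)) := by
    refine rad_supp (Lead_upper m _) hrad hlead ?_
    intro i hi
    rw [Finsupp.mem_support_iff, Finsupp.add_apply] at hi ⊢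
    by_cases hix : i = x
    · subst hix
      rw [Finsupp.single_eq_same]; omega
    · rw [Finsupp.single_eq_of_ne hix, add_zero] at hi ⊢
      exact hi
  obtain ⟨G, hG, hG0, hGd⟩ := hlead2
  obtain ⟨F, hF, rfl⟩ := (mem_map_act hbG.2).1 hG
  have hne : coeff (u + Finsupp.single x 1) (act b F) ≠ 0 := by
    rw [← hGd]
    exact mem_support_iff.1 (m.degree_mem_support hG0)
  apply hne
  -- the coefficient of `x u` vanishes
  rw [F.as_sum, map_sum, coeff_sum]
  apply Finset.sum_eq_zero
  intro v hv'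
  have hvM : v ∈ M := mem_mono.1 hF hv'
  have hsm : (monomial v (coeff v F) : MvPolynomial σ K) = coeff v F • monomial v 1 := by
    rw [smul_monomial, smul_eq_mul, mul_one]
  rw [hsm, map_smul, coeff_smul]
  have hco : coeff (u + Finsupp.single x 1) (act b (monomial v (1 : K))) = 0 := by
    -- write `v = w + a z`
    set w := v.erase z with hw
    have hvw : v = w + Finsupp.single z (v z) := by
      rw [hw, add_comm, Finsupp.single_add_erase]
    have hwz : w z = 0 := by rw [hw, Finsupp.erase_same]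
    have e1 : monomial v (1 : K) = monomial w 1 * X z ^ (v z) := by
      rw [X_pow_eq_monomial, monomial_mul, one_mul, ← hvw]
    rw [e1, map_mul, hb, act_transvection_fix x z 1 hwz, map_pow, act_transvection, if_pos rfl,
      one_smul, coeff_monomial_mul', one_mul]
    split_ifs with hle
    · rw [add_pow, coeff_sum]
      apply Finset.sum_eq_zero
      intro k hk
      rw [X_pow_eq_monomial, X_pow_eq_monomial, monomial_mul, mul_one, ← C_eq_coe_nat, mul_comm,
        coeff_C_mul, coeff_monomial, if_neg, mul_zero]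
      intro he
      rw [Finset.mem_range] at hk
      have hez := DFunLike.congr_fun he z
      rw [Finsupp.add_apply, Finsupp.single_eq_same, Finsupp.single_eq_of_ne hxz.symm,
        Finsupp.tsub_apply, Finsupp.add_apply, hz0, Finsupp.single_eq_of_ne hxz.symm] at hez
      have hk0 : k = 0 := by omega
      have hex := DFunLike.congr_fun he x
      rw [Finsupp.add_apply, Finsupp.single_eq_same, Finsupp.single_eq_of_ne hxz,
        Finsupp.tsub_apply, Finsupp.add_apply, hx0, Finsupp.single_eq_same] at hex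
      have hvz : v z = 0 ∨ v z = 1 := by omega
      rcases hvz with hvz | hvz
      · -- `v = u + x`
        apply h1
        have : v = u + Finsupp.single x 1 := by
          rw [hvw, hvz, Finsupp.single_zero, add_zero]
          have h4 : u + Finsupp.single x 1 = w + (u + Finsupp.single x 1 - w) :=
            (add_tsub_cancel_of_le hle).symm
          rw [← he, hvz, hk0] at h4
          simpa using h4.symm
        rwa [← this]
      · apply h2
        have h4 : u + Finsupp.single x 1 = w + (u + Finsupp.single x 1 - w) :=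
          (add_tsub_cancel_of_le hle).symm
        rw [← he, hvz, hk0, Finsupp.single_zero, zero_add, Nat.sub_zero] at h4
        have h5 : u = w := add_right_cancel h4
        rw [h5, ← hvz, ← hvw]
        exact hvM
    · rfl
  rw [hco, smul_zero]

end Pool.Agent.H874.CS
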