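import Pool.Agent.H874.CS.Theta2

/-!
# The Rees-type extension preserves the Cartwright-Sturmfels property
-/

namespace Pool.Agent.H874.CS

open Classical in
/-- position in the group -/
noncomputable def pos {σ ι : Type*} [Fintype σ] (c : σ → ι) (j₀ : ι) (ρ : σ → ℕ) (i : σ) : ℕ :=
  (Finset.univ.filter fun i' => c i' = j₀ ∧ ρ i' < ρ i).card

open Classical in
/-- a permutation of a group of variables which moves a set to an initial segment -/
theorem exists_perm {σ ι : Type*} [Fintype σ] (c : σ → ι) (j₀ : ι) (ρ : σ → ℕ)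
    (hρ : Function.Injective ρ) (Y : Finset σ) (hY : ∀ i ∈ Y, c i = j₀) :
    ∃ π : Equiv.Perm σ, (∀ i, c (π i) = c i) ∧ (∀ i, c i ≠ j₀ → π i = i) ∧
      ∀ i, c i = j₀ → (i ∈ Y ↔ pos c j₀ ρ (π i) < Y.card) := by
  set V := Finset.univ.filter fun i => c i = j₀ with hV
  set pos : σ → ℕ := pos c j₀ ρ with hpos
  have hposlt : ∀ i i', c i = j₀ → ρ i < ρ i' → pos i < pos i' := by
    intro i i' hi hlt
    apply Finset.card_lt_card
    rw [Finset.ssubset_iff_of_subset]
    · exact ⟨i, by simpa using ⟨hi, hlt⟩, by simp⟩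
    · intro y hy
      simp only [Finset.mem_filter, Finset.mem_univ, true_and] at hy ⊢
      exact ⟨hy.1, hy.2.trans hlt⟩
  have hposinj : Set.InjOn pos (V : Set σ) := by
    intro i hi i' hi' he
    simp only [hV, Finset.coe_filter, Finset.mem_univ, true_and, Set.mem_ofPred_eq] at hi hi'
    rcases lt_trichotomy (ρ i) (ρ i') with h | h | h
    · have := hposlt i i' hi h; omega
    · exact hρ h
    · have := hposlt i' i hi' h; omega
  have hposV : ∀ i ∈ V, pos i < V.card := by
    intro i hi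
    apply Finset.card_lt_card
    rw [Finset.ssubset_iff_of_subset]
    · exact ⟨i, hi, by simp⟩
    · intro y hy
      simp only [Finset.mem_filter, Finset.mem_univ, true_and, hV] at hy ⊢
      exact hy.1
  have himage : V.image pos = Finset.range V.card := by
    apply Finset.eq_of_subset_of_card_le
    · intro n hn
      obtain ⟨i, hi, rfl⟩ := Finset.mem_image.1 hn
      exact Finset.mem_range.2 (hposV i hi)
    · rw [Finset.card_range, Finset.card_image_of_injOn hposinj]
  have hYV : Y ⊆ V := fun i hi => Finset.mem_filter.2 ⟨Finset.mem_univ i, hY i hi⟩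
  have hcard : (V.filter fun i => pos i < Y.card).card = Y.card := by
    have h1 : (V.filter fun i => pos i < Y.card).image pos = Finset.range Y.card := by
      ext n
      rw [Finset.mem_image, Finset.mem_range]
      constructor
      · rintro ⟨i, hi, rfl⟩
        exact (Finset.mem_filter.1 hi).2
      · intro hn
        have : n ∈ V.image pos := by
          rw [himage, Finset.mem_range]
          exact lt_of_lt_of_le hn (Finset.card_le_card hYV)
        obtain ⟨i, hi, rfl⟩ := Finset.mem_image.1 this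
        exact ⟨i, Finset.mem_filter.2 ⟨hi, hn⟩, rfl⟩
    rw [← Finset.card_image_of_injOn (f := pos), h1, Finset.card_range]
    exact hposinj.mono (Finset.coe_subset.2 (Finset.filter_subset _ _))
  -- the permutation of the subtype
  set A : Finset {i : σ // c i = j₀} := Finset.univ.filter fun v => (v : σ) ∈ Y with hA
  set B : Finset {i : σ // c i = j₀} := Finset.univ.filter fun v => pos (v : σ) < Y.card with hB
  have hAB : A.card = B.card := by
    have h1 : A.map ⟨Subtype.val, Subtype.val_injective⟩ = Y := by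
      ext i
      simp only [hA, Finset.mem_map, Finset.mem_filter, Finset.mem_univ, true_and,
        Function.Embedding.coeFn_mk, Subtype.exists, exists_and_left, exists_prop, exists_eq_right_right]
      exact ⟨fun h => h.1, fun h => ⟨h, hY i h⟩⟩
    have h2 : B.map ⟨Subtype.val, Subtype.val_injective⟩ = V.filter fun i => pos i < Y.card := by
      ext i
      simp only [hB, hV, Finset.mem_map, Finset.mem_filter, Finset.mem_univ, true_and,
        Function.Embedding.coeFn_mk, Subtype.exists, exists_and_left, exists_prop, exists_eq_right_right]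
      exact and_comm
    rw [← Finset.card_map ⟨Subtype.val, Subtype.val_injective⟩, h1,
      ← Finset.card_map (s := B) ⟨Subtype.val, Subtype.val_injective⟩, h2, hcard]
  obtain ⟨π₀, hπ₀⟩ := Equiv.Perm.exists_map_finset_eq A B hAB
  refine ⟨Equiv.Perm.ofSubtype π₀, ?_, ?_, ?_⟩
  · intro i
    by_cases hi : c i = j₀
    · rw [Equiv.Perm.ofSubtype_apply_of_mem π₀ hi, hi]
      exact (π₀ ⟨i, hi⟩).2
    · rw [Equiv.Perm.ofSubtype_apply_of_not_mem π₀ hi]
  · intro i hi
    exact Equiv.Perm.ofSubtype_apply_of_not_mem π₀ hi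
  · intro i hi
    rw [Equiv.Perm.ofSubtype_apply_of_mem π₀ hi]
    have h1 : i ∈ Y ↔ (⟨i, hi⟩ : {i : σ // c i = j₀}) ∈ A := by
      simp [hA]
    have h2 : (⟨i, hi⟩ : {i : σ // c i = j₀}) ∈ A ↔ π₀ ⟨i, hi⟩ ∈ B := by
      rw [← hπ₀, Finset.mem_map_equiv, Equiv.symm_apply_apply]
    rw [h1, h2, hB, Finset.mem_filter]
    exact ⟨fun h => h.2, fun h => ⟨Finset.mem_univ _, h⟩⟩

section

variable {σ ι : Type*} [Fintype σ] [DecidableEq σ] [DecidableEq ι]

/-- the part of the exponents outside of the group `j₀` -/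
noncomputable def off (c : σ → ι) (j₀ : ι) (a : σ →₀ ℕ) : σ →₀ ℕ := a.filter fun i => c i ≠ j₀

omit [Fintype σ] [DecidableEq σ] in
theorem off_apply (c : σ → ι) (j₀ : ι) (a : σ →₀ ℕ) (i : σ) :
    off c j₀ a i = if c i ≠ j₀ then a i else 0 := by
  rw [off, Finsupp.filter_apply]

omit [Fintype σ] [DecidableEq σ] in
theorem off_le (c : σ → ι) (j₀ : ι) (a : σ →₀ ℕ) : off c j₀ a ≤ a := by
  intro i
  rw [off_apply]
  split_ifs
  · exact le_rfl
  · exact Nat.zero_le _

omit [Fintype σ] [DecidableEq σ] in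
theorem off_mono (c : σ → ι) (j₀ : ι) {a b : σ →₀ ℕ} (h : a ≤ b) : off c j₀ a ≤ off c j₀ b := by
  intro i
  rw [off_apply, off_apply]
  split_ifs
  · exact h i
  · exact Nat.zero_le _

omit [Fintype σ] [DecidableEq σ] in
theorem off_add (c : σ → ι) (j₀ : ι) (a b : σ →₀ ℕ) :
    off c j₀ (a + b) = off c j₀ a + off c j₀ b := by
  ext i
  rw [Finsupp.add_apply, off_apply, off_apply, off_apply]
  split_ifs
  · rfl
  · rfl

omit [Fintype σ] [DecidableEq σ] in
theorem off_single_in {c : σ → ι} {j₀ : ι} {i : σ} (hi : c i = j₀) (n : ℕ) :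
    off c j₀ (Finsupp.single i n) = 0 := by
  classical
  ext j
  rw [off_apply]
  split_ifs with h
  · rw [Finsupp.single_apply, if_neg]
    · rfl
    · rintro rfl; exact h hi
  · rfl

omit [Fintype σ] [DecidableEq σ] in
theorem off_single_out {c : σ → ι} {j₀ : ι} {i : σ} (hi : c i ≠ j₀) (n : ℕ) :
    off c j₀ (Finsupp.single i n) = Finsupp.single i n := by
  classical
  ext j
  rw [off_apply]
  split_ifs with h
  · rfl
  · rw [Finsupp.single_apply, if_neg]
    rintro rfl; exact h hi

/-- the structure of the elements of `M` -/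
theorem mem_struct {c : σ → ι} {j₀ : ι} {M : Set (σ →₀ ℕ)} (hM : IsUpperSet M) (rM : RadSet M)
    (hone : ∀ (x z : σ) (u : σ →₀ ℕ), x ≠ z → c x = c z →
      u + Finsupp.single x 1 + Finsupp.single z 1 ∈ M →
      u + Finsupp.single x 1 ∈ M ∨ u + Finsupp.single z 1 ∈ M) (a : σ →₀ ℕ) :
    a ∈ M ↔ off c j₀ a ∈ M ∨ ∃ i, c i = j₀ ∧ a i ≠ 0 ∧ off c j₀ a + Finsupp.single i 1 ∈ M := by
  constructor
  · have key : ∀ (n : ℕ) (a : σ →₀ ℕ), ∑ i, a i = n → a ∈ M → off c j₀ a ∈ M ∨
        ∃ i, c i = j₀ ∧ a i ≠ 0 ∧ off c j₀ a + Finsupp.single i 1 ∈ M := by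
      intro n
      induction n using Nat.strong_induction_on with
      | _ n ih =>
      intro a hn ha
      by_cases h2 : ∃ x z, x ≠ z ∧ c x = j₀ ∧ c z = j₀ ∧ a x ≠ 0 ∧ a z ≠ 0
      · obtain ⟨x, z, hxz, hx, hz, hax, haz⟩ := h2
        set u := a - Finsupp.single x 1 - Finsupp.single z 1 with hu
        have hau : a = u + Finsupp.single x 1 + Finsupp.single z 1 := by
          ext i
          rw [Finsupp.add_apply, Finsupp.add_apply, hu, Finsupp.tsub_apply, Finsupp.tsub_apply,
            Finsupp.single_apply, Finsupp.single_apply]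
          split_ifs with h1 h2 h2
          · exact absurd (h1.trans h2.symm) hxz
          · subst h1; omega
          · subst h2; omega
          · omega
        have hsum : ∀ w : σ, ∑ i, (u + Finsupp.single w 1 : σ →₀ ℕ) i = ∑ i, u i + 1 := by
          intro w
          simp only [Finsupp.add_apply, Finset.sum_add_distrib, Finsupp.single_apply,
            Finset.sum_ite_eq, Finset.mem_univ, if_true]
        have hsa : ∑ i, a i = ∑ i, u i + 2 := by
          rw [hau]
          simp only [Finsupp.add_apply, Finset.sum_add_distrib, Finsupp.single_apply,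
            Finset.sum_ite_eq, Finset.mem_univ, if_true]
        have hoff : off c j₀ a = off c j₀ u := by
          rw [hau, off_add, off_add, off_single_in hx, off_single_in hz, add_zero, add_zero]
        have hgen : ∀ w : σ, c w = j₀ → a w ≠ 0 → u + Finsupp.single w 1 ∈ M →
            off c j₀ a ∈ M ∨ ∃ i, c i = j₀ ∧ a i ≠ 0 ∧ off c j₀ a + Finsupp.single i 1 ∈ M := by
          intro w hw haw hmem
          have h3 := ih (∑ i, (u + Finsupp.single w 1 : σ →₀ ℕ) i) (by rw [hsum]; omega) _ rfl hmem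
          rw [off_add, off_single_in hw, add_zero, ← hoff] at h3
          rcases h3 with h3 | ⟨i, hi1, hi2, hi3⟩
          · exact Or.inl h3
          · refine Or.inr ⟨i, hi1, ?_, hi3⟩
            by_cases hiw : i = w
            · rw [hiw]; exact haw
            · rw [Finsupp.add_apply, Finsupp.single_eq_of_ne hiw, add_zero] at hi2
              have : u i ≤ a i := by
                rw [hu, Finsupp.tsub_apply, Finsupp.tsub_apply]; omega
              omega
        rw [hau] at ha
        rcases hone x z u hxz (hx.trans hz.symm) ha with h3 | h3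
        · exact hgen x hx hax h3
        · exact hgen z hz haz h3
      · push Not at h2
        by_cases h3 : ∃ x, c x = j₀ ∧ a x ≠ 0
        · obtain ⟨x, hx, hax⟩ := h3
          right
          refine ⟨x, hx, hax, rad_supp hM rM ha ?_⟩
          intro i hi
          rw [Finsupp.mem_support_iff] at hi ⊢
          rw [Finsupp.add_apply, off_apply]
          by_cases hix : i = x
          · rw [hix, Finsupp.single_eq_same]; omega
          · have hci : c i ≠ j₀ := fun h => hi (h2 x i (Ne.symm hix) hx h hax)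
            rw [if_pos hci]
            omega
        · push Not at h3
          left
          have : off c j₀ a = a := by
            ext i
            rw [off_apply]
            split_ifs with h
            · rfl
            · rw [not_not] at h
              exact (h3 i h).symm
          rw [this]; exact ha
    exact key _ a rfl
  · rintro (h | ⟨i, hi, hai, h⟩)
    · exact hM (off_le c j₀ a) h
    · refine hM ?_ h
      intro k
      rw [Finsupp.add_apply, off_apply, Finsupp.single_apply]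
      split_ifs with h1 h2 h2
      · subst h2; exact absurd hi h1
      · omega
      · subst h2; omega
      · omega

variable (c : σ → ι) (L : Finset σ) (j₀ : ι) (M : Set (σ →₀ ℕ)) (ρ : σ → ℕ)

open Classical in
/-- the variables of the group `j₀` which are forbidden by the other exponents -/
noncomputable def X1 (u : σ ⊕ L →₀ ℕ) : Finset σ :=
  Finset.univ.filter fun i => c i = j₀ ∧ (off c j₀ (resL u) + Finsupp.single i 1 ∈ M ∨
    (i ∈ L ∧ ∃ k : L, u (Sum.inr k) ≠ 0 ∧ ρ k < ρ i))

/-- exponents which are bad because of the variables not in the group `j₀` -/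
def Bad (u : σ ⊕ L →₀ ℕ) : Prop :=
  off c j₀ (resL u) ∈ M ∨ ∃ l : L, u (Sum.inr l) ≠ 0 ∧
    off c j₀ (resL u) + Finsupp.single (l : σ) 1 ∈ M

/-- the standard initial set -/
def M1 : Set (σ ⊕ L →₀ ℕ) :=
  {u | Bad c L j₀ M u ∨ ∃ i ∈ X1 c L j₀ M ρ u, u (Sum.inl i) ≠ 0}

/-- the compressed set -/
def Mt : Set (σ ⊕ L →₀ ℕ) :=
  {u | Bad c L j₀ M u ∨ ∃ i, c i = j₀ ∧ u (Sum.inl i) ≠ 0 ∧
    pos c j₀ ρ i < (X1 c L j₀ M ρ u).card}

variable {c L j₀ M ρ}

theorem mem_X1 {u : σ ⊕ L →₀ ℕ} {i : σ} : i ∈ X1 c L j₀ M ρ u ↔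
    c i = j₀ ∧ (off c j₀ (resL u) + Finsupp.single i 1 ∈ M ∨
    (i ∈ L ∧ ∃ k : L, u (Sum.inr k) ≠ 0 ∧ ρ k < ρ i)) := by
  classical
  unfold X1
  rw [Finset.mem_filter]
  exact ⟨fun h => h.2, fun h => ⟨Finset.mem_univ _, h⟩⟩

omit [Fintype σ] [DecidableEq σ] in
theorem off_comb (hL : ∀ i ∈ L, c i = j₀) (u : σ ⊕ L →₀ ℕ) :
    off c j₀ (comb u) = off c j₀ (resL u) := by
  ext i
  rw [off_apply, off_apply]
  split_ifs with h
  · rw [comb_apply_notMem u (fun hi => h (hL i hi))]
    rfl
  · rfl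

/-- counting, first step: separate the last variables -/
theorem count1 (hρ : Function.Injective ρ) (hL : ∀ i ∈ L, c i = j₀) (hM : IsUpperSet M)
    (rM : RadSet M)
    (hone : ∀ (x z : σ) (u : σ →₀ ℕ), x ≠ z → c x = c z →
      u + Finsupp.single x 1 + Finsupp.single z 1 ∈ M →
      u + Finsupp.single x 1 ∈ M ∨ u + Finsupp.single z 1 ∈ M) (d : Option ι →₀ ℕ) :
    (Ed (cT c L) d \ M1 c L j₀ M ρ).ncard = (TT c L j₀ d \ M).ncard := by
  have hsorted : ∀ u, u ∉ M1 c L j₀ M ρ → Sorted ρ u := by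
    intro u hu k hk i hi
    by_contra hlt
    apply hu
    right
    refine ⟨i, mem_X1.2 ⟨hL _ i.2, Or.inr ⟨i.2, k, hk, not_le.1 hlt⟩⟩, hi⟩
  refine Set.ncard_congr (fun u _ => comb u) ?_ ?_ ?_
  · rintro u ⟨h1, h2⟩
    refine ⟨comb_mem_TT hL h1, fun h3 => h2 ?_⟩
    rw [mem_struct hM rM hone (j₀ := j₀), off_comb hL] at h3
    rcases h3 with h3 | ⟨i, hi, hci, h3⟩
    · exact Or.inl (Or.inl h3)
    · by_cases hu : u (Sum.inl i) = 0
      · by_cases hiL : i ∈ L
        · left; right
          refine ⟨⟨i, hiL⟩, ?_, h3⟩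
          have := comb_apply_mem u ⟨i, hiL⟩
          rw [this] at hci
          simp only [hu, zero_add] at hci
          exact hci
        · rw [comb_apply_notMem u hiL] at hci
          exact absurd hu hci
      · exact Or.inr ⟨i, mem_X1.2 ⟨hi, Or.inl h3⟩, hu⟩
  · rintro u v ⟨h1, h2⟩ ⟨h1', h2'⟩ huv
    exact split_inj hρ h1 h1' huv (hsorted u h2) (hsorted v h2')
  · rintro a ⟨ha, haM⟩
    obtain ⟨u, hu, hua, hs⟩ := exists_split ρ hL ha
    refine ⟨u, ⟨hu, ?_⟩, hua⟩
    rintro ((h | ⟨l, hl, h⟩) | ⟨i, hi, hui⟩)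
    · apply haM
      rw [mem_struct hM rM hone (j₀ := j₀), ← hua, off_comb hL]
      exact Or.inl h
    · apply haM
      rw [mem_struct hM rM hone (j₀ := j₀), ← hua, off_comb hL]
      refine Or.inr ⟨l, hL _ l.2, ?_, h⟩
      rw [comb_apply_mem]
      omega
    · rw [mem_X1] at hi
      obtain ⟨hi1, hi2⟩ := hi
      rcases hi2 with hi2 | ⟨hiL, k, hk, hlt⟩
      · apply haM
        rw [mem_struct hM rM hone (j₀ := j₀), ← hua, off_comb hL]
        refine Or.inr ⟨i, hi1, ?_, hi2⟩
        have : u (Sum.inl i) ≤ comb u i := by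
          rw [comb, Finsupp.add_apply]
          exact Nat.le_add_right _ _
        omega
      · have := hs k hk ⟨i, hiL⟩ hui
        exact absurd hlt (not_lt.2 this)

/-- counting, second step: compress in the group -/
theorem count2 (hρ : Function.Injective ρ) (d : Option ι →₀ ℕ) :
    (Ed (cT c L) d \ M1 c L j₀ M ρ).ncard = (Ed (cT c L) d \ Mt c L j₀ M ρ).ncard := by
  classical
  choose! π hπ1 hπ2 hπ3 using fun (Y : Finset σ) (hY : ∀ i ∈ Y, c i = j₀) =>
    exists_perm c j₀ ρ hρ Y hY
  have hX : ∀ u : σ ⊕ L →₀ ℕ, ∀ i ∈ X1 c L j₀ M ρ u, c i = j₀ := fun u i hi => (mem_X1.1 hi).1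
  -- a permutation of the group does not change the rest
  have hoff : ∀ (p : Equiv.Perm σ), (∀ i, c (p i) = c i) → (∀ i, c i ≠ j₀ → p i = i) →
      ∀ a : σ →₀ ℕ, off c j₀ (a.mapDomain p) = off c j₀ a := by
    intro p hp1 hp2 a
    ext i
    rw [off_apply, off_apply]
    split_ifs with h
    · rw [Finsupp.mapDomain_equiv_apply]
      congr 1
      rw [Equiv.symm_apply_eq, hp2 i h]
    · rfl
  have hinr : ∀ (a : σ →₀ ℕ) (b : L →₀ ℕ) (k : L), (join a b) (Sum.inr k) = b k := by
    intro a b k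
    have := resR_apply (join a b) k
    rw [resR_join] at this
    exact this.symm
  have hinl : ∀ (a : σ →₀ ℕ) (b : L →₀ ℕ) (k : σ), (join a b) (Sum.inl k) = a k := by
    intro a b k
    have := resL_apply (join a b) k
    rw [resL_join] at this
    exact this.symm
  have hX' : ∀ (p : Equiv.Perm σ), (∀ i, c (p i) = c i) → (∀ i, c i ≠ j₀ → p i = i) →
      ∀ u : σ ⊕ L →₀ ℕ, X1 c L j₀ M ρ (join ((resL u).mapDomain p) (resR u)) =
        X1 c L j₀ M ρ u := by
    intro p hp1 hp2 u
    ext i
    rw [mem_X1, mem_X1, resL_join, hoff p hp1 hp2]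
    simp only [hinr, resR_apply]
  have hB' : ∀ (p : Equiv.Perm σ), (∀ i, c (p i) = c i) → (∀ i, c i ≠ j₀ → p i = i) →
      ∀ u : σ ⊕ L →₀ ℕ, Bad c L j₀ M (join ((resL u).mapDomain p) (resR u)) ↔
        Bad c L j₀ M u := by
    intro p hp1 hp2 u
    rw [Bad, Bad, resL_join, hoff p hp1 hp2]
    simp only [hinr, resR_apply]
  have hdeg : ∀ (p : Equiv.Perm σ), (∀ i, c (p i) = c i) → ∀ u : σ ⊕ L →₀ ℕ,
      u ∈ Ed (cT c L) d → join ((resL u).mapDomain p) (resR u) ∈ Ed (cT c L) d := by
    intro p hp1 u hu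
    have h1 : ((resL u).mapDomain p).mapDomain c = (resL u).mapDomain c := by
      rw [← Finsupp.mapDomain_comp]
      congr 1
      funext i
      exact hp1 i
    rw [mem_Ed, mdeg_cT, resL_join, resR_join, h1, ← mdeg_cT]
    exact hu
  have hsymm1 : ∀ (p : Equiv.Perm σ), (∀ i, c (p i) = c i) → ∀ i, c (p.symm i) = c i := by
    intro p hp i
    have := hp (p.symm i)
    rw [Equiv.apply_symm_apply] at this
    exact this.symm
  have hsymm2 : ∀ (p : Equiv.Perm σ), (∀ i, c i ≠ j₀ → p i = i) →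
      ∀ i, c i ≠ j₀ → p.symm i = i := by
    intro p hp i hi
    rw [Equiv.symm_apply_eq, hp i hi]
  refine Set.ncard_congr
    (fun u _ => join ((resL u).mapDomain (π (X1 c L j₀ M ρ u))) (resR u)) ?_ ?_ ?_
  · rintro u ⟨h1, h2⟩
    set p := π (X1 c L j₀ M ρ u) with hp
    have hp1 := hπ1 _ (hX u)
    have hp2 := hπ2 _ (hX u)
    have hp3 := hπ3 _ (hX u)
    rw [← hp] at hp1 hp2 hp3
    refine ⟨hdeg p hp1 u h1, ?_⟩
    rintro (h3 | ⟨i, hi, hui, hlt⟩)
    · exact h2 (Or.inl ((hB' p hp1 hp2 u).1 h3))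
    · apply h2
      right
      rw [hX' p hp1 hp2] at hlt
      rw [hinl, Finsupp.mapDomain_equiv_apply] at hui
      refine ⟨p.symm i, ?_, hui⟩
      rw [hp3 (p.symm i) (by rw [hsymm1 p hp1]; exact hi), Equiv.apply_symm_apply]
      exact hlt
  · rintro u v - - huv
    have h1 := congrArg resR huv
    have h2 := congrArg resL huv
    rw [resR_join, resR_join] at h1
    rw [resL_join, resL_join] at h2
    have h3 : X1 c L j₀ M ρ u = X1 c L j₀ M ρ v := by
      rw [← hX' _ (hπ1 _ (hX u)) (hπ2 _ (hX u)) u, ← hX' _ (hπ1 _ (hX v)) (hπ2 _ (hX v)) v]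
      congr 1
    rw [h3] at h2
    have h4 := Finsupp.mapDomain_injective (π (X1 c L j₀ M ρ v)).injective h2
    rw [← join_res u, ← join_res v, h1, h4]
  · rintro v ⟨h1, h2⟩
    set p := π (X1 c L j₀ M ρ v) with hp
    have hp1 := hπ1 _ (hX v)
    have hp2 := hπ2 _ (hX v)
    have hp3 := hπ3 _ (hX v)
    rw [← hp] at hp1 hp2 hp3
    set u := join ((resL v).mapDomain p.symm) (resR v) with hu
    have hXu : X1 c L j₀ M ρ u = X1 c L j₀ M ρ v := hX' p.symm (hsymm1 p hp1) (hsymm2 p hp2) v
    have hBu : Bad c L j₀ M u ↔ Bad c L j₀ M v := hB' p.symm (hsymm1 p hp1) (hsymm2 p hp2) v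
    refine ⟨u, ⟨hdeg p.symm (hsymm1 p hp1) v h1, ?_⟩, ?_⟩
    · rintro (h3 | ⟨i, hi, hui⟩)
      · exact h2 (Or.inl (hBu.1 h3))
      · apply h2
        right
        rw [hXu] at hi
        have hci := hX v i hi
        rw [hu, hinl, Finsupp.mapDomain_equiv_apply, Equiv.symm_symm] at hui
        refine ⟨p i, by rw [hp1, hci], hui, ?_⟩
        exact (hp3 i hci).1 hi
    · change join ((resL u).mapDomain (π (X1 c L j₀ M ρ u))) (resR u) = v
      rw [hXu, ← hp, hu, resL_join, resR_join, ← Finsupp.mapDomain_comp]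
      have : (⇑p ∘ ⇑p.symm) = id := by
        funext i; simp
      rw [this, Finsupp.mapDomain_id, join_res]

end

end Pool.Agent.H874.CS
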