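import Pool.Agent.H874.CS.Theta3

/-!
# The Rees-type extension preserves the Cartwright-Sturmfels property, end of the proof
-/

open MvPolynomial

namespace Pool.Agent.H874.CS

variable {σ ι K : Type*} [Field K] [Fintype σ] [DecidableEq σ] [DecidableEq ι]
  {c : σ → ι} {L : Finset σ} {j₀ : ι} {M : Set (σ →₀ ℕ)} {ρ : σ → ℕ}

omit [Fintype σ] [DecidableEq σ] in
theorem off_add_single_mono {a b : σ →₀ ℕ} (h : a ≤ b) (i : σ) :
    off c j₀ a + Finsupp.single i 1 ≤ off c j₀ b + Finsupp.single i 1 :=
  add_le_add (off_mono c j₀ h) le_rfl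

omit [Fintype σ] [DecidableEq σ] in
theorem Bad_mono (hM : IsUpperSet M) {u v : σ ⊕ L →₀ ℕ} (h : u ≤ v) (hu : Bad c L j₀ M u) :
    Bad c L j₀ M v := by
  rcases hu with hu | ⟨l, hl, hu⟩
  · exact Or.inl (hM (off_mono c j₀ (resL_mono h)) hu)
  · refine Or.inr ⟨l, ?_, hM (off_add_single_mono (resL_mono h) _) hu⟩
    have := h (Sum.inr l)
    omega

theorem X1_mono (hM : IsUpperSet M) {u v : σ ⊕ L →₀ ℕ} (h : u ≤ v) :
    X1 c L j₀ M ρ u ⊆ X1 c L j₀ M ρ v := by
  intro i hi
  rw [mem_X1] at hi ⊢
  refine ⟨hi.1, ?_⟩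
  rcases hi.2 with h1 | ⟨h1, k, hk, h2⟩
  · exact Or.inl (hM (off_add_single_mono (resL_mono h) _) h1)
  · refine Or.inr ⟨h1, k, ?_, h2⟩
    have := h (Sum.inr k)
    omega

theorem Mt_upper (hM : IsUpperSet M) : IsUpperSet (Mt c L j₀ M ρ) := by
  rintro u v h (hu | ⟨i, hi, hui, hlt⟩)
  · exact Or.inl (Bad_mono hM h hu)
  · refine Or.inr ⟨i, hi, ?_, lt_of_lt_of_le hlt (Finset.card_le_card (X1_mono hM h))⟩
    have := h (Sum.inl i)
    omega

omit [DecidableEq σ] in
theorem off_rad (hM : IsUpperSet M) (rM : RadSet M) {n : ℕ} {a : σ →₀ ℕ} {e : σ →₀ ℕ}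
    (h : off c j₀ (n • a) + e ∈ M) : off c j₀ a + e ∈ M := by
  refine rad_supp hM rM h ?_
  intro i hi
  rw [Finsupp.mem_support_iff, Finsupp.add_apply, off_apply] at hi ⊢
  rw [Finsupp.smul_apply, smul_eq_mul] at hi
  split_ifs at hi ⊢ with h1
  · intro h2
    have h3 : a i = 0 := by omega
    rw [h3, mul_zero] at hi
    omega
  · exact hi

theorem Mt_rad (hM : IsUpperSet M) (rM : RadSet M) : RadSet (Mt c L j₀ M ρ) := by
  intro u n h
  by_cases hn : n = 0
  · rw [hn, zero_smul] at h
    exact Mt_upper hM zero_le h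
  have hres : resL (n • u) = n • resL u := by ext i; rfl
  have hX : X1 c L j₀ M ρ (n • u) ⊆ X1 c L j₀ M ρ u := by
    intro i hi
    rw [mem_X1, hres] at hi
    rw [mem_X1]
    refine ⟨hi.1, ?_⟩
    rcases hi.2 with h1 | ⟨h1, k, hk, h2⟩
    · exact Or.inl (off_rad hM rM h1)
    · refine Or.inr ⟨h1, k, fun h0 => hk ?_, h2⟩
      rw [Finsupp.smul_apply, h0, smul_zero]
  rcases h with (h | ⟨l, hl, h⟩) | ⟨i, hi, hui, hlt⟩
  · left; left
    rw [hres, ← add_zero (off c j₀ (n • resL u))] at h
    have := off_rad hM rM h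
    rwa [add_zero] at this
  · left; right
    rw [hres] at h
    refine ⟨l, fun h0 => hl ?_, off_rad hM rM h⟩
    rw [Finsupp.smul_apply, h0, smul_zero]
  · right
    refine ⟨i, hi, fun h0 => hui ?_, lt_of_lt_of_le hlt (Finset.card_le_card hX)⟩
    rw [Finsupp.smul_apply, h0, smul_zero]

theorem pos_lt {i i' : σ} (hi : c i = j₀) (h : ρ i < ρ i') : pos c j₀ ρ i < pos c j₀ ρ i' := by
  classical
  apply Finset.card_lt_card
  rw [Finset.ssubset_iff_of_subset]
  · exact ⟨i, by simpa using ⟨hi, h⟩, by simp⟩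
  · intro y hy
    simp only [Finset.mem_filter, Finset.mem_univ, true_and] at hy ⊢
    exact ⟨hy.1, hy.2.trans h⟩

theorem Mt_wb (hL : ∀ i ∈ L, c i = j₀)
    (wM : WBs (cS c L) (fun x z => ρ x < ρ z) M) {ρ' : σ ⊕ L → ℕ}
    (h1 : ∀ x z : σ, ρ' (Sum.inl x) < ρ' (Sum.inl z) → ρ x < ρ z)
    (h2 : ∀ x z : L, ρ' (Sum.inr x) < ρ' (Sum.inr z) → ρ x < ρ z) :
    WBs (cT c L) (fun x z => ρ' x < ρ' z) (Mt c L j₀ M ρ) := by
  classical
  intro x z hc hlt u a hu hmem
  by_cases ha : a = 0
  · rw [ha, Finsupp.single_zero] at hmem ⊢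
    exact hmem
  rcases z with z | z
  · rcases x with x | x
    swap
    · exact absurd hc (by simp [cT])
    have hc' : c x = c z := Option.some_injective _ hc
    have hlt' := h1 x z hlt
    have hres : ∀ w : σ, resL (u + Finsupp.single (Sum.inl w) a) =
        resL u + Finsupp.single w a := by
      intro w; rw [resL_add, resL_single_inl]
    have hinr : ∀ (w : σ) (k : L), (u + Finsupp.single (Sum.inl w : σ ⊕ L) a : σ ⊕ L →₀ ℕ)
        (Sum.inr k) = u (Sum.inr k) := by
      intro w k
      rw [Finsupp.add_apply, Finsupp.single_apply, if_neg (by simp), add_zero]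
    have hinl : ∀ (w i : σ), (u + Finsupp.single (Sum.inl w : σ ⊕ L) a : σ ⊕ L →₀ ℕ)
        (Sum.inl i) = u (Sum.inl i) + if w = i then a else 0 := by
      intro w i
      rw [Finsupp.add_apply, Finsupp.single_apply]
      simp only [Sum.inl.injEq]
    by_cases hz : c z = j₀
    · -- the moved variable is in the group
      have hoff : ∀ w : σ, c w = j₀ → off c j₀ (resL (u + Finsupp.single (Sum.inl w) a)) =
          off c j₀ (resL u) := by
        intro w hw
        rw [hres, off_add, off_single_in hw, add_zero]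
      have hX : ∀ w : σ, c w = j₀ → X1 c L j₀ M ρ (u + Finsupp.single (Sum.inl w) a) =
          X1 c L j₀ M ρ u := by
        intro w hw
        ext i
        rw [mem_X1, mem_X1, hoff w hw]
        simp only [hinr]
      rcases hmem with (h | ⟨l, hl, h⟩) | ⟨i, hi, hui, hlt2⟩
      · left; left
        rw [hoff z hz] at h
        rw [hoff x (hc'.trans hz)]
        exact h
      · left; right
        rw [hoff z hz] at h
        rw [hinr] at hl
        refine ⟨l, by rw [hinr]; exact hl, ?_⟩
        rw [hoff x (hc'.trans hz)]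
        exact h
      · right
        rw [hX z hz] at hlt2
        rw [hinl] at hui
        by_cases hiz : z = i
        · subst hiz
          refine ⟨x, hc'.trans hz, ?_, ?_⟩
          · rw [hinl, if_pos rfl]; omega
          · rw [hX x (hc'.trans hz)]
            exact (pos_lt (hc'.trans hz) hlt').trans hlt2
        · rw [if_neg hiz, add_zero] at hui
          refine ⟨i, hi, ?_, ?_⟩
          · rw [hinl]; omega
          · rw [hX x (hc'.trans hz)]
            exact hlt2
    · -- the moved variable is outside of the group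
      have hx : c x ≠ j₀ := fun h => hz (hc' ▸ h)
      have hzL : z ∉ L := fun h => hz (hL z h)
      have hxL : x ∉ L := fun h => hx (hL x h)
      have hoff : ∀ w : σ, c w ≠ j₀ → off c j₀ (resL (u + Finsupp.single (Sum.inl w) a)) =
          off c j₀ (resL u) + Finsupp.single w a := by
        intro w hw
        rw [hres, off_add, off_single_out hw]
      have hoffz : off c j₀ (resL u) z = 0 := by
        rw [off_apply, if_pos hz]
        exact hu
      have hcS : cS c L x = cS c L z := by
        rw [cS, cS, if_neg hxL, if_neg hzL, hc']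
      have hmv : off c j₀ (resL u) + Finsupp.single z a ∈ M →
          off c j₀ (resL u) + Finsupp.single x a ∈ M :=
        wM x z hcS hlt' _ a hoffz
      have hmv2 : ∀ i, c i = j₀ → off c j₀ (resL u) + Finsupp.single z a + Finsupp.single i 1 ∈ M →
          off c j₀ (resL u) + Finsupp.single x a + Finsupp.single i 1 ∈ M := by
        intro i hi h
        rw [add_right_comm] at h ⊢
        refine wM x z hcS hlt' _ a ?_ h
        rw [Finsupp.add_apply, hoffz, zero_add, Finsupp.single_apply, if_neg]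
        rintro rfl
        exact hz hi
      have hXsub : X1 c L j₀ M ρ (u + Finsupp.single (Sum.inl z) a) ⊆
          X1 c L j₀ M ρ (u + Finsupp.single (Sum.inl x) a) := by
        intro i hi
        rw [mem_X1, hoff z hz] at hi
        rw [mem_X1, hoff x hx]
        refine ⟨hi.1, ?_⟩
        rcases hi.2 with h3 | ⟨h3, k, hk, h4⟩
        · exact Or.inl (hmv2 i hi.1 h3)
        · rw [hinr] at hk
          exact Or.inr ⟨h3, k, by rw [hinr]; exact hk, h4⟩
      rcases hmem with (h | ⟨l, hl, h⟩) | ⟨i, hi, hui, hlt2⟩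
      · left; left
        rw [hoff z hz] at h
        rw [hoff x hx]
        exact hmv h
      · left; right
        rw [hoff z hz] at h
        rw [hinr] at hl
        refine ⟨l, by rw [hinr]; exact hl, ?_⟩
        rw [hoff x hx]
        exact hmv2 l (hL _ l.2) h
      · right
        rw [hinl, if_neg (by rintro rfl; exact hz hi)] at hui
        refine ⟨i, hi, ?_, lt_of_lt_of_le hlt2 (Finset.card_le_card hXsub)⟩
        rw [hinl]; omega
  · rcases x with x | x
    · exact absurd hc (by simp [cT])
    have hlt' := h2 x z hlt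
    have hres : ∀ w : L, resL (u + Finsupp.single (Sum.inr w) a) = resL u := by
      intro w; rw [resL_add, resL_single_inr, add_zero]
    have hinl : ∀ (w : L) (i : σ), (u + Finsupp.single (Sum.inr w : σ ⊕ L) a : σ ⊕ L →₀ ℕ)
        (Sum.inl i) = u (Sum.inl i) := by
      intro w i
      rw [Finsupp.add_apply, Finsupp.single_apply, if_neg (by simp), add_zero]
    have hinr : ∀ (w k : L), (u + Finsupp.single (Sum.inr w : σ ⊕ L) a : σ ⊕ L →₀ ℕ)
        (Sum.inr k) = u (Sum.inr k) + if w = k then a else 0 := by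
      intro w k
      rw [Finsupp.add_apply, Finsupp.single_apply]
      simp only [Sum.inr.injEq]
    have hcS : cS c L (x : σ) = cS c L (z : σ) := by
      rw [cS, cS, if_pos x.2, if_pos z.2]
    have hmv : off c j₀ (resL u) + Finsupp.single (z : σ) 1 ∈ M →
        off c j₀ (resL u) + Finsupp.single (x : σ) 1 ∈ M := by
      apply wM x z hcS hlt'
      rw [off_apply, if_neg]
      rw [not_not]
      exact hL _ z.2
    have hXsub : X1 c L j₀ M ρ (u + Finsupp.single (Sum.inr z) a) ⊆
        X1 c L j₀ M ρ (u + Finsupp.single (Sum.inr x) a) := by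
      intro i hi
      rw [mem_X1, hres] at hi
      rw [mem_X1, hres]
      refine ⟨hi.1, ?_⟩
      rcases hi.2 with h3 | ⟨h3, k, hk, h4⟩
      · exact Or.inl h3
      · rw [hinr] at hk
        by_cases hkz : z = k
        · subst hkz
          refine Or.inr ⟨h3, x, ?_, hlt'.trans h4⟩
          rw [hinr, if_pos rfl]; omega
        · rw [if_neg hkz, add_zero] at hk
          refine Or.inr ⟨h3, k, ?_, h4⟩
          rw [hinr]; omega
    rcases hmem with (h | ⟨l, hl, h⟩) | ⟨i, hi, hui, hlt2⟩
    · left; left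
      rw [hres] at h
      rw [hres]
      exact h
    · left; right
      rw [hres] at h
      rw [hinr] at hl
      by_cases hlz : z = l
      · subst hlz
        refine ⟨x, ?_, ?_⟩
        · rw [hinr, if_pos rfl]; omega
        · rw [hres]; exact hmv h
      · rw [if_neg hlz, add_zero] at hl
        refine ⟨l, ?_, by rw [hres]; exact h⟩
        rw [hinr]; omega
    · right
      rw [hinl] at hui
      refine ⟨i, hi, ?_, lt_of_lt_of_le hlt2 (Finset.card_le_card hXsub)⟩
      rw [hinl]; exact hui

/-- the Rees-type extension preserves the Cartwright-Sturmfels property -/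
theorem theta_rad [Infinite K] [Fintype ι] (hL : ∀ i ∈ L, c i = j₀)
    {I : Ideal (MvPolynomial σ K)} (hI : IsGraded c I) (hR : Rad c I) :
    Rad (cT c L) (theta L I) := by
  classical
  obtain ⟨M, ρ, hρ, hM, wM, hhf, hth⟩ := exists_splitGin hL hI
  have rM := split_radSet hR hM hhf
  have hone : ∀ (x z : σ) (u : σ →₀ ℕ), x ≠ z → c x = c z →
      u + Finsupp.single x 1 + Finsupp.single z 1 ∈ M →
      u + Finsupp.single x 1 ∈ M ∨ u + Finsupp.single z 1 ∈ M :=
    fun x z u hxz hc hu => one_var hR hM hhf hxz hc hu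
  set R := ∑ i, ρ i + 1 with hRdef
  have hRlt : ∀ i, ρ i < R := fun i => Nat.lt_succ_of_le
    (Finset.single_le_sum (f := ρ) (fun _ _ => Nat.zero_le _) (Finset.mem_univ i))
  set ρ' : σ ⊕ L → ℕ := Sum.elim ρ (fun j => R + ρ (j : σ)) with hρ'def
  have hρ'inj : Function.Injective ρ' := by
    rintro (i | i) (j | j) hij
    · exact congrArg Sum.inl (hρ hij)
    · have h1 : ρ i = R + ρ (j : σ) := hij
      have := hRlt i; omega
    · have h1 : R + ρ (i : σ) = ρ j := hij
      have := hRlt j; omega
    · have h1 : R + ρ (i : σ) = R + ρ (j : σ) := hij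
      exact congrArg Sum.inr (Subtype.ext (hρ (by omega)))
  intro J hJ hd
  refine rad_of_comb (cT c L) ρ' hρ'inj (Mt_upper (c := c) (L := L) (j₀ := j₀) (ρ := ρ) hM)
    (Mt_wb hL wM (fun x z h => h) (fun x z h => ?_)) (Mt_rad hM rM) hJ ?_
  · have h1 : R + ρ (x : σ) < R + ρ (z : σ) := h
    omega
  · intro d
    rw [hd, hth, ← count1 hρ hL hM rM hone, count2 hρ]

end Pool.Agent.H874.CS
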