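import Pool.Agent.H874.CS.Borel

/-!
# The generic set of leading exponents is fixed by elementary moves, II
-/

open MvPolynomial

namespace Pool.Agent.H874.CS

variable {σ ι K : Type*} [Field K] [Fintype σ] [DecidableEq σ]

theorem coeff_prod_of_le {r : Type*} (m : MonomialOrder σ) (s : Finset r)
    (P : r → MvPolynomial σ K) (a : r → (σ →₀ ℕ))
    (h : ∀ i ∈ s, m.toSyn (m.degree (P i)) ≤ m.toSyn (a i)) :
    m.toSyn (m.degree (∏ i ∈ s, P i)) ≤ m.toSyn (∑ i ∈ s, a i) ∧
    coeff (∑ i ∈ s, a i) (∏ i ∈ s, P i) = ∏ i ∈ s, coeff (a i) (P i) := by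
  classical
  induction s using Finset.induction_on with
  | empty => simp
  | insert i s hi ih =>
    have h1 := ih fun j hj => h j (Finset.mem_insert_of_mem hj)
    have h2 := h i (Finset.mem_insert_self i s)
    rw [Finset.prod_insert hi, Finset.sum_insert hi, Finset.prod_insert hi]
    refine ⟨?_, ?_⟩
    · refine le_trans m.degree_mul_le ?_
      rw [map_add, map_add]
      exact add_le_add h2 h1.1
    · rw [m.coeff_mul_of_add_of_degree_le h2 h1.1, h1.2]

/-- determinants of matrices of polynomials with leading exponents bounded by rows -/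
theorem coeff_det {r : Type*} [Fintype r] [DecidableEq r] (m : MonomialOrder σ)
    (P : Matrix r r (MvPolynomial σ K)) (a : r → (σ →₀ ℕ))
    (h : ∀ i j, m.toSyn (m.degree (P i j)) ≤ m.toSyn (a i)) :
    coeff (∑ i, a i) P.det = (Matrix.of fun i j => coeff (a i) (P i j)).det := by
  rw [Matrix.det_apply, Matrix.det_apply, coeff_sum]
  refine Finset.sum_congr rfl fun π _ => ?_
  have h1 : ∑ i, a i = ∑ i, a (π i) := (Equiv.sum_comp π a).symm
  rw [h1]
  have h2 := (coeff_prod_of_le m Finset.univ (fun i => P (π i) i) (fun i => a (π i))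
    (fun i _ => h (π i) i)).2
  have h3 : coeff (∑ i, a (π i)) (Equiv.Perm.sign π • ∏ i, P (π i) i) =
      Equiv.Perm.sign π • coeff (∑ i, a (π i)) (∏ i, P (π i) i) := by
    rcases Int.units_eq_one_or (Equiv.Perm.sign π) with h | h
    · rw [h]; simp
    · rw [h]; simp
  rw [h3, h2]
  rfl

/-- the polynomial in the torus parameters representing a functional -/
noncomputable def torusPoly (L : MvPolynomial σ K →ₗ[K] K) (h : MvPolynomial σ K) :
    MvPolynomial σ K := ∑ ρ ∈ h.support, monomial ρ (coeff ρ h * L (monomial ρ 1))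

theorem coeff_torusPoly (L : MvPolynomial σ K →ₗ[K] K) (h : MvPolynomial σ K) (ρ : σ →₀ ℕ) :
    coeff ρ (torusPoly L h) = coeff ρ h * L (monomial ρ 1) := by
  rw [torusPoly, coeff_sum]
  simp only [coeff_monomial]
  rw [Finset.sum_ite_eq' h.support ρ]
  split_ifs with h1
  · rfl
  · rw [notMem_support_iff.1 h1, zero_mul]

theorem act_diagonal (t : σ → K) (ρ : σ →₀ ℕ) :
    act (Matrix.diagonal t) (monomial ρ (1 : K)) = eval t (monomial ρ 1) • monomial ρ 1 := by
  have hX : ∀ j, act (Matrix.diagonal t) (X j) = t j • X j := by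
    intro j
    rw [act_X, Finset.sum_eq_single j]
    · rw [Matrix.diagonal_apply_eq]
    · intro i _ hij
      rw [Matrix.diagonal_apply_ne _ hij, zero_smul]
    · intro h; exact absurd (Finset.mem_univ _) h
  induction ρ using Finsupp.induction_linear with
  | zero =>
    rw [show (monomial 0 (1 : K)) = 1 from rfl, map_one, map_one, one_smul]
  | add a b ha hb =>
    rw [← one_mul (1 : K), ← monomial_mul, map_mul, ha, hb, map_mul, smul_mul_smul_comm]
  | single j n =>
    rw [← X_pow_eq_monomial, map_pow, hX, smul_pow, map_pow, eval_X]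

theorem eval_torusPoly (L : MvPolynomial σ K →ₗ[K] K) (h : MvPolynomial σ K) (t : σ → K) :
    eval t (torusPoly L h) = L (act (Matrix.diagonal t) h) := by
  rw [torusPoly, map_sum]
  conv_rhs => rw [h.as_sum, map_sum, map_sum]
  refine Finset.sum_congr rfl fun ρ _ => ?_
  have h1 : (monomial ρ (coeff ρ h) : MvPolynomial σ K) = coeff ρ h • monomial ρ 1 := by
    rw [smul_monomial, smul_eq_mul, mul_one]
  have h2 : (monomial ρ (coeff ρ h * L (monomial ρ 1)) : MvPolynomial σ K) =
      (coeff ρ h * L (monomial ρ 1)) • monomial ρ 1 := by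
    rw [smul_monomial, smul_eq_mul, mul_one]
  rw [h1, h2, smul_eval, map_smul (act (Matrix.diagonal t)), map_smul L, act_diagonal,
    map_smul L, smul_eq_mul, smul_eq_mul]
  ring

theorem degree_torusPoly (m : MonomialOrder σ) (L : MvPolynomial σ K →ₗ[K] K)
    (h : MvPolynomial σ K) : m.toSyn (m.degree (torusPoly L h)) ≤ m.toSyn (m.degree h) := by
  rw [m.degree_le_iff]
  intro b hb
  apply m.le_degree
  rw [mem_support_iff, coeff_torusPoly] at hb
  rw [mem_support_iff]
  exact left_ne_zero_of_mul hb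

/-- dual functionals for a family which is independent modulo a subspace -/
theorem dual_family {V : Type*} [AddCommGroup V] [Module K V] {r : Type*} [Fintype r]
    [DecidableEq r] (R : Submodule K V) (y : r → V)
    (h : ∀ a : r → K, ∑ i, a i • y i ∈ R → a = 0) :
    ∃ φ : r → (V →ₗ[K] K), (∀ j, ∀ f ∈ R, φ j f = 0) ∧ ∀ i j, φ j (y i) = if i = j then 1 else 0 := by
  set L : (r → K) →ₗ[K] (V ⧸ R) := Fintype.linearCombination K (fun i => R.mkQ (y i)) with hL
  have hker : LinearMap.ker L = ⊥ := by
    rw [LinearMap.ker_eq_bot']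
    intro a ha
    apply h
    rw [hL, Fintype.linearCombination_apply] at ha
    have : R.mkQ (∑ i, a i • y i) = 0 := by
      rw [map_sum]
      simpa using ha
    rwa [Submodule.mkQ_apply, Submodule.Quotient.mk_eq_zero] at this
  obtain ⟨g, hg⟩ := L.exists_leftInverse_of_injective hker
  refine ⟨fun j => (LinearMap.proj j) ∘ₗ g ∘ₗ R.mkQ, ?_, ?_⟩
  · intro j f hf
    have : R.mkQ f = 0 := by
      rwa [Submodule.mkQ_apply, Submodule.Quotient.mk_eq_zero]
    rw [LinearMap.comp_apply, LinearMap.comp_apply, this, map_zero, map_zero]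
  · intro i j
    have h1 : R.mkQ (y i) = L (Pi.single i 1) := by
      rw [hL, Fintype.linearCombination_apply_single, one_smul]
    have h2 : g (L (Pi.single i 1)) = Pi.single i 1 := LinearMap.congr_fun hg _
    rw [LinearMap.comp_apply, LinearMap.comp_apply, h1, h2, LinearMap.proj_apply, Pi.single_apply]
    simp only [eq_comm]

theorem generic_wb [Infinite K] (m : MonomialOrder σ) (c : σ → ι) {I : Ideal (MvPolynomial σ K)}
    (hI : IsGraded c I) (d : ι →₀ ℕ) {M : Set (σ →₀ ℕ)} (hM : M ⊆ Ed c d)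
    (hgen : Gen c (fun g => Ed c d ∩ Lead m ((I.map (act g) :
      Ideal (MvPolynomial σ K)) : Set (MvPolynomial σ K)) = M))
    (hmax : ∀ T, IsLow m c d T → ∀ g, InG c g → cnt m c I d T g ≤ (M \ T).ncard)
    {x z : σ} (hc : c x = c z) (hxz : Bef m x z) {u : σ →₀ ℕ} (hu : u z = 0) {a : ℕ}
    (ha : u + Finsupp.single z a ∈ M) : u + Finsupp.single x a ∈ M := by
  classical
  by_contra hcon
  have hne : x ≠ z := by
    rintro rfl
    exact lt_irrefl _ hxz
  set ν₀ := u + Finsupp.single z a with hν₀
  set μ := u + Finsupp.single x a with hμ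
  set T : Set (σ →₀ ℕ) := {b | b ∈ Ed c d ∧ m.toSyn b ≤ m.toSyn ν₀} with hT
  have hTlow : IsLow m c d T := low_le m c d ν₀
  set A : Set (σ →₀ ℕ) := {b | b ∈ M ∧ m.toSyn ν₀ ≤ m.toSyn b} with hA
  have hAM : A ⊆ M := fun b hb => hb.1
  have hAf : A.Finite := ((finite_Ed c d).subset hM).subset hAM
  have hν₀A : ν₀ ∈ A := ⟨ha, le_rfl⟩
  let _ : Fintype A := hAf.fintype
  set b := Matrix.transvection x z (1 : K) with hb
  have hbG : InG c b := inG_transvection c hne hc 1
  set y : A → MvPolynomial σ K := fun ν => act b (monomial (ν : σ →₀ ℕ) 1) with hy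
  have hy1 : ∀ ν : A, Mon1 m (ν : σ →₀ ℕ) (y ν) := fun ν => mon1_transvection m hxz 1 _
  -- independence modulo the span of `T`
  have hind : ∀ w : A → K, ∑ i, w i • y i ∈ restrictSupport K T → w = 0 := by
    intro w hw
    by_contra hw0
    set h : MvPolynomial σ K := ∑ i, w i • monomial (i : σ →₀ ℕ) 1 with hh
    have hcoeff : ∀ i : A, coeff (i : σ →₀ ℕ) h = w i := by
      intro i
      rw [hh, coeff_sum, Finset.sum_eq_single i]
      · rw [coeff_smul, coeff_monomial, if_pos rfl, smul_eq_mul, mul_one]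
      · intro j _ hj
        rw [coeff_smul, coeff_monomial, if_neg (fun h => hj (Subtype.ext h)), smul_zero]
      · intro h; exact absurd (Finset.mem_univ _) h
    have hcoeff' : ∀ e : σ →₀ ℕ, e ∉ A → coeff e h = 0 := by
      intro e he
      rw [hh, coeff_sum]
      apply Finset.sum_eq_zero
      intro j _
      rw [coeff_smul, coeff_monomial, if_neg, smul_zero]
      intro hje
      exact he (hje ▸ j.2)
    have hact : act b h = ∑ i, w i • y i := by
      rw [hh, map_sum]
      refine Finset.sum_congr rfl fun i _ => ?_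
      rw [map_smul]
    have hmin : ∃ i : A, w i ≠ 0 ∧ ∀ j : A, w j ≠ 0 → m.toSyn (i : σ →₀ ℕ) ≤ m.toSyn (j : σ →₀ ℕ) := by
      have hne' : (Finset.univ.filter fun i : A => w i ≠ 0).Nonempty := by
        rw [Finset.nonempty_iff_ne_empty]
        intro he
        apply hw0
        ext i
        by_contra hi
        have : i ∈ Finset.univ.filter fun i : A => w i ≠ 0 :=
          Finset.mem_filter.2 ⟨Finset.mem_univ i, hi⟩
        rw [he] at this
        exact absurd this (Finset.notMem_empty _)
      obtain ⟨i, hi, hi'⟩ := Finset.exists_min_image _ (fun i : A => m.toSyn (i : σ →₀ ℕ)) hne'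
      exact ⟨i, (Finset.mem_filter.1 hi).2, fun j hj =>
        hi' j (Finset.mem_filter.2 ⟨Finset.mem_univ j, hj⟩)⟩
    obtain ⟨i, hi0, himin⟩ := hmin
    -- `act b h` has only exponents `≥ i`, and the coefficient `w i` at `i`
    have hform : act b h - w i • monomial (i : σ →₀ ℕ) 1 ∈
        restrictSupport K {e | m.toSyn (i : σ →₀ ℕ) < m.toSyn e} := by
      rw [hact, ← Finset.add_sum_erase _ _ (Finset.mem_univ i), add_sub_right_comm, ← smul_sub]
      refine Submodule.add_mem _ (Submodule.smul_mem _ _ (hy1 i)) (Submodule.sum_mem _ ?_)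
      intro j hj
      by_cases hwj : w j = 0
      · rw [hwj, zero_smul]; exact Submodule.zero_mem _
      have hlt : m.toSyn (i : σ →₀ ℕ) < m.toSyn (j : σ →₀ ℕ) := by
        refine lt_of_le_of_ne (himin j hwj) ?_
        intro he
        exact (Finset.ne_of_mem_erase hj) (Subtype.ext (m.toSyn.injective he)).symm
      refine Submodule.smul_mem _ _ ?_
      have h1 : y j = (y j - monomial (j : σ →₀ ℕ) 1) + monomial (j : σ →₀ ℕ) 1 := by ring
      rw [h1]
      refine Submodule.add_mem _ ?_ ?_
      · exact restrictSupport_mono K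
          (fun _ (he : m.toSyn (j : σ →₀ ℕ) < _) => hlt.trans he) (hy1 j)
      · exact (monomial_mem_restrictSupport K).2 (Or.inl hlt)
    have hiT : (i : σ →₀ ℕ) ∈ T := by
      refine (mem_restrictSupport_iff K).1 hw ?_
      rw [← hact, Finset.mem_coe, mem_support_iff]
      have : coeff (i : σ →₀ ℕ) (act b h - w i • monomial (i : σ →₀ ℕ) 1) = 0 := by
        by_contra hc0
        exact lt_irrefl _ ((mem_restrictSupport_iff K).1 hform (mem_support_iff.2 hc0))
      rw [coeff_sub, coeff_smul, coeff_monomial, if_pos rfl, smul_eq_mul, mul_one,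
        sub_eq_zero] at this
      rwa [this]
    have hi_eq : (i : σ →₀ ℕ) = ν₀ := m.toSyn.injective (le_antisymm hiT.2 i.2.2)
    -- `act b h = w i • monomial ν₀ 1`
    have hzero : act b h - w i • monomial (i : σ →₀ ℕ) 1 = 0 := by
      ext e
      rw [coeff_zero]
      by_contra hc0
      have he1 : m.toSyn (i : σ →₀ ℕ) < m.toSyn e :=
        (mem_restrictSupport_iff K).1 hform (mem_support_iff.2 hc0)
      have he2 : coeff e (w i • monomial (i : σ →₀ ℕ) (1 : K)) = 0 := by
        rw [coeff_smul, coeff_monomial, if_neg, smul_zero]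
        intro h'
        rw [h'] at he1
        exact lt_irrefl _ he1
      rw [coeff_sub, he2, sub_zero, hact] at hc0
      have he3 : e ∈ T := (mem_restrictSupport_iff K).1 hw (mem_support_iff.2 hc0)
      rw [hi_eq] at he1
      exact absurd he3.2 (not_le.2 he1)
    have hinv : h = w i • act (Matrix.transvection x z (-1 : K)) (monomial ν₀ 1) := by
      have h1 : act (Matrix.transvection x z (-1 : K)) (act b h) = h := by
        rw [← AlgHom.comp_apply, ← act_mul, hb, Matrix.transvection_mul_transvection_same _ _ hne,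
          neg_add_cancel, Matrix.transvection_zero, act_one, AlgHom.id_apply]
      rw [← h1, sub_eq_zero.1 hzero, map_smul, hi_eq]
    have hc1 : coeff μ h = w i * (-1) ^ a := by
      rw [hinv, coeff_smul, hμ, hν₀, coeff_move hne _ hu, smul_eq_mul]
    have hμA : μ ∉ A := fun h => hcon h.1
    rw [hcoeff' μ hμA] at hc1
    exact (mul_ne_zero hi0 (pow_ne_zero _ (neg_ne_zero.2 one_ne_zero))) hc1.symm
  obtain ⟨φ, hφ1, hφ2⟩ := dual_family (restrictSupport K T) y hind
  -- a generic ideal
  obtain ⟨g₁, hg₁, hL₁⟩ := hgen.exists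
  have hex : ∀ ν : A, ∃ h ∈ I.map (act g₁), h ≠ 0 ∧ m.degree h = (ν : σ →₀ ℕ) ∧
      h ∈ restrictSupport K (Ed c d) := by
    intro ν
    have h1 : (ν : σ →₀ ℕ) ∈ Ed c d ∩ Lead m ((I.map (act g₁) :
      Ideal (MvPolynomial σ K)) : Set (MvPolynomial σ K)) := by
      rw [hL₁]; exact hAM ν.2
    exact compat_Ed m c (graded_map hg₁ hI) d _ h1.1 h1.2
  choose h hh1 hh2 hh3 hh4 using hex
  set P : Matrix A A (MvPolynomial σ K) :=
    Matrix.of fun i j => torusPoly (φ j ∘ₗ (act b).toLinearMap) (h i) with hP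
  have hPdeg : ∀ i j, m.toSyn (m.degree (P i j)) ≤ m.toSyn ((i : σ →₀ ℕ)) := by
    intro i j
    rw [← hh3 i]
    exact degree_torusPoly m _ _
  have hcdet := coeff_det m P (fun i : A => (i : σ →₀ ℕ)) hPdeg
  have hmat : (Matrix.of fun i j : A => coeff (i : σ →₀ ℕ) (P i j)) =
      Matrix.diagonal fun i : A => coeff (i : σ →₀ ℕ) (h i) := by
    ext i j
    rw [Matrix.of_apply, Matrix.diagonal_apply, hP, Matrix.of_apply, coeff_torusPoly]
    have : (φ j ∘ₗ (act b).toLinearMap) (monomial (i : σ →₀ ℕ) 1) = φ j (y i) := rfl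
    rw [this, hφ2]
    split_ifs with h
    · rw [mul_one]
    · rw [mul_zero]
  rw [hmat, Matrix.det_diagonal] at hcdet
  have hlc : ∀ i : A, coeff (i : σ →₀ ℕ) (h i) ≠ 0 := by
    intro i
    have := mem_support_iff.1 (m.degree_mem_support (hh2 i))
    rwa [hh3 i] at this
  have hPdet : P.det ≠ 0 := by
    intro h0
    rw [h0, coeff_zero] at hcdet
    exact (Finset.prod_ne_zero_iff.2 fun i _ => hlc i) hcdet.symm
  have hprod : P.det * ∏ i : σ, X i ≠ 0 :=
    mul_ne_zero hPdet (Finset.prod_ne_zero_iff.2 fun i _ => X_ne_zero i)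
  obtain ⟨t, ht⟩ : ∃ t : σ → K, eval t (P.det * ∏ i : σ, X i) ≠ 0 := by
    by_contra hc0
    push Not at hc0
    exact hprod (MvPolynomial.funext fun t => by rw [hc0 t, map_zero])
  rw [map_mul] at ht
  have ht1 := left_ne_zero_of_mul ht
  have ht2 : ∀ i, t i ≠ 0 := by
    have := right_ne_zero_of_mul ht
    rw [map_prod] at this
    simp only [eval_X] at this
    exact fun i => Finset.prod_ne_zero_iff.1 this i (Finset.mem_univ i)
  have hDG : InG c (Matrix.diagonal t) := inG_diagonal c ht2
  have hG : InG c (b * (Matrix.diagonal t * g₁)) := inG_mul hbG (inG_mul hDG hg₁)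
  have hdet2 : (Matrix.of fun i j : A => φ j (act b (act (Matrix.diagonal t) (h i)))).det ≠ 0 := by
    rw [RingHom.map_det] at ht1
    convert ht1 using 2
    ext i j
    rw [RingHom.mapMatrix_apply, Matrix.map_apply, hP, Matrix.of_apply, Matrix.of_apply,
      eval_torusPoly]
    rfl
  have hcount := count_ge m hTlow (graded_map hG hI)
    (fun i : A => act b (act (Matrix.diagonal t) (h i)))
    (fun i => by
      rw [← map_map_act, ← map_map_act, act_mem_map hbG.2, act_mem_map hDG.2]
      exact hh1 i)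
    (fun i => act_restrict hbG.1 (act_restrict hDG.1 (hh4 i))) φ hφ1 hdet2
  have hle := hcount.trans (hmax T hTlow _ hG)
  have hcardA : Fintype.card A = A.ncard := by
    rw [← Nat.card_eq_fintype_card, Nat.card_coe_set_eq]
  have hAeq : A = insert ν₀ (M \ T) := by
    ext e
    constructor
    · rintro ⟨h1, h2⟩
      by_cases he : e = ν₀
      · exact Or.inl he
      · exact Or.inr ⟨h1, fun h3 => he (m.toSyn.injective (le_antisymm h3.2 h2))⟩
    · rintro (rfl | ⟨h1, h2⟩)
      · exact hν₀A
      · refine ⟨h1, ?_⟩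
        by_contra h3
        exact h2 ⟨hM h1, (not_le.1 h3).le⟩
  have hν₀T : ν₀ ∉ M \ T := fun h => h.2 ⟨hM ha, le_rfl⟩
  rw [hcardA, hAeq, Set.ncard_insert_of_notMem hν₀T
    (((finite_Ed c d).subset hM).subset Set.sdiff_subset)] at hle
  omega

end Pool.Agent.H874.CS
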